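import Mathlib

set_option autoImplicit false

namespace Pool.Agent.Helper605.FT


/-- one step in the cube -/
def Adj (a b : Finset ℕ) : Prop :=
  (∃ x, x ∉ a ∧ b = insert x a) ∨ (∃ x, x ∉ b ∧ a = insert x b)

/-- consecutive sets are adjacent, and no set is contained in an earlier one, except possibly the one
immediately before it -/
def Ok : List (Finset ℕ) → Prop
  | [] => True
  | [_] => True
  | a :: b :: L => Adj a b ∧ (∀ c ∈ L, ¬ c ⊆ a) ∧ Ok (b :: L)

theorem Ok.append {L1 L2 : List (Finset ℕ)} (h1 : Ok L1) (h2 : Ok L2)
    (hj : ∀ a ∈ L1.getLast?, ∀ b ∈ L2.head?, Adj a b)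
    (hc1 : ∀ x ∈ L1.dropLast, ∀ y ∈ L2, ¬ y ⊆ x)
    (hc2 : ∀ x ∈ L1.getLast?, ∀ y ∈ L2.tail, ¬ y ⊆ x) : Ok (L1 ++ L2) := by
  induction L1 with
  | nil => simpa using h2
  | cons a L ih =>
    cases L with
    | nil =>
      cases L2 with
      | nil => simp [Ok]
      | cons b M =>
        refine ⟨hj a (by simp) b (by simp), ?_, h2⟩
        intro c hc
        exact hc2 a (by simp) c (by simpa using hc)
    | cons b L =>
      obtain ⟨h11, h12, h13⟩ := h1
      refine ⟨h11, ?_, ?_⟩
      · intro c hc
        rcases List.mem_append.1 hc with hc | hc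
        · exact h12 c hc
        · exact hc1 a (by simp) c hc
      · refine ih h13 ?_ ?_ ?_
        · intro x hx y hy
          exact hj x (by simpa using hx) y hy
        · intro x hx y hy
          exact hc1 x (by simp [hx]) y hy
        · intro x hx y hy
          exact hc2 x (by simpa using hx) y hy

theorem Ok.append_strong {L1 L2 : List (Finset ℕ)} (h1 : Ok L1) (h2 : Ok L2)
    (hj : ∀ a ∈ L1.getLast?, ∀ b ∈ L2.head?, Adj a b)
    (hc : ∀ x ∈ L1, ∀ y ∈ L2, ¬ y ⊆ x) : Ok (L1 ++ L2) :=
  h1.append h2 hj (fun x hx y hy => hc x (List.dropLast_subset _ hx) y hy)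
    (fun x hx y hy => hc x (List.mem_of_getLast? hx) y (List.mem_of_mem_tail hy))

theorem Adj.map {f : ℕ → ℕ} (hf : Function.Injective f) {a b : Finset ℕ} (h : Adj a b) :
    Adj (a.image f) (b.image f) := by
  rcases h with ⟨x, hx, rfl⟩ | ⟨x, hx, rfl⟩
  · exact Or.inl ⟨f x, by simpa [hf.eq_iff] using hx, by rw [Finset.image_insert]⟩
  · exact Or.inr ⟨f x, by simpa [hf.eq_iff] using hx, by rw [Finset.image_insert]⟩

theorem Adj.ins {x : ℕ} {a b : Finset ℕ} (ha : x ∉ a) (hb : x ∉ b) (h : Adj a b) :
    Adj (insert x a) (insert x b) := by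
  rcases h with ⟨y, hy, rfl⟩ | ⟨y, hy, rfl⟩
  · refine Or.inl ⟨y, ?_, Finset.insert_comm _ _ _⟩
    simp only [Finset.mem_insert, not_or] at hb ⊢
    exact ⟨fun h => hb.1 h.symm, hy⟩
  · refine Or.inr ⟨y, ?_, Finset.insert_comm _ _ _⟩
    simp only [Finset.mem_insert, not_or] at ha ⊢
    exact ⟨fun h => ha.1 h.symm, hy⟩

theorem Ok.gmap {L : List (Finset ℕ)} (g : Finset ℕ → Finset ℕ)
    (hadj : ∀ a ∈ L, ∀ b ∈ L, Adj a b → Adj (g a) (g b))
    (hsub : ∀ a ∈ L, ∀ b ∈ L, g b ⊆ g a → b ⊆ a) (h : Ok L) : Ok (L.map g) := by
  induction L with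
  | nil => simp [Ok]
  | cons a L ih =>
    cases L with
    | nil => simp [Ok]
    | cons b L =>
      obtain ⟨h1, h2, h3⟩ := h
      refine ⟨hadj a (by simp) b (by simp) h1, ?_, ?_⟩
      · intro c hc hca
        rw [List.mem_map] at hc
        obtain ⟨d, hd, rfl⟩ := hc
        exact h2 d hd (hsub a (by simp) d (by simp [hd]) hca)
      · exact ih (fun x hx y hy => hadj x (by simp [hx]) y (by simp [hy]))
          (fun x hx y hy => hsub x (by simp [hx]) y (by simp [hy])) h3

theorem sub_of_ins_sub {x : ℕ} {a b : Finset ℕ} (hb : x ∉ b)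
    (h : insert x b ⊆ insert x a) : b ⊆ a := by
  intro y hy
  have := h (Finset.mem_insert_of_mem hy)
  rcases Finset.mem_insert.1 this with rfl | h'
  · exact absurd hy hb
  · exact h'

theorem Ok.ins {L : List (Finset ℕ)} {x : ℕ} (hx : ∀ a ∈ L, x ∉ a) (h : Ok L) :
    Ok (L.map (insert x)) :=
  h.gmap _ (fun a ha b hb hab => hab.ins (hx a ha) (hx b hb))
    (fun _ _ b hb hab => sub_of_ins_sub (hx b hb) hab)

theorem Ok.image {L : List (Finset ℕ)} {f : ℕ → ℕ} (hf : Function.Injective f) (h : Ok L) :
    Ok (L.map (Finset.image f)) :=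
  h.gmap _ (fun _ _ _ _ hab => hab.map hf)
    (fun _ _ _ _ hab => (Finset.image_subset_image_iff hf).1 hab)

/-- A full order with jumps on the subsets of the entries of `s`: phase `k` is the list `π k` which
alternates between sets of size `k+1` and `k`, starts at the first `k+1` entries of `s` and ends at
the first `k` entries of `e`. -/
structure PVf (s e : List ℕ) (π : ℕ → List (Finset ℕ)) : Prop where
  nd : s.Nodup
  perm : e.Perm s
  len : ∀ k, (π k).length = 2 * (s.length - 1).choose k
  ok : ∀ k, Ok (π k)
  card : ∀ k, ∀ a ∈ π k, a.card = k ∨ a.card = k + 1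
  sub : ∀ k, ∀ a ∈ π k, a ⊆ s.toFinset
  head : ∀ k < s.length, (π k).head? = some (s.take (k + 1)).toFinset
  last : ∀ k < s.length, (π k).getLast? = some (e.take k).toFinset
  cross : ∀ k l, k < l → ∀ a ∈ π k, ∀ b ∈ π l, ¬ b ⊆ a

def PV (s e : List ℕ) : Prop := ∃ π, PVf s e π

/-- merging two orders by a new element `x` -/
def mg (x : ℕ) (A B : ℕ → List (Finset ℕ)) : ℕ → List (Finset ℕ)
  | 0 => A 0
  | k + 1 => A (k + 1) ++ (B k).map (insert x)

theorem PVf.merge {s m e : List ℕ} {A B : ℕ → List (Finset ℕ)} {x : ℕ}
    (hA : PVf s m A) (hB : PVf m e B) (hx : x ∉ s) (hs : s ≠ []) :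
    PVf (s ++ [x]) (x :: e) (mg x A B) := by
  have hlen : 0 < s.length := List.length_pos_iff.2 hs
  have hml : m.length = s.length := hA.perm.length_eq
  have hmf : m.toFinset = s.toFinset := by
    ext y; simp [hA.perm.mem_iff]
  have hxA : ∀ k, ∀ a ∈ A k, x ∉ a := fun k a ha hxa => hx (by
    simpa using hA.sub k a ha hxa)
  have hxB : ∀ k, ∀ a ∈ B k, x ∉ a := fun k a ha hxa => hx (by
    have := hB.sub k a ha hxa
    rw [hmf] at this
    simpa using this)
  constructor
  · rw [List.nodup_append]
    refine ⟨hA.nd, by simp, ?_⟩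
    intro a ha b hb
    simp only [List.mem_singleton] at hb
    subst hb
    intro h; subst h; exact hx ha
  · have : (x :: e).Perm (x :: s) := List.Perm.cons x (hB.perm.trans hA.perm)
    exact this.trans (List.perm_append_comm (l₁ := [x]) (l₂ := s))
  · intro k
    have e1 : (s ++ [x]).length - 1 = (s.length - 1) + 1 := by simp; omega
    rw [e1]
    cases k with
    | zero => simp [mg, hA.len]
    | succ k =>
      simp only [mg, List.length_append, List.length_map, hA.len, hB.len, hml]
      rw [Nat.choose_succ_succ]; ring
  · intro k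
    cases k with
    | zero => exact hA.ok 0
    | succ k =>
      refine (hA.ok (k + 1)).append_strong ((hB.ok k).ins (hxB k)) ?_ ?_
      · intro a ha b hb
        by_cases hk : k + 1 < s.length
        · rw [hA.last _ hk] at ha
          rw [List.head?_map, hB.head k (by omega)] at hb
          simp only [Option.mem_def, Option.some.injEq, Option.map_some] at ha hb
          subst ha hb
          refine Or.inl ⟨x, ?_, rfl⟩
          intro hxx
          simp only [List.mem_toFinset] at hxx
          exact hx ((hA.perm.mem_iff).1 (List.mem_of_mem_take hxx))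
        · have : (A (k + 1)).length = 0 := by
            rw [hA.len, Nat.choose_eq_zero_of_lt (by omega)]
          rw [List.length_eq_zero_iff] at this
          rw [this] at ha; simp at ha
      · intro a ha b hb hba
        rw [List.mem_map] at hb
        obtain ⟨c, hc, rfl⟩ := hb
        exact hxA _ a ha (hba (Finset.mem_insert_self _ _))
  · intro k a ha
    cases k with
    | zero => exact hA.card 0 a ha
    | succ k =>
      simp only [mg, List.mem_append, List.mem_map] at ha
      rcases ha with ha | ⟨b, hb, rfl⟩
      · exact hA.card _ a ha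
      · rw [Finset.card_insert_of_notMem (hxB k b hb)]
        rcases hB.card k b hb with h | h <;> omega
  · intro k a ha
    have hsub : s.toFinset ⊆ (s ++ [x]).toFinset := by
      intro y hy; simp only [List.toFinset_append, Finset.mem_union]; exact Or.inl hy
    cases k with
    | zero => exact (hA.sub 0 a ha).trans hsub
    | succ k =>
      simp only [mg, List.mem_append, List.mem_map] at ha
      rcases ha with ha | ⟨b, hb, rfl⟩
      · exact (hA.sub _ a ha).trans hsub
      · have h1 := hB.sub k b hb
        rw [hmf] at h1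
        exact Finset.insert_subset (by simp) (h1.trans hsub)
  · intro k hk
    simp only [List.length_append, List.length_singleton] at hk
    cases k with
    | zero =>
      rw [List.take_append_of_le_length (by omega)]
      exact hA.head 0 hlen
    | succ k =>
      by_cases hk2 : k + 1 < s.length
      · simp only [mg]
        rw [List.take_append_of_le_length (by omega), List.head?_append, hA.head _ hk2]
        rfl
      · have h0 : (A (k + 1)).length = 0 := by
          rw [hA.len, Nat.choose_eq_zero_of_lt (by omega)]
        rw [List.length_eq_zero_iff] at h0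
        have hk3 : k + 1 = s.length := by omega
        simp only [mg, h0, List.nil_append, List.head?_map]
        rw [hB.head k (by omega)]
        simp only [Option.map_some, Option.some.injEq]
        rw [List.take_of_length_le (by omega), List.take_of_length_le (by simp; omega)]
        ext y
        simp [hA.perm.mem_iff]
  · intro k hk
    simp only [List.length_append, List.length_singleton] at hk
    cases k with
    | zero =>
      have := hA.last 0 hlen
      simpa [mg] using this
    | succ k =>
      have hne : (B k) ≠ [] := by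
        intro h0
        have := hB.last k (by omega)
        rw [h0] at this; simp at this
      simp only [mg]
      rw [List.getLast?_append, List.getLast?_map, hB.last k (by omega)]
      simp
  · intro k l hkl a ha b hb hba
    cases l with
    | zero => omega
    | succ l =>
      simp only [mg, List.mem_append, List.mem_map] at hb
      cases k with
      | zero =>
        rcases hb with hb | ⟨c, hc, rfl⟩
        · exact hA.cross 0 (l + 1) hkl a ha b hb hba
        · exact hxA _ a ha (hba (Finset.mem_insert_self _ _))
      | succ k =>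
        simp only [mg, List.mem_append, List.mem_map] at ha
        rcases hb with hb | ⟨c, hc, rfl⟩
        · rcases ha with ha | ⟨d, hd, rfl⟩
          · exact hA.cross _ _ hkl a ha b hb hba
          · have hbd : b ⊆ d := by
              intro y hy
              rcases Finset.mem_insert.1 (hba hy) with rfl | h
              · exact absurd hy (hxA _ b hb)
              · exact h
            have h1 := Finset.card_le_card hbd
            have h2 := hA.card _ b hb
            have h3 := hB.card _ d hd
            omega
        · rcases ha with ha | ⟨d, hd, rfl⟩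
          · exact hxA _ a ha (hba (Finset.mem_insert_self _ _))
          · exact hB.cross k l (by omega) d hd c hc (sub_of_ins_sub (hxB _ c hc) hba)

theorem PV.merge {s m e : List ℕ} {x : ℕ}
    (hA : PV s m) (hB : PV m e) (hx : x ∉ s) (hs : s ≠ []) : PV (s ++ [x]) (x :: e) := by
  obtain ⟨A, hA⟩ := hA
  obtain ⟨B, hB⟩ := hB
  exact ⟨_, hA.merge hB hx hs⟩

theorem toFinset_map {f : ℕ → ℕ} (l : List ℕ) : (l.map f).toFinset = l.toFinset.image f := by
  ext y; simp

theorem PVf.relabel {s e : List ℕ} {π : ℕ → List (Finset ℕ)} (h : PVf s e π) {f : ℕ → ℕ}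
    (hf : Function.Injective f) :
    PVf (s.map f) (e.map f) (fun k => (π k).map (Finset.image f)) := by
  constructor
  · exact h.nd.map hf
  · exact h.perm.map f
  · intro k; simp [h.len]
  · intro k; exact (h.ok k).image hf
  · intro k a ha
    rw [List.mem_map] at ha
    obtain ⟨b, hb, rfl⟩ := ha
    rw [Finset.card_image_of_injective _ hf]
    exact h.card k b hb
  · intro k a ha
    rw [List.mem_map] at ha
    obtain ⟨b, hb, rfl⟩ := ha
    rw [toFinset_map]
    exact Finset.image_subset_image (h.sub k b hb)
  · intro k hk
    rw [List.length_map] at hk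
    simp only [List.head?_map, h.head k hk, Option.map_some, ← List.map_take, toFinset_map]
  · intro k hk
    rw [List.length_map] at hk
    simp only [List.getLast?_map, h.last k hk, Option.map_some, ← List.map_take, toFinset_map]
  · intro k l hkl a ha b hb hba
    rw [List.mem_map] at ha hb
    obtain ⟨c, hc, rfl⟩ := ha
    obtain ⟨d, hd, rfl⟩ := hb
    exact h.cross k l hkl c hc d hd ((Finset.image_subset_image_iff hf).1 hba)

theorem PV.relabel {s e : List ℕ} (h : PV s e) {f : ℕ → ℕ} (hf : Function.Injective f) :
    PV (s.map f) (e.map f) := by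
  obtain ⟨π, h⟩ := h
  exact ⟨_, h.relabel hf⟩

end Pool.Agent.Helper605.FT
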