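import Mathlib
import Pool.Agent.Helper605.FT.A

set_option autoImplicit false

namespace Pool.Agent.Helper605.FT


/-- the A-part of the construction: lists `v k`, `c0 ≤ k ≤ top`, alternating between sets of size `k`
and `k+1`, starting at `R k` and ending at the first `k` entries of `z`. -/
structure VVf (c0 top : ℕ) (R : ℕ → Finset ℕ) (G z : List ℕ) (v : ℕ → List (Finset ℕ)) : Prop where
  nd : G.Nodup
  perm : z.Perm G
  len : ∀ k, c0 ≤ k → k ≤ top → 2 * (G.length - 1).choose k ≤ (v k).length + 1
  ok : ∀ k, c0 ≤ k → k ≤ top → Ok (v k)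
  card : ∀ k, c0 ≤ k → k ≤ top → ∀ a ∈ v k, a.card = k ∨ a.card = k + 1
  sub : ∀ k, c0 ≤ k → k ≤ top → ∀ a ∈ v k, a ⊆ G.toFinset
  head : ∀ k, c0 ≤ k → k ≤ top → (v k).head? = some (R k)
  last : ∀ k, c0 ≤ k → k ≤ top → (v k).getLast? = some (z.take k).toFinset
  cross : ∀ k l, c0 ≤ k → k < l → l ≤ top → ∀ a ∈ v k, ∀ b ∈ v l, ¬ b ⊆ a

/-- TARGET -/
theorem VVf.merge {c0 top : ℕ} {R : ℕ → Finset ℕ} {G z e : List ℕ} {v B : ℕ → List (Finset ℕ)}
    {y : ℕ} (h : VVf c0 top R G z v) (hB : PVf z e B) (hy : y ∉ G) (hc0 : 1 ≤ c0)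
    (htop : top ≤ G.length) :
    VVf c0 top R (G ++ [y]) (y :: e) (fun k => v k ++ (B (k - 1)).map (insert y)) := by
  have hzl : z.length = G.length := h.perm.length_eq
  have hzf : z.toFinset = G.toFinset := by
    ext t; simp [h.perm.mem_iff]
  have hyz : y ∉ z := fun hh => hy ((h.perm.mem_iff).1 hh)
  have hyB : ∀ k, ∀ a ∈ B k, y ∉ a := fun k a ha hya => hyz (by
    simpa using hB.sub k a ha hya)
  have hyv : ∀ k, c0 ≤ k → k ≤ top → ∀ a ∈ v k, y ∉ a := fun k h1 h2 a ha hya => hy (by
    simpa using h.sub k h1 h2 a ha hya)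
  have hmain : ∀ k, c0 ≤ k → k ≤ top → ∃ j, k = j + 1 ∧ j < z.length := by
    intro k h1 h2
    exact ⟨k - 1, by omega, by omega⟩
  constructor
  · rw [List.nodup_append]
    refine ⟨h.nd, by simp, ?_⟩
    intro a ha b hb
    simp only [List.mem_singleton] at hb
    subst hb
    intro h; subst h; exact hy ha
  · have : (y :: e).Perm (y :: G) := List.Perm.cons y (hB.perm.trans h.perm)
    exact this.trans (List.perm_append_comm (l₁ := [y]) (l₂ := G))
  · intro k h1 h2
    obtain ⟨j, rfl, hj⟩ := hmain k h1 h2
    have h3 := h.len (j + 1) h1 h2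
    have h4 := hB.len j
    have e1 : (G ++ [y]).length - 1 = (G.length - 1) + 1 := by simp; omega
    simp only [Nat.add_sub_cancel, List.length_append, List.length_map]
    simp only [List.length_append] at e1
    rw [e1, Nat.choose_succ_succ', h4, hzl]
    omega
  · intro k h1 h2
    obtain ⟨j, rfl, hj⟩ := hmain k h1 h2
    simp only [Nat.add_sub_cancel]
    refine (h.ok (j + 1) h1 h2).append_strong ((hB.ok j).ins (hyB j)) ?_ ?_
    · intro a ha b hb
      rw [h.last _ h1 h2] at ha
      rw [List.head?_map, hB.head j hj] at hb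
      simp only [Option.mem_def, Option.some.injEq, Option.map_some] at ha hb
      subst ha hb
      refine Or.inl ⟨y, ?_, rfl⟩
      intro hxx
      simp only [List.mem_toFinset] at hxx
      exact hyz (List.mem_of_mem_take hxx)
    · intro a ha b hb hba
      rw [List.mem_map] at hb
      obtain ⟨c, hc, rfl⟩ := hb
      exact hyv _ h1 h2 a ha (hba (Finset.mem_insert_self _ _))
  · intro k h1 h2 a ha
    obtain ⟨j, rfl, hj⟩ := hmain k h1 h2
    simp only [Nat.add_sub_cancel, List.mem_append, List.mem_map] at ha
    rcases ha with ha | ⟨b, hb, rfl⟩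
    · exact h.card _ h1 h2 a ha
    · rw [Finset.card_insert_of_notMem (hyB j b hb)]
      rcases hB.card j b hb with h | h <;> omega
  · intro k h1 h2 a ha
    have hsub : G.toFinset ⊆ (G ++ [y]).toFinset := by
      intro t ht; simp only [List.toFinset_append, Finset.mem_union]; exact Or.inl ht
    simp only [List.mem_append, List.mem_map] at ha
    rcases ha with ha | ⟨b, hb, rfl⟩
    · exact (h.sub _ h1 h2 a ha).trans hsub
    · have h3 := hB.sub _ b hb
      rw [hzf] at h3
      exact Finset.insert_subset (by simp) (h3.trans hsub)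
  · intro k h1 h2
    simp only [List.head?_append, h.head k h1 h2]
    rfl
  · intro k h1 h2
    obtain ⟨j, rfl, hj⟩ := hmain k h1 h2
    simp only [Nat.add_sub_cancel, List.getLast?_append, List.getLast?_map, hB.last j hj]
    simp
  · intro k l h1 hkl h2 a ha b hb hba
    obtain ⟨i, rfl, hi⟩ := hmain k h1 (by omega)
    obtain ⟨j, rfl, hj⟩ := hmain l (by omega) h2
    simp only [Nat.add_sub_cancel, List.mem_append, List.mem_map] at ha hb
    rcases ha with ha | ⟨a', ha', rfl⟩
    · rcases hb with hb | ⟨b', hb', rfl⟩
      · exact h.cross _ _ h1 hkl h2 a ha b hb hba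
      · exact hyv _ h1 (by omega) a ha (hba (Finset.mem_insert_self _ _))
    · rcases hb with hb | ⟨b', hb', rfl⟩
      · have hyb := hyv _ (by omega) h2 b hb
        have hbd : b ⊆ a' := by
          intro t ht
          rcases Finset.mem_insert.1 (hba ht) with rfl | h
          · exact absurd ht hyb
          · exact h
        have h3 := Finset.card_le_card hbd
        have h4 := h.card _ (by omega) h2 b hb
        have h5 := hB.card _ a' ha'
        omega
      · exact hB.cross i j (by omega) a' ha' b' hb' (sub_of_ins_sub (hyB _ b' hb') hba)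

/-- TARGET -/
theorem VVf.step2 {N : ℕ} {R : ℕ → Finset ℕ} {G z w w' : List ℕ} {v B1 B2 : ℕ → List (Finset ℕ)}
    {y y2 : ℕ} (h : VVf 9 N R G z v) (hlen : G.length = N) (hN : 9 ≤ N)
    (hy : y ∉ G) (hy2 : y2 ∉ G) (hne : y ≠ y2)
    (hB1 : PVf z w B1) (hB2 : PVf (y :: w) (w' ++ [y]) B2)
    (hR1 : R (N + 1) = insert y2 G.toFinset)
    (hR2 : R (N + 2) = insert y (insert y2 G.toFinset)) :
    VVf 9 (N + 2) R (G ++ [y, y2]) (y2 :: (w' ++ [y]))
      (fun k => if k ≤ N then
        v k ++ (B1 (k - 1)).map (insert y) ++ (B2 (k - 1)).map (insert y2) else [R k]) := by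
  have h1 := h.merge hB1 hy (by norm_num) hlen.ge
  have hy2' : y2 ∉ G ++ [y] := by
    simp only [List.mem_append, List.mem_singleton, not_or]
    exact ⟨hy2, fun h => hne h.symm⟩
  have h2 := h1.merge hB2 hy2' (by norm_num) (by simp; omega)
  have eG : G ++ [y] ++ [y2] = G ++ [y, y2] := by simp
  rw [eG] at h2
  have hcardG : G.toFinset.card = N := by
    rw [List.toFinset_card_of_nodup h.nd, hlen]
  have hw'p : w'.Perm G := by
    have e1 : (y :: w').Perm (y :: w) := by
      have : (y :: w').Perm (w' ++ [y]) := List.perm_append_comm (l₁ := [y]) (l₂ := w')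
      exact this.trans hB2.perm
    exact (e1.cons_inv).trans (hB1.perm.trans h.perm)
  have hw'l : w'.length = N := by rw [hw'p.length_eq, hlen]
  have hw'f : w'.toFinset = G.toFinset := by
    ext t; simp [hw'p.mem_iff]
  have hwl : w.length = N := by
    rw [hB1.perm.length_eq, h.perm.length_eq, hlen]
  have hGmem : G.toFinset ∈ B2 N := by
    have h3 := hB2.last N (by simp; omega)
    have e2 : (w' ++ [y]).take N = w' := by
      rw [← hw'l]; simp
    rw [e2, hw'f] at h3
    exact List.mem_of_getLast? h3
  have hy2G : y2 ∉ G.toFinset := by simpa using hy2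
  have hyG : y ∉ insert y2 G.toFinset := by
    simp only [Finset.mem_insert, not_or, List.mem_toFinset]
    exact ⟨hne, hy⟩
  have hc1 : (R (N + 1)).card = N + 1 := by
    rw [hR1, Finset.card_insert_of_notMem hy2G, hcardG]
  have hc2 : (R (N + 2)).card = N + 2 := by
    rw [hR2, Finset.card_insert_of_notMem hyG, Finset.card_insert_of_notMem hy2G, hcardG]
  have hcases : ∀ k, k ≤ N + 2 → ¬ k ≤ N → k = N + 1 ∨ k = N + 2 := by
    intro k _ _; omega
  have hcardR : ∀ k, k ≤ N + 2 → ¬ k ≤ N → (R k).card = k := by
    intro k h3 h4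
    rcases hcases k h3 h4 with rfl | rfl
    · exact hc1
    · exact hc2
  have hsubR : ∀ k, k ≤ N + 2 → ¬ k ≤ N → R k ⊆ (G ++ [y, y2]).toFinset := by
    intro k h3 h4 t ht
    rcases hcases k h3 h4 with rfl | rfl
    · rw [hR1] at ht
      simp only [Finset.mem_insert, List.mem_toFinset] at ht
      simp only [List.mem_toFinset, List.mem_append, List.mem_cons, List.not_mem_nil, or_false]
      tauto
    · rw [hR2] at ht
      simp only [Finset.mem_insert, List.mem_toFinset] at ht
      simp only [List.mem_toFinset, List.mem_append, List.mem_cons, List.not_mem_nil, or_false]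
      tauto
  constructor
  · exact h2.nd
  · exact h2.perm
  · intro k h3 h4
    by_cases hk : k ≤ N
    · simp only [if_pos hk]
      exact h2.len k h3 hk
    · simp only [if_neg hk]
      have e3 : (G ++ [y, y2]).length - 1 = N + 1 := by simp; omega
      rw [e3]
      rcases hcases k h4 hk with rfl | rfl
      · simp
      · simp
  · intro k h3 h4
    by_cases hk : k ≤ N
    · simp only [if_pos hk]
      exact h2.ok k h3 hk
    · simp only [if_neg hk]
      trivial
  · intro k h3 h4 a ha
    by_cases hk : k ≤ N
    · simp only [if_pos hk] at ha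
      exact h2.card k h3 hk a ha
    · simp only [if_neg hk, List.mem_singleton] at ha
      subst ha
      exact Or.inl (hcardR k h4 hk)
  · intro k h3 h4 a ha
    by_cases hk : k ≤ N
    · simp only [if_pos hk] at ha
      exact h2.sub k h3 hk a ha
    · simp only [if_neg hk, List.mem_singleton] at ha
      subst ha
      exact hsubR k h4 hk
  · intro k h3 h4
    by_cases hk : k ≤ N
    · simp only [if_pos hk]
      exact h2.head k h3 hk
    · simp only [if_neg hk]
      rfl
  · intro k h3 h4
    by_cases hk : k ≤ N
    · simp only [if_pos hk]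
      exact h2.last k h3 hk
    · simp only [if_neg hk]
      rcases hcases k h4 hk with rfl | rfl
      · rw [hR1]
        have e4 : (y2 :: (w' ++ [y])).take (N + 1) = y2 :: w' := by
          rw [List.take_succ_cons, ← hw'l]; simp
        rw [e4]
        simp [hw'f]
      · rw [hR2]
        have e4 : (y2 :: (w' ++ [y])).take (N + 2) = y2 :: (w' ++ [y]) := by
          apply List.take_of_length_le
          simp; omega
        rw [e4]
        simp only [List.getLast?_singleton, Option.some.injEq]
        ext t
        simp only [Finset.mem_insert, List.mem_toFinset, List.mem_cons, List.mem_append,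
          List.not_mem_nil, or_false, hw'p.mem_iff]
        tauto
  · intro k l h3 hkl h4 a ha b hb hba
    by_cases hl : l ≤ N
    · have hk : k ≤ N := by omega
      simp only [if_pos hl] at hb
      simp only [if_pos hk] at ha
      exact h2.cross k l h3 hkl hl a ha b hb hba
    · simp only [if_neg hl, List.mem_singleton] at hb
      subst hb
      have hcb := hcardR l h4 hl
      have hle := Finset.card_le_card hba
      by_cases hk : k ≤ N
      · simp only [if_pos hk] at ha
        have hca := h2.card k h3 hk a ha
        rcases hcases l h4 hl with rfl | rfl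
        · rw [List.mem_append] at ha
          rw [hR1] at hba
          rcases ha with ha | ha
          · have h5 := h1.sub k h3 hk a ha
            exact hy2' (List.mem_toFinset.1 (h5 (hba (Finset.mem_insert_self _ _))))
          · rw [List.mem_map] at ha
            obtain ⟨a', ha', rfl⟩ := ha
            exact hB2.cross (k - 1) N (by omega) a' ha' _ hGmem (sub_of_ins_sub hy2G hba)
        · omega
      · simp only [if_neg hk, List.mem_singleton] at ha
        subst ha
        have hcb' := hcardR k (by omega) hk
        omega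

end Pool.Agent.Helper605.FT
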