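import Mathlib
import Pool.Agent.Helper605.FT.A

set_option autoImplicit false

namespace Pool.Agent.Helper605.FT

/-- the alpha condition of Felsner and Trotter, for lists -/
def Alpha : List (Finset ℕ) → Prop
  | [] => True
  | [_] => True
  | a :: b :: L => ¬ b ⊆ a ∧ (∀ c ∈ L, ¬ c ⊆ a ∪ b) ∧ Alpha (b :: L)

/-- keep the elements that are last or a subset of the next one -/
def al_keep : List (Finset ℕ) → List (Finset ℕ)
  | [] => []
  | [a] => [a]
  | a :: b :: L => if a ⊆ b then a :: al_keep (b :: L) else al_keep (b :: L)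

/-- the head is kept -/
def al_head : List (Finset ℕ) → Prop
  | [] => True
  | [_] => True
  | a :: b :: _ => a ⊆ b

theorem al_keep_sublist : ∀ L : List (Finset ℕ), (al_keep L).Sublist L
  | [] => by simp [al_keep]
  | [a] => by simp [al_keep]
  | a :: b :: L => by
    unfold al_keep
    split_ifs with h
    · exact (al_keep_sublist (b :: L)).cons_cons a
    · exact (al_keep_sublist (b :: L)).cons a

theorem al_adj_not (a b : Finset ℕ) (h : Adj a b) (hab : a ⊆ b) : ¬ b ⊆ a := by
  rcases h with ⟨x, hx, h⟩ | ⟨x, hx, h⟩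
  · intro h2
    apply hx
    apply h2
    rw [h]
    exact Finset.mem_insert_self x a
  · exfalso
    apply hx
    apply hab
    rw [h]
    exact Finset.mem_insert_self x b

theorem al_adj_sub (a b : Finset ℕ) (h : Adj a b) (hab : ¬ a ⊆ b) : b ⊆ a := by
  rcases h with ⟨x, hx, h⟩ | ⟨x, hx, h⟩
  · exact absurd (h ▸ Finset.subset_insert x a) hab
  · rw [h]
    exact Finset.subset_insert x b

theorem al_head_of_drop (a b : Finset ℕ) (L : List (Finset ℕ)) (hL : Ok (a :: b :: L))
    (hab : ¬ a ⊆ b) : al_head (b :: L) := by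
  cases L with
  | nil => trivial
  | cons c L =>
    unfold al_head
    by_contra hbc
    have h1 : Adj a b := hL.1
    have h2 : Adj b c := hL.2.2.1
    have h3 := al_adj_sub a b h1 hab
    have h4 := al_adj_sub b c h2 hbc
    exact hL.2.1 c List.mem_cons_self (h4.trans h3)

theorem al_ok_tail (a : Finset ℕ) (L : List (Finset ℕ)) (hL : Ok (a :: L)) : Ok L := by
  cases L with
  | nil => trivial
  | cons b L => exact hL.2.2

theorem al_len : ∀ L : List (Finset ℕ), Ok L →
    L.length ≤ 2 * (al_keep L).length + 1 ∧ (al_head L → L.length ≤ 2 * (al_keep L).length)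
  | [], _ => by simp [al_keep]
  | [a], _ => by simp [al_keep]
  | a :: b :: L, hL => by
    have ih := al_len (b :: L) (al_ok_tail a _ hL)
    by_cases h : a ⊆ b
    · have e : al_keep (a :: b :: L) = a :: al_keep (b :: L) := by
        rw [al_keep, if_pos h]
      rw [e]
      have h1 := ih.1
      simp only [List.length_cons] at h1 ⊢
      refine ⟨by omega, fun _ => by omega⟩
    · have e : al_keep (a :: b :: L) = al_keep (b :: L) := by
        rw [al_keep, if_neg h]
      rw [e]
      have h1 := ih.2 (al_head_of_drop a b L hL h)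
      simp only [List.length_cons] at h1 ⊢
      refine ⟨by omega, fun h2 => absurd h2 h⟩

theorem al_keep_head (a : Finset ℕ) (L : List (Finset ℕ)) (h : al_head (a :: L)) :
    ∃ R, al_keep (a :: L) = a :: R ∧ ∀ x ∈ R, x ∈ L := by
  cases L with
  | nil => exact ⟨[], rfl, by simp⟩
  | cons b L =>
    refine ⟨al_keep (b :: L), ?_, fun x hx => (al_keep_sublist (b :: L)).subset hx⟩
    have h' : a ⊆ b := h
    rw [al_keep, if_pos h']

theorem al_alpha : ∀ L : List (Finset ℕ), Ok L → Alpha (al_keep L)
  | [], _ => trivial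
  | [a], _ => trivial
  | [a, b], hL => by
    by_cases h : a ⊆ b
    · have e : al_keep [a, b] = [a, b] := by
        rw [al_keep, if_pos h]
        rfl
      rw [e]
      exact ⟨al_adj_not a b hL.1 h, by simp, trivial⟩
    · have e : al_keep [a, b] = [b] := by
        rw [al_keep, if_neg h]
        rfl
      rw [e]
      trivial
  | a :: b :: c :: L, hL => by
    have ih := al_alpha (b :: c :: L) (al_ok_tail a _ hL)
    by_cases h : a ⊆ b
    · have e : al_keep (a :: b :: c :: L) = a :: al_keep (b :: c :: L) := by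
        rw [al_keep, if_pos h]
      rw [e]
      by_cases h2 : b ⊆ c
      · have e2 : al_keep (b :: c :: L) = b :: al_keep (c :: L) := by
          rw [al_keep, if_pos h2]
        rw [e2] at ih ⊢
        refine ⟨al_adj_not a b hL.1 h, ?_, ih⟩
        intro d hd hsub
        rw [Finset.union_eq_right.2 h] at hsub
        have hd' := (al_keep_sublist (c :: L)).subset hd
        rcases List.mem_cons.1 hd' with rfl | hd'
        · exact al_adj_not b d hL.2.2.1 h2 hsub
        · exact hL.2.2.2.1 d hd' hsub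
      · have e2 : al_keep (b :: c :: L) = al_keep (c :: L) := by
          rw [al_keep, if_neg h2]
        have hh := al_head_of_drop b c L hL.2.2 h2
        obtain ⟨R, hR, hR2⟩ := al_keep_head c L hh
        rw [e2, hR] at ih ⊢
        refine ⟨hL.2.1 c List.mem_cons_self, ?_, ih⟩
        intro d hd hsub
        have hcb := al_adj_sub b c hL.2.2.1 h2
        exact hL.2.2.2.1 d (hR2 d hd) (hsub.trans (Finset.union_subset h hcb))
    · have e : al_keep (a :: b :: c :: L) = al_keep (b :: c :: L) := by
        rw [al_keep, if_neg h]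
      rw [e]
      exact ih

theorem al_nodup : ∀ L : List (Finset ℕ), Ok L → L.Nodup
  | [], _ => List.nodup_nil
  | [a], _ => List.nodup_singleton a
  | a :: b :: L, hL => by
    have ih := al_nodup (b :: L) (al_ok_tail a _ hL)
    refine List.nodup_cons.2 ⟨?_, ih⟩
    intro h
    rcases List.mem_cons.1 h with h | h
    · have h1 : Adj a b := hL.1
      rw [← h] at h1
      rcases h1 with ⟨x, hx, h2⟩ | ⟨x, hx, h2⟩
      · apply hx
        rw [h2]
        exact Finset.mem_insert_self x a
      · apply hx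
        rw [h2]
        exact Finset.mem_insert_self x a
    · exact hL.2.1 a h (Finset.Subset.refl a)

/-- TARGET -/
theorem alpha_of_ok (L : List (Finset ℕ)) (hL : Ok L) (h0 : L.head? = some ∅) :
    ∃ M : List (Finset ℕ), M.head? = some ∅ ∧ (∀ a ∈ M, a ∈ L) ∧ M.Nodup ∧
      L.length ≤ 2 * M.length ∧ Alpha M := by
  cases L with
  | nil => simp at h0
  | cons a L =>
    have ha : a = ∅ := by simpa using h0
    subst ha
    have hh : al_head (∅ :: L) := by
      cases L with
      | nil => trivial
      | cons b L => exact Finset.empty_subset b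
    obtain ⟨R, hR, hR2⟩ := al_keep_head ∅ L hh
    refine ⟨al_keep (∅ :: L), by rw [hR]; rfl, fun x hx => (al_keep_sublist _).subset hx,
      (al_nodup _ hL).sublist (al_keep_sublist _), (al_len _ hL).2 hh, al_alpha _ hL⟩

/-- TARGET -/
theorem count_bound (n : ℕ) (hn : 14 ≤ n) (v c : ℕ → ℕ)
    (hv : ∀ k, 9 ≤ k → k + 5 ≤ n → 2 * (n - 1).choose k ≤ v k + 1)
    (hc : ∀ k, 9 ≤ k → k + 5 ≤ n → 2 * (n - 1).choose (k - 1) ≤ c k + 2 * (n - 1).choose 3) :
    2 ^ (n + 1) ≤ (∑ k ∈ Finset.Icc 9 (n - 5), (v k + c k)) + 40 * n ^ 8 := by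
  obtain ⟨m, rfl⟩ : ∃ m, n = m + 14 := ⟨n - 14, by omega⟩
  have e1 : Finset.Icc 9 (m + 14 - 5) = Finset.Ico 9 (m + 10) := by
    ext x
    simp only [Finset.mem_Icc, Finset.mem_Ico]
    omega
  rw [e1]
  have hsum := Nat.sum_range_choose (m + 14)
  rw [Finset.range_eq_Ico, ← Finset.sum_Ico_consecutive _ (Nat.zero_le 9) (show 9 ≤ m + 14 + 1 by omega),
    ← Finset.sum_Ico_consecutive _ (show 9 ≤ m + 10 by omega) (show m + 10 ≤ m + 14 + 1 by omega)] at hsum
  have hpos : 1 ≤ m + 14 := by omega
  have b1 : ∑ k ∈ Finset.Ico 0 9, (m + 14).choose k ≤ 9 * (m + 14) ^ 8 := by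
    calc ∑ k ∈ Finset.Ico 0 9, (m + 14).choose k ≤ ∑ k ∈ Finset.Ico 0 9, (m + 14) ^ 8 := by
          apply Finset.sum_le_sum
          intro k hk
          rw [Finset.mem_Ico] at hk
          exact (Nat.choose_le_pow _ _).trans (Nat.pow_le_pow_right hpos (by omega))
      _ = 9 * (m + 14) ^ 8 := by
          rw [Finset.sum_const, smul_eq_mul, Nat.card_Ico]
  have p48 : (m + 14) ^ 4 ≤ (m + 14) ^ 8 := Nat.pow_le_pow_right hpos (by omega)
  have p18 : (m + 14) ≤ (m + 14) ^ 8 := by
    calc (m + 14) = (m + 14) ^ 1 := (pow_one _).symm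
      _ ≤ (m + 14) ^ 8 := Nat.pow_le_pow_right hpos (by omega)
  have b2 : ∑ k ∈ Finset.Ico (m + 10) (m + 14 + 1), (m + 14).choose k ≤ 5 * (m + 14) ^ 8 := by
    calc ∑ k ∈ Finset.Ico (m + 10) (m + 14 + 1), (m + 14).choose k
        ≤ ∑ k ∈ Finset.Ico (m + 10) (m + 14 + 1), (m + 14) ^ 8 := by
          apply Finset.sum_le_sum
          intro k hk
          rw [Finset.mem_Ico] at hk
          rw [← Nat.choose_symm (show k ≤ m + 14 by omega)]
          exact (Nat.choose_le_pow _ _).trans (Nat.pow_le_pow_right hpos (by omega))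
      _ = 5 * (m + 14) ^ 8 := by
          rw [Finset.sum_const, smul_eq_mul, Nat.card_Ico]
          congr 1
          omega
  have c3 : (m + 14 - 1).choose 3 ≤ (m + 14) ^ 3 :=
    (Nat.choose_le_pow _ _).trans (Nat.pow_le_pow_left (by omega) 3)
  have b3 : 2 * ∑ k ∈ Finset.Ico 9 (m + 10), (m + 14).choose k
      ≤ (∑ k ∈ Finset.Ico 9 (m + 10), (v k + c k)) + (m + 14) * (1 + 2 * (m + 14) ^ 3) := by
    rw [Finset.mul_sum]
    calc ∑ k ∈ Finset.Ico 9 (m + 10), 2 * (m + 14).choose k
        ≤ ∑ k ∈ Finset.Ico 9 (m + 10), ((v k + c k) + (1 + 2 * (m + 14) ^ 3)) := by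
          apply Finset.sum_le_sum
          intro k hk
          rw [Finset.mem_Ico] at hk
          have h1 := hv k (by omega) (by omega)
          have h2 := hc k (by omega) (by omega)
          obtain ⟨j, rfl⟩ : ∃ j, k = j + 1 := ⟨k - 1, by omega⟩
          have e2 : m + 14 - 1 = m + 13 := rfl
          have e3 : j + 1 - 1 = j := rfl
          rw [e2] at h1 h2 c3
          rw [e3] at h2
          have h3 : (m + 14).choose (j + 1) = (m + 13).choose j + (m + 13).choose (j + 1) :=
            Nat.choose_succ_succ _ _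
          rw [h3]
          omega
      _ = (∑ k ∈ Finset.Ico 9 (m + 10), (v k + c k)) + (m + 1) * (1 + 2 * (m + 14) ^ 3) := by
          rw [Finset.sum_add_distrib, Finset.sum_const, smul_eq_mul, Nat.card_Ico]
          congr 2
      _ ≤ _ := by
          gcongr
          omega
  have e4 : (m + 14) * (1 + 2 * (m + 14) ^ 3) = (m + 14) + 2 * (m + 14) ^ 4 := by ring
  rw [e4] at b3
  rw [pow_succ, ← hsum]
  omega

/-- TARGET -/
theorem Ok.nodup (L : List (Finset ℕ)) (hL : Ok L) : L.Nodup := al_nodup L hL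

end Pool.Agent.Helper605.FT
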