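import Mathlib

set_option autoImplicit false
set_option maxRecDepth 20000

namespace Pool.Agent.Helper605.FT


def perms : List (List ℕ) := [
  [3,4,5,6,1,2,0],
  [3,4,6,2,5,1,0],
  [3,5,1,6,0,4,2],
  [3,5,2,6,4,0,1],
  [3,6,0,1,4,5,2],
  [3,6,0,2,5,1,4],
  [3,6,0,2,5,4,1],
  [3,6,0,4,2,5,1],
  [3,6,2,4,1,5,0],
  [3,6,4,0,1,2,5],
  [3,6,4,0,5,2,1],
  [3,6,4,1,0,5,2],
  [3,6,4,1,5,0,2],
  [3,6,4,2,5,0,1],
  [3,6,4,5,2,1,0],
  [3,6,5,4,0,1,2],
  [4,0,6,2,3,5,1],
  [4,2,5,6,0,3,1],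
  [4,2,6,1,5,0,3],
  [4,2,6,3,5,0,1],
  [4,3,6,0,2,1,5],
  [4,6,1,2,5,3,0],
  [4,6,2,3,1,0,5],
  [5,0,6,3,1,4,2],
  [5,1,2,6,0,3,4],
  [5,1,2,6,4,3,0],
  [5,1,3,6,2,0,4],
  [5,1,3,6,4,2,0],
  [5,1,4,6,0,2,3],
  [5,1,4,6,0,3,2],
  [5,1,4,6,2,3,0],
  [5,1,4,6,3,0,2],
  [5,2,4,6,3,0,1],
  [5,2,6,1,3,4,0],
  [5,3,4,6,2,1,0],
  [5,6,1,2,3,0,4],
  [5,6,4,3,0,1,2],
  [6,0,1,2,5,3,4],
  [6,0,1,2,5,4,3],
  [6,0,1,3,4,2,5],
  [6,0,1,3,4,5,2],
  [6,0,1,4,2,3,5],
  [6,0,1,4,3,2,5],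
  [6,0,2,1,3,5,4],
  [6,0,2,1,4,5,3],
  [6,0,2,1,5,4,3],
  [6,0,2,4,1,3,5],
  [6,0,2,4,1,5,3],
  [6,0,2,4,5,1,3],
  [6,0,2,4,5,3,1],
  [6,0,3,1,2,4,5],
  [6,0,3,2,1,4,5],
  [6,0,3,2,5,1,4],
  [6,0,5,1,2,4,3],
  [6,0,5,1,3,4,2],
  [6,0,5,3,2,4,1],
  [6,0,5,3,4,2,1],
  [6,0,5,4,1,2,3],
  [6,0,5,4,2,3,1],
  [6,0,5,4,3,1,2],
  [6,1,0,2,3,5,4],
  [6,1,0,2,4,3,5],
  [6,1,0,4,3,5,2],
  [6,1,0,4,5,2,3],
  [6,1,0,4,5,3,2],
  [6,1,0,5,2,3,4],
  [6,1,0,5,3,4,2],
  [6,1,0,5,4,2,3],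
  [6,1,2,0,5,3,4],
  [6,1,2,4,3,5,0],
  [6,1,3,0,2,4,5],
  [6,1,3,0,5,2,4],
  [6,1,3,2,0,5,4],
  [6,1,3,2,4,5,0],
  [6,1,3,2,5,0,4],
  [6,1,3,4,5,2,0],
  [6,1,4,0,3,5,2],
  [6,1,4,0,5,2,3],
  [6,1,4,2,0,5,3],
  [6,1,4,2,5,3,0],
  [6,1,4,3,2,5,0],
  [6,1,4,5,0,3,2],
  [6,1,5,0,2,3,4],
  [6,1,5,2,3,0,4],
  [6,1,5,2,4,3,0],
  [6,2,0,1,3,4,5],
  [6,2,0,1,3,5,4],
  [6,2,0,1,5,3,4],
  [6,2,0,4,3,1,5],
  [6,2,0,4,3,5,1],
  [6,2,1,4,5,3,0],
  [6,2,3,0,1,5,4],
  [6,2,3,1,0,5,4],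
  [6,2,3,1,4,0,5],
  [6,2,3,1,5,4,0],
  [6,2,3,4,1,5,0],
  [6,2,3,5,0,4,1],
  [6,2,4,0,3,1,5],
  [6,2,4,0,5,1,3],
  [6,2,4,0,5,3,1],
  [6,2,5,0,1,4,3],
  [6,2,5,0,4,1,3],
  [6,2,5,1,0,4,3],
  [6,2,5,1,4,0,3],
  [6,2,5,4,0,3,1],
  [6,3,0,1,4,5,2],
  [6,3,1,4,0,2,5],
  [6,3,1,4,5,0,2],
  [6,3,2,0,1,5,4],
  [6,3,4,1,0,5,2],
  [6,4,0,1,2,5,3],
  [6,4,0,2,1,5,3],
  [6,4,0,2,3,5,1],
  [6,4,1,0,2,3,5],
  [6,4,1,0,5,2,3],
  [6,4,1,0,5,3,2],
  [6,4,1,2,0,3,5],
  [6,4,2,0,5,1,3],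
  [6,4,2,1,3,5,0],
  [6,4,2,3,1,0,5],
  [6,4,2,3,1,5,0],
  [6,4,3,0,1,2,5],
  [6,4,3,1,5,0,2],
  [6,4,3,2,0,1,5],
  [6,4,5,0,1,2,3],
  [6,4,5,2,3,0,1],
  [6,5,2,1,3,0,4]]

/-- a possible certificate: for each permutation of `0..6` with first entry different from 6, in
lexicographic order (180 blocks of 24, one block for each prefix of length 3), the indices `(i, j)` in `perms` of `p, q` with the permutation equal to
`q.map (fun i => p.getD i 0)` -/
def cert : List (List (ℕ × ℕ)) := [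
  [(0,124),(11,20),(75,84),(8,117),(95,116),(27,83),(83,27),(26,30),(26,28),(26,29),(8,119),(8,120),(30,77),(10,15),(2,18),(94,107),(0,125),(9,0),(19,35),(21,94),(2,19),(8,118),(73,71),(21,93)],
  [(8,112),(25,84),(31,28),(31,29),(120,123),(8,111),(10,6),(10,5),(0,110),(21,101),(27,69),(21,100),(124,1),(25,82),(0,111),(30,82),(0,112),(69,81),(75,68),(8,110),(79,82),(21,102),(10,4),(21,103)],
  [(69,73),(2,17),(25,78),(27,81),(30,69),(69,72),(0,114),(0,115),(27,78),(0,113),(8,121),(34,126),(21,89),(21,88),(25,77),(0,116),(10,8),(25,76),(21,86),(21,85),(21,87),(3,36),(69,71),(8,122)],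
  [(30,63),(13,36),(8,125),(10,14),(3,35),(27,66),(0,117),(25,65),(19,36),(27,61),(8,124),(10,9),(10,13),(9,1),(21,99),(21,98),(0,118),(25,62),(10,12),(17,22),(10,11),(79,77),(0,120),(0,119)],
  [(8,116),(25,74),(25,73),(31,26),(25,72),(80,63),(8,113),(27,74),(27,73),(0,121),(8,114),(8,115),(0,122),(73,62),(25,75),(26,26),(73,64),(30,72),(27,71),(20,3),(21,90),(0,123),(30,70),(69,66)],
  [(103,27),(8,97),(8,99),(8,98),(14,124),(77,2),(81,21),(25,90),(14,125),(30,116),(21,108),(31,35),(22,32),(20,0),(90,69),(30,113),(33,70),(3,33),(33,73),(94,70),(80,113),(33,74),(2,22),(33,72)],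
  [(8,89),(8,88),(25,102),(19,27),(19,26),(27,126),(82,0),(35,34),(1,105),(24,17),(14,111),(30,125),(25,100),(34,115),(25,101),(33,77),(93,24),(115,15),(76,9),(73,108),(8,85),(8,86),(31,36),(8,87)],
  [(24,18),(32,25),(10,3),(32,24),(3,32),(8,95),(69,95),(14,117),(94,84),(77,3),(34,118),(8,91),(1,107),(81,22),(8,96),(1,106),(14,120),(14,119),(8,93),(29,22),(33,84),(8,92),(8,94),(21,105)],
  [(8,104),(12,36),(19,29),(2,21),(19,30),(25,85),(18,31),(8,101),(18,29),(18,28),(8,100),(14,121),(30,111),(120,103),(1,109),(14,123),(25,88),(0,126),(8,103),(33,60),(8,102),(95,82),(115,9),(21,109)],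
  [(25,94),(10,2),(19,24),(25,93),(19,25),(8,90),(14,114),(14,115),(1,108),(14,113),(18,25),(25,96),(12,35),(80,111),(94,65),(14,116),(11,21),(34,123),(25,91),(15,21),(9,2),(21,107),(21,106),(90,62)],
  [(14,58),(90,126),(107,25),(1,56),(14,57),(1,55),(1,54),(27,90),(73,90),(118,122),(82,2),(1,53),(1,59),(22,34),(14,55),(1,57),(1,58),(117,15),(21,126),(100,9),(14,53),(100,10),(14,54),(3,23)],
  [(0,57),(73,93),(8,49),(0,58),(0,59),(8,47),(11,16),(34,79),(0,53),(27,104),(0,54),(1,50),(27,100),(103,35),(15,16),(33,114),(33,113),(73,96),(1,52),(0,56),(34,80),(1,51),(0,55),(118,117)],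
  [(74,33),(79,126),(101,14),(0,41),(26,33),(0,42),(14,49),(14,48),(1,40),(1,39),(8,51),(14,46),(75,95),(34,68),(0,38),(0,37),(27,97),(1,41),(0,40),(0,39),(8,50),(94,100),(14,43),(73,99)],
  [(0,48),(0,49),(0,47),(0,46),(8,57),(27,85),(34,63),(34,64),(77,14),(69,125),(34,62),(33,110),(0,44),(14,52),(0,45),(34,61),(27,88),(0,43),(69,124),(33,112),(8,53),(33,111),(8,54),(14,50)],
  [(8,41),(33,119),(8,42),(27,93),(27,92),(100,7),(33,118),(69,111),(94,87),(14,41),(8,38),(8,37),(8,39),(1,45),(1,43),(73,89),(0,50),(114,4),(1,49),(1,48),(14,40),(0,52),(0,51),(1,46)],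
  [(14,104),(0,81),(36,17),(25,116),(32,33),(91,11),(0,77),(14,101),(34,102),(27,116),(0,76),(26,35),(27,114),(0,79),(0,78),(21,48),(21,46),(17,16),(1,83),(13,33),(14,102),(8,109),(0,80),(21,44)],
  [(29,18),(21,52),(11,19),(73,122),(25,118),(21,51),(14,99),(1,71),(82,14),(0,82),(73,123),(1,70),(27,124),(0,84),(25,117),(30,99),(30,97),(0,83),(1,74),(12,33),(1,72),(29,19),(1,73),(11,18)],
  [(0,63),(0,64),(30,102),(1,67),(0,62),(32,32),(0,67),(34,90),(14,89),(0,65),(0,66),(25,125),(1,64),(0,61),(1,62),(21,59),(21,57),(0,60),(27,120),(8,105),(1,60),(21,54),(14,86),(1,61)],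
  [(13,32),(71,12),(1,81),(30,87),(0,69),(30,86),(12,32),(84,119),(11,17),(68,13),(1,80),(25,112),(27,111),(1,77),(1,76),(0,68),(14,91),(27,112),(1,79),(71,9),(79,97),(14,93),(1,78),(68,10)],
  [(79,86),(0,75),(8,106),(21,38),(34,96),(8,107),(30,95),(14,90),(34,95),(68,6),(21,39),(21,40),(1,68),(73,111),(71,5),(0,71),(0,70),(30,96),(0,73),(27,121),(1,69),(0,74),(34,91),(0,72)],
  [(15,17),(25,37),(20,15),(9,14),(21,120),(21,119),(0,98),(0,99),(34,53),(1,124),(34,54),(0,97),(9,13),(10,1),(30,38),(21,117),(25,42),(27,42),(1,125),(30,39),(9,11),(17,19),(25,39),(25,40)],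
  [(25,45),(0,104),(25,44),(3,25),(20,14),(10,0),(0,101),(33,42),(0,100),(1,121),(33,41),(84,96),(0,103),(20,10),(0,102),(20,9),(21,121),(29,16),(15,18),(20,13),(14,109),(1,123),(33,37),(8,126)],
  [(21,125),(73,126),(9,7),(17,17),(0,89),(0,88),(30,57),(97,12),(115,0),(30,58),(30,59),(34,42),(25,57),(27,46),(9,6),(0,87),(0,85),(0,86),(9,4),(79,124),(1,112),(25,55),(1,111),(25,56)],
  [(21,112),(0,90),(3,28),(3,29),(9,8),(3,31),(30,47),(30,46),(30,48),(30,49),(20,7),(24,16),(1,115),(1,114),(20,4),(33,57),(14,108),(1,113),(20,6),(20,5),(84,97),(94,124),(79,117),(1,116)],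
  [(3,26),(25,50),(75,110),(27,50),(0,95),(79,110),(14,107),(25,51),(0,96),(14,106),(1,120),(1,119),(75,111),(1,117),(27,52),(33,47),(33,49),(0,91),(21,113),(0,93),(0,94),(79,112),(21,114),(0,92)],
  [(80,42),(8,78),(12,26),(73,40),(69,38),(8,79),(33,95),(75,38),(69,42),(1,100),(8,77),(1,101),(73,42),(8,80),(0,109),(1,102),(17,20),(1,103),(21,69),(33,91),(1,104),(8,81),(22,28),(22,29)],
  [(21,74),(1,96),(13,26),(8,69),(21,73),(13,27),(14,77),(2,20),(1,91),(94,38),(14,76),(8,68),(95,39),(1,94),(1,92),(75,55),(90,39),(1,93),(22,25),(84,51),(21,75),(75,58),(1,95),(22,24)],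
  [(14,67),(73,43),(32,34),(8,62),(8,63),(8,64),(8,61),(14,64),(31,34),(8,60),(14,62),(34,106),(0,105),(73,47),(1,86),(1,85),(14,60),(35,29),(8,67),(75,46),(1,89),(1,88),(8,66),(33,98)],
  [(0,107),(3,34),(13,24),(0,106),(8,75),(25,109),(69,51),(8,73),(12,24),(8,72),(12,25),(8,74),(21,65),(14,68),(8,70),(21,66),(21,67),(8,71),(1,90),(30,108),(24,20),(21,62),(21,63),(21,64)],
  [(13,31),(73,54),(13,29),(13,28),(13,30),(21,78),(12,31),(8,84),(12,29),(12,28),(12,30),(8,83),(1,99),(1,98),(34,105),(1,97),(69,59),(0,108),(84,46),(14,74),(14,73),(21,76),(14,72),(69,56)],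
  [(18,2),(7,97),(7,99),(7,98),(6,91),(96,116),(6,96),(17,115),(52,27),(11,1),(8,22),(112,92),(58,79),(14,36),(49,69),(17,116),(3,126),(6,95),(6,92),(16,73),(58,76),(6,94),(6,93),(16,74)],
  [(7,89),(7,88),(33,11),(111,19),(59,29),(16,80),(16,76),(95,22),(52,25),(16,77),(33,14),(34,35),(6,89),(6,88),(16,81),(33,10),(56,72),(17,125),(6,86),(6,85),(6,87),(7,86),(10,105),(7,87)],
  [(58,75),(49,74),(12,3),(59,26),(49,72),(7,95),(16,62),(48,26),(16,64),(6,101),(10,108),(6,100),(16,66),(0,21),(6,104),(16,67),(16,65),(17,112),(1,35),(5,33),(16,61),(6,102),(7,94),(6,103)],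
  [(1,36),(89,103),(58,69),(94,12),(17,118),(11,0),(48,30),(6,97),(6,99),(6,98),(7,100),(33,7),(5,32),(52,31),(17,117),(112,103),(16,82),(52,28),(7,103),(16,83),(7,102),(58,68),(33,5),(0,22)],
  [(17,122),(12,2),(49,60),(55,63),(56,65),(7,90),(33,8),(16,69),(58,66),(49,66),(49,67),(18,3),(56,64),(17,121),(55,66),(118,4),(16,68),(14,35),(10,107),(58,61),(49,63),(10,106),(6,90),(49,62)],
  [(3,101),(16,106),(3,100),(7,117),(6,108),(109,11),(17,77),(3,104),(8,19),(109,13),(7,119),(4,8),(3,102),(12,15),(3,103),(11,14),(55,116),(58,116),(19,83),(11,11),(23,21),(7,118),(8,18),(58,113)],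
  [(7,112),(54,12),(4,6),(4,5),(54,11),(7,111),(4,7),(12,5),(11,6),(11,5),(3,89),(3,88),(32,77),(3,87),(12,7),(54,13),(3,86),(3,85),(19,74),(7,110),(19,72),(4,4),(12,4),(6,105)],
  [(16,105),(7,123),(4,13),(19,67),(17,62),(11,8),(3,98),(3,99),(4,10),(17,65),(4,9),(3,97),(19,64),(4,14),(19,62),(55,125),(12,8),(17,60),(10,126),(55,124),(19,60),(4,11),(89,71),(4,12)],
  [(8,17),(11,15),(7,125),(12,14),(17,69),(1,34),(12,10),(32,64),(50,1),(48,32),(7,124),(12,9),(12,13),(3,90),(19,76),(4,15),(32,60),(99,78),(12,12),(22,18),(12,11),(6,109),(19,78),(96,71)],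
  [(3,96),(17,75),(49,86),(49,85),(58,110),(55,110),(7,113),(23,22),(99,65),(89,62),(3,91),(7,115),(19,68),(16,108),(32,73),(17,71),(3,95),(109,5),(13,107),(3,94),(3,92),(13,106),(49,88),(3,93)],
  [(1,23),(36,34),(7,49),(7,48),(7,46),(7,47),(89,120),(3,58),(3,57),(16,114),(16,113),(3,59),(3,53),(13,59),(6,49),(6,48),(0,16),(3,54),(3,55),(7,44),(3,56),(6,45),(7,45),(6,44)],
  [(10,55),(6,52),(10,56),(34,29),(53,11),(6,51),(3,48),(3,49),(3,47),(3,46),(15,23),(13,51),(3,45),(10,59),(3,44),(19,106),(3,43),(10,57),(89,113),(6,50),(16,123),(10,53),(89,114),(89,115)],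
  [(52,33),(33,0),(86,1),(7,52),(7,51),(16,110),(6,55),(96,103),(6,56),(44,13),(32,118),(5,23),(6,58),(13,48),(10,49),(6,59),(6,57),(10,47),(7,50),(6,53),(13,43),(6,54),(13,44),(10,44)],
  [(96,95),(100,22),(85,1),(45,12),(18,14),(45,11),(3,38),(3,37),(18,11),(7,59),(7,57),(17,126),(7,55),(16,124),(7,56),(3,41),(32,112),(3,42),(7,53),(18,13),(89,124),(16,125),(3,40),(3,39)],
  [(34,27),(16,118),(6,37),(6,38),(7,38),(7,37),(7,41),(3,52),(7,42),(45,6),(6,39),(3,51),(13,37),(13,38),(7,39),(7,40),(16,117),(32,123),(6,41),(10,42),(6,42),(3,50),(10,41),(13,41)],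
  [(10,96),(16,39),(32,102),(15,34),(3,125),(19,53),(86,8),(8,20),(3,124),(13,101),(10,91),(7,108),(32,100),(19,57),(13,104),(49,107),(10,95),(19,58),(6,126),(10,94),(10,92),(13,102),(14,33),(10,93)],
  [(13,96),(104,107),(14,32),(1,27),(1,26),(17,42),(3,117),(32,90),(19,40),(10,101),(13,91),(10,100),(123,27),(125,74),(9,17),(17,37),(3,118),(19,41),(16,51),(13,94),(13,92),(7,109),(3,120),(3,119)],
  [(17,57),(56,122),(112,79),(17,58),(17,59),(43,11),(98,33),(126,13),(3,111),(43,13),(3,112),(19,50),(10,89),(10,88),(3,110),(13,88),(56,123),(32,97),(10,86),(10,85),(10,87),(7,105),(17,55),(43,10)],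
  [(1,31),(17,46),(1,29),(1,28),(1,30),(16,53),(17,44),(32,87),(17,45),(3,116),(4,0),(16,55),(3,114),(3,115),(10,99),(3,113),(32,89),(16,58),(99,97),(58,108),(46,20),(9,18),(87,10),(99,98)],
  [(5,35),(16,43),(1,24),(16,44),(1,25),(16,45),(32,94),(19,45),(7,106),(3,123),(17,50),(7,107),(16,46),(16,47),(32,95),(43,7),(16,48),(3,121),(13,90),(3,122),(10,90),(19,46),(112,67),(17,52)],
  [(46,21),(99,122),(4,3),(3,84),(3,83),(6,120),(32,57),(3,82),(51,21),(6,117),(32,59),(10,121),(0,18),(19,124),(17,98),(10,123),(17,97),(43,2),(0,19),(6,118),(34,23),(19,125),(104,97),(7,126)],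
  [(104,90),(0,17),(20,36),(14,34),(96,106),(50,11),(122,1),(3,68),(125,95),(32,41),(6,121),(10,124),(10,125),(12,1),(50,14),(13,123),(3,69),(19,113),(13,122),(56,100),(32,40),(23,16),(15,33),(6,122)],
  [(6,112),(3,65),(3,67),(17,104),(56,92),(3,66),(17,103),(51,22),(17,102),(3,61),(3,60),(56,96),(3,63),(3,64),(13,112),(19,121),(3,62),(10,111),(18,1),(6,110),(58,101),(96,108),(13,110),(10,110)],
  [(6,125),(55,103),(58,94),(3,81),(10,120),(9,22),(11,3),(3,79),(3,78),(17,87),(13,120),(13,119),(3,77),(13,117),(32,47),(10,117),(3,76),(58,96),(10,118),(58,91),(3,80),(56,99),(19,112),(99,117)],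
  [(17,95),(16,126),(6,116),(55,86),(58,85),(55,87),(3,74),(17,93),(3,72),(4,2),(3,73),(17,92),(3,71),(13,114),(10,115),(3,70),(6,114),(6,115),(3,75),(99,112),(9,21),(17,91),(10,116),(13,116)],
  [(15,29),(15,28),(15,31),(7,69),(36,29),(15,30),(10,71),(55,39),(6,68),(10,70),(16,90),(0,20),(10,74),(1,33),(5,24),(56,42),(5,25),(49,40),(56,37),(6,69),(58,38),(58,37),(49,42),(19,104)],
  [(6,72),(7,78),(6,74),(14,30),(14,31),(6,73),(13,71),(6,70),(6,71),(7,76),(3,108),(32,106),(5,26),(7,80),(13,72),(89,40),(5,27),(56,58),(19,90),(13,75),(49,48),(7,81),(6,75),(16,96)],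
  [(6,60),(13,66),(13,65),(7,60),(6,61),(13,67),(36,27),(10,66),(10,65),(7,62),(7,63),(7,64),(6,65),(48,23),(13,60),(6,66),(6,67),(13,61),(10,62),(7,65),(7,67),(6,62),(3,105),(6,64)],
  [(6,83),(7,73),(55,54),(7,72),(6,84),(7,74),(17,105),(15,27),(19,86),(19,85),(7,75),(15,26),(6,82),(91,16),(10,68),(16,89),(7,71),(55,55),(10,69),(96,56),(13,69),(99,47),(3,109),(19,88)],
  [(1,32),(7,84),(13,81),(6,78),(6,79),(7,83),(55,46),(6,80),(10,81),(15,24),(13,80),(46,16),(10,76),(7,82),(13,76),(6,76),(6,77),(16,104),(5,30),(3,107),(10,79),(5,31),(5,28),(3,106)],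
  [(2,117),(57,31),(57,30),(76,107),(11,121),(4,91),(35,3),(11,123),(7,19),(29,116),(83,2),(4,95),(1,15),(29,115),(15,125),(9,34),(21,8),(2,118),(0,36),(4,92),(4,93),(54,71),(2,119),(2,120)],
  [(40,73),(23,75),(2,111),(40,74),(2,112),(40,72),(4,89),(4,88),(1,4),(36,123),(54,81),(11,111),(2,110),(39,26),(15,112),(21,15),(1,7),(36,121),(1,5),(1,6),(59,76),(11,110),(4,87),(23,72)],
  [(21,6),(21,5),(13,3),(64,93),(2,125),(11,120),(40,80),(4,97),(2,124),(4,98),(36,120),(15,121),(21,7),(36,117),(29,117),(15,123),(39,28),(0,35),(12,126),(11,118),(36,118),(23,83),(27,36),(21,4)],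
  [(7,17),(2,116),(23,64),(10,34),(56,24),(1,14),(54,69),(1,10),(2,114),(1,9),(110,17),(4,100),(1,12),(23,67),(1,11),(79,13),(15,120),(15,119),(1,13),(59,68),(62,101),(4,102),(15,118),(4,103)],
  [(23,69),(2,123),(40,61),(62,86),(66,85),(59,65),(15,115),(15,114),(11,113),(54,63),(2,121),(11,114),(54,66),(14,21),(11,116),(40,62),(4,90),(35,2),(36,115),(29,121),(54,61),(15,116),(1,8),(2,122)],
  [(2,98),(2,99),(28,28),(28,29),(63,24),(2,97),(76,73),(29,79),(5,3),(76,74),(7,22),(31,83),(29,77),(13,15),(23,115),(23,114),(23,113),(6,8),(64,68),(11,109),(29,80),(66,68),(23,116),(62,68)],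
  [(6,6),(6,5),(16,12),(27,24),(2,89),(2,88),(13,6),(13,5),(31,78),(16,10),(71,24),(29,83),(6,7),(23,121),(13,7),(2,87),(2,85),(2,86),(64,82),(11,105),(31,80),(4,105),(12,105),(6,4)],
  [(1,2),(2,104),(27,28),(27,29),(29,69),(27,31),(2,101),(28,25),(2,100),(28,24),(12,108),(11,108),(2,103),(23,124),(2,102),(6,15),(13,8),(122,106),(62,70),(64,70),(40,97),(4,109),(16,5),(16,6)],
  [(29,63),(10,36),(6,13),(2,90),(29,62),(23,110),(13,10),(31,64),(6,10),(29,65),(6,9),(13,9),(13,13),(6,14),(71,30),(31,61),(31,60),(29,60),(13,12),(23,111),(12,109),(6,11),(40,101),(6,12)],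
  [(11,106),(27,26),(27,27),(62,60),(1,3),(2,95),(23,120),(16,8),(66,63),(28,26),(62,63),(2,91),(10,35),(31,74),(2,96),(5,2),(31,72),(4,107),(2,93),(31,71),(62,67),(2,92),(2,94),(31,70)],
  [(12,55),(64,126),(12,56),(23,106),(27,33),(78,11),(62,120),(62,119),(4,49),(4,48),(4,46),(4,47),(31,124),(12,59),(12,58),(57,35),(54,116),(12,57),(59,115),(4,43),(0,23),(4,44),(28,36),(4,45)],
  [(2,48),(2,49),(2,47),(2,46),(4,51),(10,23),(15,56),(12,52),(15,55),(11,52),(11,51),(12,51),(2,44),(31,115),(2,45),(31,113),(54,123),(2,43),(4,50),(40,108),(11,50),(12,50),(15,53),(62,115)],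
  [(76,120),(2,58),(2,57),(11,48),(11,46),(2,59),(26,18),(35,1),(56,34),(62,122),(31,118),(29,126),(12,49),(12,48),(2,53),(15,52),(2,54),(12,46),(2,56),(11,44),(2,55),(11,43),(11,45),(76,117)],
  [(15,49),(2,41),(11,58),(38,12),(2,42),(11,57),(4,55),(16,0),(2,38),(2,37),(107,78),(111,15),(4,58),(59,119),(31,111),(4,59),(4,57),(63,36),(2,39),(2,40),(11,54),(4,54),(11,53),(15,43)],
  [(11,42),(36,107),(11,41),(15,42),(4,37),(4,38),(11,39),(11,40),(4,39),(2,52),(2,51),(12,39),(4,41),(12,38),(4,42),(76,111),(11,38),(11,37),(59,111),(23,108),(2,50),(12,42),(105,67),(12,41)],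
  [(30,18),(76,93),(6,3),(66,126),(4,119),(4,120),(34,18),(11,97),(11,99),(4,117),(83,15),(12,100),(14,19),(36,98),(12,104),(29,99),(5,8),(76,96),(14,18),(4,118),(15,109),(12,102),(40,114),(12,103)],
  [(0,28),(0,29),(36,104),(0,30),(0,31),(11,95),(40,120),(7,20),(57,34),(38,3),(4,121),(11,91),(9,32),(36,101),(11,96),(5,15),(12,95),(2,126),(11,93),(10,33),(12,92),(11,92),(11,94),(4,122)],
  [(4,112),(5,5),(83,14),(29,104),(36,95),(4,111),(29,103),(81,103),(29,102),(60,12),(28,33),(60,11),(5,7),(31,99),(12,89),(12,88),(37,15),(31,97),(12,87),(4,110),(11,85),(11,86),(35,11),(5,4)],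
  [(4,125),(0,25),(11,104),(0,24),(29,88),(29,89),(10,32),(5,14),(52,14),(29,87),(29,85),(29,86),(12,99),(11,101),(5,10),(12,97),(4,124),(15,108),(9,33),(11,103),(41,20),(5,12),(11,102),(5,11)],
  [(15,107),(0,27),(4,116),(15,106),(11,90),(0,26),(31,94),(29,93),(29,94),(6,2),(31,92),(29,92),(4,113),(60,7),(31,95),(52,6),(4,114),(4,115),(12,90),(83,6),(31,91),(29,91),(74,7),(52,7)],
  [(2,78),(21,1),(16,2),(2,79),(23,41),(13,0),(15,99),(15,98),(2,77),(14,20),(31,59),(2,76),(12,125),(64,119),(79,1),(2,81),(0,33),(30,16),(4,126),(1,1),(64,117),(31,56),(23,38),(23,37)],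
  [(15,104),(9,36),(36,58),(1,0),(0,32),(2,69),(36,56),(15,101),(36,55),(2,68),(15,100),(12,121),(31,38),(13,1),(29,38),(12,123),(5,0),(54,96),(12,122),(29,39),(15,102),(31,39),(36,53),(51,10)],
  [(29,57),(70,22),(2,63),(2,64),(21,0),(2,62),(51,8),(2,61),(29,53),(53,19),(29,54),(2,60),(2,67),(72,3),(12,112),(2,65),(2,66),(61,15),(23,51),(29,56),(20,21),(15,87),(12,110),(15,86)],
  [(29,47),(5,1),(23,54),(29,49),(15,95),(36,46),(29,44),(2,84),(15,96),(56,32),(6,0),(2,83),(31,48),(12,117),(31,47),(2,82),(26,16),(15,91),(36,44),(15,93),(12,118),(11,126),(54,101),(15,92)],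
  [(54,85),(15,90),(61,5),(20,22),(2,75),(36,41),(23,46),(2,73),(107,111),(2,72),(23,48),(2,74),(12,115),(12,114),(2,70),(54,89),(51,5),(2,71),(31,52),(9,35),(29,51),(31,51),(122,110),(12,116)],
  [(15,81),(54,39),(10,26),(11,80),(29,109),(10,27),(62,46),(11,76),(12,82),(40,40),(4,68),(11,77),(12,83),(4,69),(40,42),(11,78),(11,79),(105,48),(59,38),(9,27),(11,81),(2,109),(30,20),(9,26)],
  [(64,37),(4,72),(59,54),(4,73),(4,74),(0,34),(4,70),(31,107),(11,70),(12,70),(4,71),(2,108),(12,74),(11,73),(12,72),(11,72),(4,75),(11,74),(9,31),(12,75),(9,29),(9,28),(9,30),(15,83)],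
  [(15,64),(4,60),(4,61),(81,58),(11,64),(11,63),(23,95),(15,67),(15,66),(64,54),(31,109),(15,65),(11,61),(64,55),(12,60),(4,62),(4,63),(4,64),(4,65),(2,105),(11,66),(4,66),(4,67),(11,65)],
  [(54,54),(11,69),(27,34),(4,78),(4,79),(54,53),(62,50),(4,80),(10,24),(54,56),(10,25),(23,104),(12,68),(54,57),(54,59),(4,76),(4,77),(11,68),(15,73),(59,51),(9,25),(15,74),(9,24),(4,81)],
  [(4,83),(20,19),(2,106),(23,86),(4,84),(2,107),(10,31),(36,67),(10,29),(10,28),(10,30),(36,65),(4,82),(12,77),(12,76),(15,68),(54,48),(11,82),(11,84),(36,61),(81,51),(11,83),(12,78),(36,60)],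
  [(44,73),(45,74),(45,73),(44,74),(36,0),(25,35),(47,80),(79,35),(37,25),(28,116),(37,24),(30,35),(28,114),(28,115),(45,75),(28,113),(46,28),(41,24),(44,70),(45,70),(38,68),(47,76),(44,71),(78,114)],
  [(19,2),(38,74),(38,73),(62,18),(38,72),(58,28),(44,69),(36,1),(37,27),(62,19),(53,81),(28,125),(22,3),(98,107),(38,75),(41,31),(41,28),(41,29),(48,68),(38,70),(33,21),(53,77),(30,36),(47,68)],
  [(44,80),(38,83),(38,84),(58,26),(28,118),(124,106),(47,73),(45,83),(44,79),(47,74),(48,72),(44,78),(46,27),(41,26),(28,117),(46,26),(44,81),(57,72),(28,120),(28,119),(45,82),(48,70),(25,36),(44,77)],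
  [(45,80),(102,119),(28,110),(49,31),(49,28),(38,78),(38,80),(44,83),(44,84),(21,36),(48,78),(45,78),(28,111),(87,32),(48,80),(37,31),(37,28),(28,112),(48,77),(45,76),(44,82),(38,76),(38,77),(45,77)],
  [(21,35),(28,122),(57,62),(47,62),(38,61),(19,3),(18,126),(44,60),(44,61),(47,60),(45,61),(48,61),(38,65),(44,62),(45,65),(38,66),(28,123),(44,63),(47,67),(28,121),(44,65),(38,62),(22,2),(38,64)],
  [(78,80),(29,30),(29,28),(28,81),(47,116),(29,31),(65,25),(24,30),(24,28),(24,29),(44,106),(24,31),(28,77),(116,32),(19,15),(45,107),(22,0),(57,116),(47,113),(21,33),(17,36),(77,70),(16,21),(47,115)],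
  [(38,94),(25,25),(30,28),(25,24),(38,92),(30,31),(47,120),(24,25),(55,14),(24,24),(56,15),(28,83),(18,107),(61,26),(61,27),(18,106),(100,116),(17,35),(38,91),(44,108),(23,1),(55,10),(47,117),(78,71)],
  [(37,33),(25,30),(25,28),(25,29),(28,69),(25,31),(35,19),(23,0),(18,105),(29,24),(47,123),(67,81),(61,30),(100,125),(63,75),(28,68),(19,7),(38,104),(19,5),(19,6),(43,20),(32,22),(38,101),(67,76)],
  [(21,32),(28,64),(41,33),(90,32),(19,14),(45,109),(19,12),(22,1),(18,109),(28,65),(28,66),(63,81),(56,8),(19,10),(65,27),(19,9),(49,36),(28,60),(47,124),(19,13),(38,97),(77,77),(38,98),(38,99)],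
  [(28,75),(25,26),(25,27),(30,26),(57,110),(45,105),(16,22),(47,111),(67,67),(29,26),(36,2),(55,7),(24,27),(111,110),(18,108),(24,26),(77,61),(28,72),(57,111),(78,67),(19,8),(28,71),(28,70),(55,6)],
  [(17,28),(17,29),(47,90),(17,30),(17,31),(78,109),(36,13),(62,22),(44,90),(69,19),(18,82),(24,32),(36,10),(66,22),(45,90),(38,107),(38,106),(36,9),(18,83),(36,12),(53,115),(53,114),(18,84),(101,70)],
  [(23,12),(44,93),(23,11),(36,15),(45,92),(44,92),(40,8),(18,71),(76,21),(81,35),(16,20),(18,70),(45,95),(18,75),(55,1),(23,10),(53,123),(44,96),(18,74),(44,91),(18,72),(23,13),(18,73),(47,99)],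
  [(18,66),(47,93),(47,94),(18,67),(18,65),(25,32),(47,95),(77,126),(23,15),(40,13),(24,33),(28,126),(18,64),(18,63),(18,62),(35,20),(103,78),(45,104),(40,9),(45,100),(18,60),(31,22),(44,98),(18,61)],
  [(23,4),(21,34),(18,81),(44,103),(47,102),(38,109),(53,120),(17,25),(99,30),(17,24),(18,80),(23,7),(87,30),(18,77),(18,76),(36,5),(40,15),(43,17),(18,79),(44,100),(45,97),(48,99),(18,78),(23,6)],
  [(44,85),(44,86),(45,87),(40,4),(44,87),(38,105),(23,8),(17,27),(47,88),(47,89),(40,5),(17,26),(18,68),(102,67),(44,88),(40,7),(98,61),(102,65),(98,62),(53,111),(18,69),(45,89),(48,88),(48,89)],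
  [(77,94),(37,35),(67,118),(18,56),(30,33),(18,55),(18,54),(60,22),(23,2),(31,17),(44,116),(18,53),(18,59),(48,107),(28,98),(18,57),(18,58),(48,106),(63,108),(114,70),(44,113),(101,121),(24,36),(44,114)],
  [(110,73),(28,90),(60,21),(44,122),(57,109),(47,109),(32,18),(68,35),(110,75),(98,103),(44,123),(18,50),(83,21),(82,35),(46,34),(63,107),(63,106),(103,123),(18,52),(32,19),(17,23),(16,16),(110,71),(98,101)],
  [(44,118),(45,126),(86,21),(28,104),(82,36),(30,32),(28,103),(43,22),(18,40),(18,39),(29,33),(77,102),(28,101),(113,31),(28,100),(18,42),(77,104),(18,41),(18,37),(18,38),(67,124),(77,100),(44,117),(77,101)],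
  [(90,34),(53,126),(101,120),(79,32),(28,88),(28,89),(124,69),(78,103),(39,1),(28,87),(28,85),(28,86),(40,0),(100,126),(103,118),(44,125),(37,36),(115,28),(77,97),(44,124),(42,20),(98,98),(77,99),(77,98)],
  [(28,95),(47,105),(78,88),(44,110),(48,105),(67,112),(35,21),(28,93),(28,94),(78,86),(111,63),(28,92),(98,86),(18,45),(18,43),(23,3),(18,44),(101,110),(18,49),(18,48),(103,112),(28,91),(18,47),(18,46)],
  [(42,21),(19,0),(63,118),(22,15),(38,116),(17,32),(101,94),(98,122),(53,90),(46,35),(45,116),(40,2),(63,120),(63,119),(101,95),(18,124),(77,123),(83,17),(30,23),(18,125),(45,113),(48,113),(38,114),(38,115)],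
  [(38,118),(22,14),(53,94),(28,41),(80,2),(28,42),(18,122),(38,119),(102,94),(40,3),(17,33),(59,17),(22,10),(42,22),(28,38),(18,121),(32,16),(22,9),(19,1),(22,12),(57,98),(57,99),(22,11),(18,123)],
  [(28,57),(44,126),(48,118),(28,58),(28,59),(113,36),(45,120),(45,119),(28,53),(54,19),(22,8),(57,104),(18,115),(18,114),(97,21),(59,19),(31,16),(18,113),(38,121),(28,56),(29,23),(77,124),(28,55),(18,116)],
  [(28,47),(28,46),(28,48),(28,49),(63,123),(39,11),(28,44),(83,18),(22,7),(38,125),(100,104),(28,43),(22,6),(22,5),(39,14),(45,125),(18,110),(53,104),(38,124),(45,124),(18,112),(98,117),(18,111),(39,10)],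
  [(53,85),(38,110),(48,110),(45,110),(53,87),(39,4),(63,110),(38,111),(18,120),(18,119),(28,50),(57,89),(48,111),(45,111),(18,118),(45,112),(100,87),(48,112),(98,112),(18,117),(28,51),(39,7),(124,87),(28,52)],
  [(47,41),(53,39),(38,37),(33,19),(17,34),(45,40),(48,37),(48,38),(29,34),(18,102),(38,39),(18,103),(44,42),(47,40),(24,34),(18,100),(48,40),(18,101),(38,41),(63,46),(38,42),(48,41),(18,104),(48,42)],
  [(38,43),(28,107),(21,24),(18,96),(21,25),(16,18),(44,51),(18,94),(18,92),(98,53),(44,52),(16,19),(58,23),(49,23),(18,91),(48,55),(63,39),(48,56),(38,46),(38,47),(18,95),(48,58),(38,48),(32,20)],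
  [(21,26),(38,50),(30,34),(44,44),(21,27),(44,45),(47,46),(38,51),(38,52),(63,54),(47,48),(47,49),(44,46),(44,47),(67,57),(57,56),(44,48),(44,49),(18,90),(45,47),(48,48),(48,49),(45,48),(31,20)],
  [(53,54),(38,53),(25,34),(38,54),(33,17),(53,53),(77,43),(63,50),(110,39),(45,55),(78,45),(45,56),(18,87),(37,23),(18,86),(18,85),(47,52),(38,56),(38,57),(45,57),(18,89),(18,88),(38,59),(45,58)],
  [(21,30),(44,54),(47,53),(21,31),(21,28),(21,29),(28,105),(57,46),(57,48),(44,55),(47,59),(16,17),(53,46),(53,47),(103,43),(61,23),(53,48),(53,49),(18,99),(18,98),(44,59),(18,97),(101,46),(44,58)],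
  [(23,31),(25,21),(8,13),(23,28),(23,30),(15,0),(53,27),(27,21),(8,10),(5,101),(8,9),(5,100),(37,69),(8,14),(5,104),(24,115),(51,29),(51,28),(43,70),(6,33),(37,68),(5,102),(43,71),(5,103)],
  [(5,96),(37,74),(4,19),(72,122),(24,118),(8,8),(43,69),(38,26),(38,27),(105,18),(5,91),(53,28),(51,27),(15,1),(24,117),(51,26),(5,95),(50,28),(24,120),(5,94),(5,92),(52,70),(43,68),(4,18)],
  [(8,7),(37,83),(33,36),(55,26),(65,102),(26,126),(72,120),(23,27),(8,6),(8,5),(54,29),(23,26),(24,124),(85,32),(5,89),(5,88),(43,81),(51,24),(5,87),(8,4),(5,86),(5,85),(60,98),(43,77)],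
  [(6,32),(65,93),(37,79),(8,15),(52,81),(37,78),(24,111),(43,83),(4,17),(61,19),(54,24),(24,112),(5,99),(5,98),(45,30),(5,97),(38,28),(37,81),(87,97),(52,77),(43,82),(37,76),(37,77),(86,101)],
  [(37,60),(52,66),(52,65),(24,122),(37,61),(52,67),(23,25),(43,60),(43,61),(92,110),(24,123),(23,24),(37,65),(43,62),(52,60),(37,66),(37,67),(43,63),(5,90),(43,66),(43,65),(37,62),(37,63),(37,64)],
  [(66,25),(24,79),(24,78),(8,1),(2,32),(7,8),(60,69),(26,84),(35,104),(24,81),(43,106),(26,83),(56,21),(83,83),(24,77),(26,82),(72,81),(24,76),(5,126),(68,70),(68,71),(35,103),(60,68),(35,102)],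
  [(37,94),(58,12),(7,13),(26,81),(24,69),(60,72),(57,0),(4,20),(7,10),(40,19),(7,9),(37,96),(26,77),(7,14),(50,34),(24,68),(2,33),(39,17),(35,94),(43,108),(26,80),(7,11),(35,92),(3,22)],
  [(38,33),(52,126),(7,6),(7,5),(33,34),(37,102),(7,7),(24,84),(47,1),(66,31),(26,69),(24,83),(35,99),(26,68),(57,1),(24,82),(49,15),(37,104),(74,68),(37,100),(44,20),(7,4),(37,101),(72,68)],
  [(26,67),(39,18),(24,63),(24,64),(8,0),(24,62),(15,3),(3,21),(46,1),(6,36),(26,62),(24,60),(24,67),(56,22),(35,89),(24,65),(24,66),(71,78),(35,87),(68,76),(35,86),(35,85),(37,98),(37,99)],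
  [(6,35),(37,85),(24,75),(43,105),(72,64),(49,4),(24,73),(71,66),(15,2),(24,74),(68,61),(24,72),(35,90),(26,74),(26,73),(60,62),(26,72),(60,64),(60,65),(26,71),(24,70),(37,89),(58,5),(24,71)],
  [(25,18),(3,17),(40,21),(15,14),(4,22),(72,109),(15,10),(102,31),(43,90),(63,3),(5,108),(15,9),(15,13),(52,107),(24,98),(24,99),(24,97),(42,2),(15,12),(60,108),(15,11),(2,36),(84,20),(91,71)],
  [(86,73),(15,15),(43,94),(7,1),(72,106),(33,26),(43,95),(40,22),(23,36),(26,116),(59,15),(63,2),(3,18),(26,115),(51,34),(26,113),(35,108),(43,96),(3,19),(43,91),(65,114),(65,115),(82,113),(91,77)],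
  [(33,31),(59,12),(15,7),(24,104),(33,30),(86,78),(24,103),(71,126),(24,102),(44,19),(26,118),(60,109),(24,101),(82,125),(15,6),(15,5),(68,104),(64,15),(15,4),(59,9),(26,120),(26,119),(35,109),(5,105)],
  [(82,120),(82,119),(86,84),(43,103),(15,8),(24,89),(82,118),(6,34),(26,110),(24,87),(7,0),(2,35),(59,8),(91,83),(26,111),(45,32),(26,112),(43,104),(61,20),(43,100),(64,9),(87,76),(35,105),(5,109)],
  [(24,95),(43,86),(33,25),(64,6),(4,21),(37,105),(65,110),(24,93),(24,94),(60,105),(74,105),(24,92),(87,65),(35,107),(43,88),(43,89),(24,96),(26,123),(68,88),(64,7),(59,5),(5,107),(5,106),(87,64)],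
  [(26,103),(38,35),(26,102),(65,126),(58,2),(49,2),(60,120),(45,35),(44,21),(26,104),(43,116),(71,96),(5,49),(5,48),(26,101),(83,125),(5,47),(5,46),(71,91),(5,45),(5,43),(27,19),(5,44),(43,114)],
  [(67,21),(37,126),(72,90),(43,122),(57,11),(47,11),(5,55),(26,90),(5,56),(47,13),(3,16),(6,23),(5,58),(35,117),(47,14),(5,59),(5,57),(52,104),(43,121),(5,53),(35,118),(5,54),(52,101),(47,10)],
  [(4,16),(5,52),(62,1),(27,17),(52,92),(5,51),(43,120),(43,119),(55,34),(35,123),(53,36),(24,126),(26,98),(26,99),(59,1),(46,3),(71,104),(26,97),(52,91),(5,50),(40,20),(71,100),(2,23),(71,101)],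
  [(50,33),(48,12),(51,33),(60,125),(48,11),(72,104),(57,8),(26,87),(35,112),(58,3),(26,86),(26,85),(63,14),(92,103),(62,0),(43,125),(26,89),(26,88),(71,97),(43,124),(35,110),(48,10),(52,97),(71,98)],
  [(5,37),(5,38),(52,86),(43,110),(48,4),(26,96),(26,94),(60,110),(71,87),(26,93),(26,92),(35,116),(91,85),(43,111),(26,95),(43,112),(5,39),(5,40),(35,114),(5,41),(26,91),(35,113),(5,42),(48,7)],
  [(7,3),(60,126),(26,53),(68,122),(26,54),(82,92),(26,57),(2,30),(2,28),(2,29),(5,120),(2,31),(35,58),(5,117),(75,1),(35,59),(35,57),(27,16),(37,113),(35,53),(5,118),(26,56),(37,114),(26,55)],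
  [(5,125),(24,41),(55,33),(46,12),(24,42),(46,11),(37,120),(2,25),(24,38),(2,24),(51,36),(26,42),(26,38),(26,37),(46,14),(52,125),(5,124),(35,46),(24,39),(24,40),(26,40),(26,39),(35,44),(46,10)],
  [(8,3),(24,46),(24,48),(5,123),(70,36),(41,11),(24,44),(35,52),(24,45),(41,13),(37,123),(24,43),(23,23),(71,125),(41,14),(47,3),(5,121),(74,123),(37,121),(52,121),(83,91),(5,122),(82,99),(41,10)],
  [(24,57),(71,119),(5,112),(24,58),(5,111),(42,11),(26,45),(103,19),(24,53),(37,125),(24,54),(82,102),(26,48),(26,49),(26,47),(26,46),(41,15),(88,11),(5,110),(24,56),(52,117),(68,124),(24,55),(42,10)],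
  [(88,5),(37,110),(126,65),(41,4),(8,2),(5,116),(35,37),(35,38),(24,50),(37,112),(41,5),(7,2),(2,27),(68,112),(24,51),(2,26),(35,40),(24,52),(26,52),(5,113),(5,114),(5,115),(74,112),(35,42)],
  [(65,44),(35,83),(6,24),(37,38),(6,25),(24,109),(33,33),(2,34),(65,48),(65,49),(37,39),(37,40),(5,68),(52,38),(43,41),(73,16),(60,48),(60,49),(35,82),(74,57),(5,69),(52,42),(27,20),(52,41)],
  [(5,83),(52,54),(65,38),(24,107),(5,84),(37,44),(43,51),(26,107),(60,39),(23,32),(43,52),(26,106),(5,82),(74,38),(35,69),(3,20),(72,38),(72,37),(35,68),(37,47),(52,59),(65,40),(37,48),(37,49)],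
  [(5,74),(37,50),(5,72),(43,44),(5,73),(43,45),(6,26),(35,74),(35,73),(40,16),(6,27),(68,44),(35,75),(5,70),(5,71),(74,51),(43,48),(43,49),(35,71),(126,45),(5,75),(24,108),(68,49),(68,48)],
  [(72,46),(33,32),(5,60),(37,54),(52,44),(5,61),(5,65),(45,23),(74,43),(5,66),(5,67),(65,54),(82,59),(38,23),(35,80),(37,55),(82,58),(37,56),(35,77),(52,46),(5,63),(5,64),(35,76),(5,62)],
  [(5,79),(43,54),(72,59),(35,66),(5,78),(72,58),(6,30),(24,105),(26,105),(6,31),(6,28),(5,81),(5,80),(60,55),(82,46),(82,47),(60,56),(82,48),(35,63),(35,64),(5,77),(83,46),(35,62),(5,76)],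
  [(46,79),(14,15),(6,19),(69,35),(40,24),(21,22),(47,30),(44,26),(42,69),(10,20),(47,28),(46,81),(46,80),(43,26),(5,17),(8,36),(51,81),(85,96),(39,68),(42,68),(9,109),(41,68),(7,33),(6,18)],
  [(41,79),(16,27),(7,32),(14,14),(41,78),(16,26),(14,10),(97,107),(20,109),(51,74),(44,24),(14,9),(14,13),(123,122),(43,25),(64,19),(43,24),(113,109),(14,12),(4,33),(14,11),(22,126),(116,121),(41,76)],
  [(16,31),(39,74),(16,29),(16,28),(16,30),(61,102),(20,107),(40,26),(14,7),(20,106),(97,109),(42,81),(14,6),(14,5),(39,75),(60,32),(43,29),(43,28),(9,105),(39,70),(14,4),(46,82),(50,68),(42,76)],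
  [(39,79),(42,74),(6,17),(41,74),(39,78),(41,72),(4,32),(79,22),(41,75),(40,31),(14,8),(39,81),(39,80),(44,31),(20,105),(47,26),(44,29),(9,108),(1,21),(5,18),(39,77),(85,100),(41,71),(39,76)],
  [(9,107),(41,61),(16,25),(9,106),(16,24),(39,61),(39,65),(42,65),(41,63),(39,66),(39,67),(1,22),(46,67),(41,65),(41,67),(42,64),(46,66),(41,66),(50,66),(51,67),(39,63),(39,64),(20,108),(39,62)],
  [(21,19),(90,18),(70,75),(11,34),(6,22),(46,116),(42,90),(78,31),(78,30),(70,74),(51,116),(9,121),(39,90),(72,31),(60,25),(9,123),(22,124),(72,28),(9,122),(16,35),(46,114),(21,18),(51,115),(51,114)],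
  [(40,33),(42,103),(46,118),(39,103),(42,102),(39,102),(78,27),(106,103),(70,79),(12,20),(22,120),(9,124),(9,125),(22,117),(60,27),(7,36),(70,81),(39,104),(19,21),(39,100),(22,118),(41,99),(39,101),(70,77)],
  [(39,94),(41,103),(21,17),(38,18),(39,92),(69,29),(51,120),(51,119),(16,36),(22,123),(62,28),(39,96),(9,112),(116,103),(43,34),(60,31),(60,28),(9,111),(39,91),(22,122),(41,101),(42,99),(42,97),(9,110)],
  [(14,3),(41,93),(41,94),(37,18),(9,120),(9,119),(41,95),(4,34),(22,112),(37,19),(22,111),(13,22),(42,95),(70,83),(44,34),(9,117),(121,116),(38,17),(9,118),(41,91),(22,110),(39,99),(39,97),(106,91)],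
  [(39,87),(42,87),(14,2),(39,85),(6,21),(7,35),(46,111),(70,62),(119,112),(85,105),(41,88),(22,116),(61,65),(20,126),(9,115),(9,114),(9,113),(42,89),(13,21),(22,115),(10,21),(22,113),(9,116),(39,89)],
  [(46,90),(11,36),(22,104),(51,107),(51,106),(41,116),(20,122),(93,83),(78,34),(67,3),(50,116),(1,20),(91,27),(14,1),(72,34),(20,121),(22,100),(92,28),(61,108),(22,103),(41,114),(41,115),(8,33),(20,123)],
  [(64,21),(39,126),(8,32),(42,126),(95,28),(14,0),(111,34),(6,20),(85,75),(13,20),(50,123),(48,17),(22,99),(22,98),(86,27),(20,124),(61,106),(91,28),(50,121),(20,125),(41,117),(46,99),(46,97),(70,114)],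
  [(44,33),(46,103),(22,96),(45,18),(46,102),(85,78),(50,120),(50,119),(119,95),(41,125),(16,34),(46,104),(60,34),(121,126),(20,115),(20,114),(20,113),(62,36),(22,94),(51,108),(38,20),(22,93),(20,116),(70,117)],
  [(43,33),(46,93),(46,94),(41,122),(88,72),(46,92),(46,95),(89,26),(22,89),(4,36),(41,123),(12,22),(93,79),(5,20),(88,75),(44,32),(40,36),(20,110),(20,112),(9,126),(37,20),(70,124),(22,86),(20,111)],
  [(4,35),(51,105),(20,120),(20,119),(46,85),(46,86),(22,90),(88,65),(88,67),(66,4),(46,88),(41,112),(20,118),(50,111),(88,63),(50,112),(85,63),(85,64),(12,21),(93,63),(93,62),(11,35),(81,6),(81,5)],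
  [(73,33),(61,126),(38,21),(94,19),(106,78),(42,116),(48,21),(20,75),(45,21),(47,35),(78,36),(93,102),(67,8),(20,71),(88,120),(9,52),(8,23),(20,70),(88,117),(20,74),(1,16),(42,115),(9,50),(85,117)],
  [(6,16),(50,93),(42,118),(41,126),(85,123),(50,92),(50,95),(38,22),(70,90),(85,122),(81,2),(111,36),(10,16),(42,119),(13,16),(78,35),(20,82),(7,23),(39,108),(20,83),(20,84),(97,124),(22,109),(51,99)],
  [(9,56),(51,93),(9,55),(46,126),(20,80),(51,92),(51,95),(9,59),(9,58),(42,125),(11,23),(4,23),(20,76),(48,22),(12,16),(20,77),(22,108),(51,96),(9,54),(51,91),(20,79),(88,115),(50,98),(9,53)],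
  [(123,90),(51,103),(5,16),(42,122),(51,102),(39,109),(20,66),(74,18),(9,49),(9,48),(9,46),(9,47),(20,62),(74,19),(20,64),(20,63),(70,104),(50,104),(20,60),(9,43),(22,105),(9,44),(20,61),(9,45)],
  [(9,40),(9,39),(51,85),(51,86),(50,87),(39,105),(42,111),(9,42),(51,88),(18,22),(9,41),(22,106),(20,69),(70,89),(50,88),(50,89),(106,66),(97,110),(97,112),(67,7),(20,68),(93,88),(9,37),(9,38)],
  [(21,16),(87,22),(13,17),(22,59),(9,95),(39,116),(11,32),(43,35),(9,96),(41,107),(41,106),(5,22),(22,56),(93,125),(22,55),(42,107),(42,106),(9,91),(90,20),(9,93),(9,94),(39,115),(22,54),(9,92)],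
  [(10,19),(8,34),(39,118),(99,19),(20,55),(46,109),(13,19),(37,22),(68,21),(20,57),(20,58),(66,2),(20,54),(9,97),(9,99),(9,98),(97,104),(20,53),(42,108),(13,18),(39,117),(10,18),(19,16),(61,115)],
  [(113,80),(68,22),(87,21),(65,13),(61,123),(41,109),(12,19),(7,34),(9,104),(39,125),(22,47),(22,46),(65,14),(91,35),(67,0),(9,101),(77,17),(9,100),(22,45),(12,18),(11,33),(9,103),(22,43),(9,102)],
  [(120,27),(50,126),(20,40),(20,39),(106,106),(42,109),(9,89),(9,88),(78,33),(77,18),(39,123),(86,36),(62,34),(20,42),(93,118),(74,22),(20,41),(22,51),(9,85),(9,86),(18,16),(20,38),(9,87),(22,50)],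
  [(5,21),(46,105),(123,62),(41,105),(65,5),(42,105),(39,111),(61,110),(9,90),(22,41),(119,62),(22,42),(22,38),(22,37),(20,49),(20,48),(20,46),(20,47),(20,43),(97,88),(22,40),(20,45),(93,111),(20,44)],
  [(39,37),(7,25),(41,38),(7,24),(20,96),(19,17),(1,19),(41,41),(4,24),(11,28),(4,25),(85,45),(20,94),(42,41),(85,46),(9,71),(9,70),(39,40),(9,73),(1,18),(41,39),(9,74),(20,91),(9,72)],
  [(16,33),(8,30),(1,17),(8,29),(9,80),(8,31),(4,26),(11,27),(9,81),(41,49),(4,27),(11,26),(9,76),(19,19),(22,80),(9,77),(50,52),(20,102),(22,77),(39,46),(9,79),(20,101),(22,76),(9,78)],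
  [(42,53),(8,25),(46,45),(8,24),(85,37),(42,54),(46,47),(7,30),(7,28),(7,29),(93,40),(7,31),(42,57),(40,23),(85,42),(39,55),(9,82),(39,56),(39,57),(9,83),(9,84),(20,98),(39,59),(42,56)],
  [(41,53),(39,50),(46,53),(50,44),(46,54),(41,54),(9,62),(18,19),(9,64),(9,63),(46,59),(51,49),(9,66),(18,18),(20,90),(9,67),(9,65),(48,16),(47,23),(9,60),(9,61),(41,55),(93,47),(22,70)],
  [(8,27),(42,50),(46,50),(8,26),(22,66),(50,53),(9,69),(7,26),(7,27),(37,16),(22,62),(50,55),(4,30),(20,88),(50,59),(4,31),(4,28),(4,29),(20,86),(20,85),(20,87),(85,59),(9,68),(52,16)]]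


def enum : ℕ → List ℕ → List (List ℕ)
  | 0, _ => [[]]
  | n + 1, l => l.flatMap (fun a => (enum n (l.erase a)).map (fun t => a :: t))

theorem mem_enum : ∀ (n : ℕ) (l idx : List ℕ), idx.Perm l → l.length = n → idx ∈ enum n l := by
  intro n
  induction n with
  | zero =>
    intro l idx h hl
    have : l = [] := List.length_eq_zero_iff.mp hl
    subst this
    have : idx = [] := h.eq_nil
    subst this
    simp [enum]
  | succ n ih =>
    intro l idx h hl
    cases idx with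
    | nil =>
      have := h.length_eq
      simp at this
      omega
    | cons a t =>
      have h1 := List.cons_perm_iff_perm_erase.mp h
      have h2 := ih (l.erase a) t h1.2 (by rw [List.length_erase_of_mem h1.1]; omega)
      simp only [enum, List.mem_flatMap, List.mem_map]
      exact ⟨a, h1.1, t, h2, rfl⟩

def comp (x : ℕ × ℕ) : List ℕ := (perms.getD x.2 []).map (fun i => (perms.getD x.1 []).getD i 0)

def beqL : List ℕ → List ℕ → Bool
  | [], [] => true
  | a :: s, b :: t => (Nat.beq a b) && beqL s t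
  | _, _ => false

theorem beqL_eq : ∀ (s t : List ℕ), beqL s t = true → s = t := by
  intro s
  induction s with
  | nil => intro t h; cases t with
    | nil => rfl
    | cons b t => simp [beqL] at h
  | cons a s ih => intro t h; cases t with
    | nil => simp [beqL] at h
    | cons b t =>
      simp only [beqL, Bool.and_eq_true] at h
      rw [Nat.eq_of_beq_eq_true h.1, ih t h.2]

def chk : List (List ℕ) → List (ℕ × ℕ) → Bool
  | [], _ => true
  | x :: xs, c :: cs => (Nat.ble c.1 126) && (Nat.ble c.2 126) && beqL x (comp c) && chk xs cs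
  | _, _ => false

theorem chk_spec : ∀ (xs : List (List ℕ)) (cs : List (ℕ × ℕ)), chk xs cs = true →
    ∀ x ∈ xs, ∃ c : ℕ × ℕ, c.1 ≤ 126 ∧ c.2 ≤ 126 ∧ x = comp c := by
  intro xs
  induction xs with
  | nil => intro cs _ x hx; simp at hx
  | cons y ys ih =>
    intro cs h x hx
    cases cs with
    | nil => simp [chk] at h
    | cons c cs =>
      simp only [chk, Bool.and_eq_true] at h
      rcases List.mem_cons.mp hx with rfl | hx
      · exact ⟨c, Nat.le_of_ble_eq_true h.1.1.1, Nat.le_of_ble_eq_true h.1.1.2, beqL_eq _ _ h.1.2⟩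
      · exact ih cs h.2 x hx

def allP : List (List ℕ) :=
  [0, 1, 2, 3, 4, 5].flatMap (fun a => (enum 6 ((List.range 7).erase a)).map (fun t => a :: t))

theorem chk_all : chk allP cert.flatten = true := by decide +kernel

theorem perms_len : perms.length = 127 := by decide +kernel

theorem cover : ∀ idx : List ℕ, idx.Perm (List.range 7) → idx.head? ≠ some 6 →
    ∃ p ∈ perms, ∃ q ∈ perms, idx = q.map (fun i => p.getD i 0) := by
  intro idx h h6
  have hmem : idx ∈ allP := by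
    cases idx with
    | nil =>
      have := h.length_eq
      simp at this
    | cons a t =>
      have h1 := List.cons_perm_iff_perm_erase.mp h
      have h2 := mem_enum 6 ((List.range 7).erase a) t h1.2
        (by rw [List.length_erase_of_mem h1.1]; simp)
      have ha : a < 7 := List.mem_range.mp h1.1
      have ha6 : a ≠ 6 := by
        intro he; apply h6; simp [he]
      simp only [allP, List.mem_flatMap, List.mem_map]
      refine ⟨a, ?_, t, h2, rfl⟩
      have : a = 0 ∨ a = 1 ∨ a = 2 ∨ a = 3 ∨ a = 4 ∨ a = 5 := by omega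
      rcases this with rfl | rfl | rfl | rfl | rfl | rfl <;> simp
  obtain ⟨c, h1, h2, h3⟩ := chk_spec _ _ chk_all idx hmem
  have l1 : c.1 < perms.length := by rw [perms_len]; omega
  have l2 : c.2 < perms.length := by rw [perms_len]; omega
  refine ⟨perms.getD c.1 [], ?_, perms.getD c.2 [], ?_, h3⟩
  · rw [List.getD_eq_getElem _ _ l1]; exact List.getElem_mem l1
  · rw [List.getD_eq_getElem _ _ l2]; exact List.getElem_mem l2

end Pool.Agent.Helper605.FT
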