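import Mathlib
import Pool.Agent.Helper605.FT.A

set_option autoImplicit false

namespace Pool.Agent.Helper605.FT


theorem ft_exF (L : List ℕ) (hL : L.Nodup) (n : ℕ) (hn : L.length = n) :
    ∃ f : ℕ → ℕ, Function.Injective f ∧ (List.range n).map f = L ∧
      ∀ i < n, f i = L.getD i 0 := by
  subst hn
  refine ⟨fun i => if i < L.length then L.getD i 0 else L.sum + 1 + i, ?_, ?_, ?_⟩
  · intro i j hij
    simp only at hij
    have hle : ∀ k, k < L.length → L.getD k 0 ≤ L.sum := by
      intro k hk
      rw [List.getD_eq_getElem _ _ hk]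
      exact List.single_le_sum (by simp) _ (List.getElem_mem hk)
    split_ifs at hij with h1 h2 h2
    · rw [List.getD_eq_getElem _ _ h1, List.getD_eq_getElem _ _ h2] at hij
      exact (hL.getElem_inj_iff).1 hij
    · have := hle i h1
      omega
    · have := hle j h2
      omega
    · omega
  · apply List.ext_getElem
    · simp
    · intro k hk1 hk2
      simp only [List.getElem_map, List.getElem_range]
      rw [if_pos hk2, List.getD_eq_getElem _ _ hk2]
  · intro k hk
    simp only
    rw [if_pos hk]

theorem ft_exne (L : List ℕ) (hL : L.Nodup) (h2 : 2 ≤ L.length) (c : ℕ) : ∃ a ∈ L, a ≠ c := by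
  match L, hL, h2 with
  | a :: b :: L, hL, _ =>
    by_cases h : a = c
    · refine ⟨b, by simp, ?_⟩
      intro hb
      rw [List.nodup_cons] at hL
      apply hL.1
      rw [h, hb]
      simp
    · exact ⟨a, by simp, h⟩

/-- TARGET -/
theorem base8 (perms : List (List ℕ)) (hok : ∀ p ∈ perms, PV (List.range 7) p)
    (cover : ∀ idx : List ℕ, idx.Perm (List.range 7) → idx.head? ≠ some 6 →
      ∃ p ∈ perms, ∃ q ∈ perms, idx = q.map (fun i => p.getD i 0)) :
    ∀ (s' : List ℕ) (p x q : ℕ) (e' : List ℕ), (s' ++ [p, x]).length = 8 →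
      (s' ++ [p, x]).Nodup → (x :: q :: e').Perm (s' ++ [p, x]) → q ≠ p →
      PV (s' ++ [p, x]) (x :: q :: e') := by
  intro s' p x q e' hlen hnd hperm hqp
  have hsplit : s' ++ [p, x] = (s' ++ [p]) ++ [x] := by simp
  rw [hsplit] at hlen hnd hperm ⊢
  obtain ⟨s7, hs7⟩ : ∃ s7, s7 = s' ++ [p] := ⟨_, rfl⟩
  have hs'len : s'.length = 6 := by
    simp at hlen; omega
  rw [← hs7] at hlen hnd hperm ⊢
  have hl7 : s7.length = 7 := by
    simp at hlen; omega
  rw [List.nodup_append] at hnd
  have hn7 : s7.Nodup := hnd.1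
  have hx7 : x ∉ s7 := by
    intro hx
    exact hnd.2.2 x hx x (by simp) rfl
  have hp7 : (q :: e').Perm s7 := by
    have h1 : (x :: q :: e').Perm (x :: s7) :=
      hperm.trans (List.perm_append_comm (l₁ := s7) (l₂ := [x]))
    exact (List.perm_cons x).1 h1
  obtain ⟨f, hfinj, hfmap, hfget⟩ := ft_exF s7 hn7 7 hl7
  -- the index list
  have hidxs : s7.map (fun a => s7.idxOf a) = List.range 7 := by
    apply List.ext_getElem
    · simp [hl7]
    · intro k hk1 hk2
      simp only [List.getElem_map, List.getElem_range]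
      exact hn7.idxOf_getElem k _
  have hidx : ((q :: e').map (fun a => s7.idxOf a)).Perm (List.range 7) := by
    rw [← hidxs]
    exact hp7.map _
  have hq7 : q ∈ s7 := hp7.mem_iff.1 (by simp)
  have hhead : ((q :: e').map (fun a => s7.idxOf a)).head? ≠ some 6 := by
    simp only [List.map_cons, List.head?_cons, ne_eq, Option.some.injEq]
    intro h6
    apply hqp
    have h1 : s7.idxOf q < s7.length := List.idxOf_lt_length_iff.2 hq7
    have h2 : s7[s7.idxOf q] = q := List.getElem_idxOf h1
    have h3 : s7[s7.idxOf q] = p := by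
      have h4 : s7[6]'(by omega) = p := by
        subst hs7
        rw [List.getElem_append_right (by omega)]
        simp [hs'len]
      rw [← h4]
      congr 1
    rw [← h2, h3]
  obtain ⟨p1, hp1, q1, hq1, hcov⟩ := cover _ hidx hhead
  have hPV1 := hok p1 hp1
  have hPV2 := hok q1 hq1
  have hp1perm : p1.Perm (List.range 7) := by
    obtain ⟨π, hπ⟩ := hPV1
    exact hπ.perm
  have hq1perm : q1.Perm (List.range 7) := by
    obtain ⟨π, hπ⟩ := hPV2
    exact hπ.perm
  have hA : PV s7 (p1.map f) := by
    have := hPV1.relabel hfinj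
    rwa [hfmap] at this
  have hp1len : p1.length = 7 := by rw [hp1perm.length_eq]; simp
  have hmnd : (p1.map f).Nodup := (hp1perm.nodup_iff.2 List.nodup_range).map hfinj
  obtain ⟨g, hginj, hgmap, hgget⟩ := ft_exF (p1.map f) hmnd 7 (by simp [hp1len])
  have hB : PV (p1.map f) (q1.map g) := by
    have := hPV2.relabel hginj
    rwa [hgmap] at this
  have hq1g : q1.map g = q :: e' := by
    have h1 : q1.map g = (q1.map (fun i => p1.getD i 0)).map f := by
      rw [List.map_map]
      apply List.map_congr_left
      intro i hi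
      have hi7 : i < 7 := by
        have := hq1perm.mem_iff.1 hi
        simpa using this
      rw [hgget i hi7]
      simp only [Function.comp]
      rw [List.getD_eq_getElem _ _ (by simp [hp1len]; omega),
        List.getD_eq_getElem _ _ (by rw [hp1len]; exact hi7), List.getElem_map]
    rw [h1, ← hcov, List.map_map]
    conv_rhs => rw [← List.map_id (q :: e')]
    apply List.map_congr_left
    intro a ha
    have ha7 : a ∈ s7 := hp7.mem_iff.1 ha
    have hlt : s7.idxOf a < s7.length := List.idxOf_lt_length_iff.2 ha7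
    simp only [Function.comp, id]
    rw [hfget _ (by omega), List.getD_eq_getElem _ _ hlt]
    exact List.getElem_idxOf hlt
  rw [hq1g] at hB
  exact hA.merge hB hx7 (by intro h; rw [h] at hl7; simp at hl7)

/-- TARGET -/
theorem PV_flex (base : ∀ (s' : List ℕ) (p x q : ℕ) (e' : List ℕ), (s' ++ [p, x]).length = 8 →
      (s' ++ [p, x]).Nodup → (x :: q :: e').Perm (s' ++ [p, x]) → q ≠ p →
      PV (s' ++ [p, x]) (x :: q :: e')) :
    ∀ n, 8 ≤ n → ∀ (s' : List ℕ) (p x q : ℕ) (e' : List ℕ), (s' ++ [p, x]).length = n →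
      (s' ++ [p, x]).Nodup → (x :: q :: e').Perm (s' ++ [p, x]) → q ≠ p →
      PV (s' ++ [p, x]) (x :: q :: e') := by
  intro n hn
  induction n, hn using Nat.le_induction with
  | base => exact base
  | succ n hn ih =>
    intro s' p x q e' hlen hnd hperm hqp
    have hsplit : s' ++ [p, x] = (s' ++ [p]) ++ [x] := by simp
    have hs'len : s'.length + 1 = n := by
      simp at hlen; omega
    have hperm2 := hperm
    rw [hsplit] at hnd hperm ⊢
    have hnd0 := hnd
    rw [List.nodup_append] at hnd
    have hn7 : (s' ++ [p]).Nodup := hnd.1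
    have hx7 : x ∉ s' ++ [p] := by
      intro hx
      exact hnd.2.2 x hx x (by simp) rfl
    have hp7 : (q :: e').Perm (s' ++ [p]) := by
      have h1 : (x :: q :: e').Perm (x :: (s' ++ [p])) :=
        hperm.trans (List.perm_append_comm (l₁ := s' ++ [p]) (l₂ := [x]))
      exact (List.perm_cons x).1 h1
    have hqmem : q ∈ s' := by
      have : q ∈ s' ++ [p] := hp7.mem_iff.1 (by simp)
      rcases List.mem_append.1 this with h | h
      · exact h
      · simp at h; exact absurd h hqp
    have he'len : e'.length + 1 = n := by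
      have := hp7.length_eq
      simp at this
      omega
    -- decompositions
    obtain ⟨s'', p', rfl⟩ : ∃ s'' p', s' = s'' ++ [p'] := by
      rcases List.eq_nil_or_concat s' with h | ⟨l, a, h⟩
      · rw [h] at hs'len; simp at hs'len; omega
      · exact ⟨l, a, by simpa using h⟩
    obtain ⟨q2, e'', rfl⟩ : ∃ q2 e'', e' = q2 :: e'' := by
      cases e' with
      | nil => simp at he'len; omega
      | cons a l => exact ⟨a, l, rfl⟩
    have hns' : (s'' ++ [p']).Nodup := (List.nodup_append.1 hn7).1
    set S := s'' ++ [p'] with hS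
    have hnd1 : (S.erase q).Nodup := hns'.erase q
    have hlen1 : (S.erase q).length + 1 = S.length := by
      rw [List.length_erase_of_mem hqmem]
      have : 0 < S.length := List.length_pos_of_mem hqmem
      omega
    obtain ⟨m2, hm2, hm2p⟩ := ft_exne (S.erase q) hnd1 (by omega) p'
    have hnd2 : ((S.erase q).erase m2).Nodup := hnd1.erase m2
    have hlen2 : ((S.erase q).erase m2).length + 1 = (S.erase q).length := by
      rw [List.length_erase_of_mem hm2]
      have : 0 < (S.erase q).length := List.length_pos_of_mem hm2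
      omega
    obtain ⟨pm, hpm, hpmq⟩ := ft_exne ((S.erase q).erase m2) hnd2 (by omega) q2
    obtain ⟨mid, hmid⟩ : ∃ mid, mid = ((S.erase q).erase m2).erase pm := ⟨_, rfl⟩
    have hpermS : (m2 :: (mid ++ [pm, q])).Perm S := by
      have h1 : S.Perm (q :: S.erase q) := List.perm_cons_erase hqmem
      have h2 : (S.erase q).Perm (m2 :: (S.erase q).erase m2) := List.perm_cons_erase hm2
      have h3 : ((S.erase q).erase m2).Perm (pm :: mid) := by
        rw [hmid]; exact List.perm_cons_erase hpm
      have h4 : S.Perm (q :: m2 :: pm :: mid) :=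
        h1.trans (List.Perm.cons q (h2.trans (List.Perm.cons m2 h3)))
      refine List.Perm.trans ?_ h4.symm
      have h5 : (mid ++ [pm, q]).Perm ([pm, q] ++ mid) := List.perm_append_comm
      have h6 : (m2 :: (mid ++ [pm, q])).Perm (m2 :: pm :: q :: mid) := List.Perm.cons m2 h5
      refine h6.trans ?_
      have h7 : (m2 :: pm :: q :: mid).Perm (m2 :: q :: pm :: mid) :=
        List.Perm.cons m2 (List.Perm.swap q pm mid)
      exact h7.trans (List.Perm.swap q m2 (pm :: mid))
    have hpermm : (p :: m2 :: (mid ++ [pm, q])).Perm (S ++ [p]) := by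
      have h1 : (p :: m2 :: (mid ++ [pm, q])).Perm (p :: S) := List.Perm.cons p hpermS
      exact h1.trans (List.perm_append_comm (l₁ := [p]) (l₂ := S))
    have hSp : S ++ [p] = s'' ++ [p', p] := by rw [hS]; simp
    have hA : PV (S ++ [p]) (p :: m2 :: (mid ++ [pm, q])) := by
      rw [hSp]
      refine ih s'' p' p m2 (mid ++ [pm, q]) ?_ ?_ ?_ hm2p
      · rw [← hSp]; simp; omega
      · rw [← hSp]; exact hn7
      · rw [← hSp]; exact hpermm
    have hB : PV (p :: m2 :: (mid ++ [pm, q])) (q :: q2 :: e'') := by
      have hrew : p :: m2 :: (mid ++ [pm, q]) = (p :: m2 :: mid) ++ [pm, q] := by simp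
      rw [hrew] at hpermm ⊢
      refine ih (p :: m2 :: mid) pm q q2 e'' ?_ ?_ ?_ (Ne.symm hpmq)
      · rw [hpermm.length_eq]; simp; omega
      · exact hpermm.nodup_iff.2 hn7
      · exact hp7.trans hpermm.symm
    exact hA.merge hB hx7 (by simp)

end Pool.Agent.Helper605.FT
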