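import Mathlib
import Pool.Agent.Helper605.FT.A

set_option autoImplicit false

namespace Pool.Agent.Helper605.FT

/-- the final A-part on `1..n` -/
structure VF (n : ℕ) (v : ℕ → List (Finset ℕ)) : Prop where
  len : ∀ k, 9 ≤ k → k + 2 ≤ n → 2 * (n - 1).choose k ≤ (v k).length + 1
  ok : ∀ k, 9 ≤ k → k + 2 ≤ n → Ok (v k)
  card : ∀ k, 9 ≤ k → k + 2 ≤ n → ∀ a ∈ v k, a.card = k ∨ a.card = k + 1
  sub : ∀ k, 9 ≤ k → k + 2 ≤ n → ∀ a ∈ v k, a ⊆ Finset.Icc 1 n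
  head : ∀ k, 9 ≤ k → k + 2 ≤ n → (v k).head? = some (Finset.Icc (n - k + 1) n)
  last : ∀ k, 9 ≤ k → k + 2 ≤ n → (v k).getLast? = some (insert (n - 1) (Finset.Icc 1 (k - 1)))
  cross : ∀ k l, 9 ≤ k → k < l → l + 2 ≤ n → ∀ a ∈ v k, ∀ b ∈ v l, ¬ b ⊆ a


/-- the B-part of the construction on `1..n` -/
structure CF (n : ℕ) (c : ℕ → List (Finset ℕ)) : Prop where
  len : ∀ k, 4 ≤ k → k + 5 ≤ n →
    2 * (n - 1).choose (k - 1) ≤ (c k).length + 2 * (n - 1).choose 3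
  ok : ∀ k, 4 ≤ k → k + 5 ≤ n → Ok (c k)
  card : ∀ k, 4 ≤ k → k + 5 ≤ n → ∀ a ∈ c k,
    a.card = k - 1 ∨ a.card = k ∨ a = Finset.Icc (n - k) n
  sub : ∀ k, 4 ≤ k → k + 5 ≤ n → ∀ a ∈ c k, a ⊆ Finset.Icc 1 n
  head : ∀ k, 4 ≤ k → k + 5 ≤ n → (c k).head? = some (insert (n - 1) (Finset.Icc 1 (k - 1)))
  last : ∀ k, 4 ≤ k → k + 5 ≤ n → (c k).getLast? = some (Finset.Icc (n - k) n)
  cross : ∀ k l, 4 ≤ k → k < l → l + 5 ≤ n → ∀ a ∈ c k, ∀ b ∈ c l, ¬ b ⊆ a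
  inv : ∀ k, 4 ≤ k → k + 5 ≤ n → ∀ b ∈ c k, ¬ b ⊆ Finset.Icc (n - 3) n

end Pool.Agent.Helper605.FT
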