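import Mathlib
import Pool.Agent.Helper605.FT.A
import Pool.Agent.Helper605.FT.VC

set_option autoImplicit false

namespace Pool.Agent.Helper605.FT


/-- the first list of the construction -/
def route (n : ℕ) : List (Finset ℕ) :=
  [{n-1,1,2,3}, {n-1,1,2}, {n-1,1,2,n}, {n-1,1,n}, {n-1,1,n,n-4}, {n-1,n,n-4},
    {n-1,n,n-4,n-2}, Finset.Icc (n-4) n]

theorem mem_route {n : ℕ} {a : Finset ℕ} : a ∈ route n ↔ a = {n-1,1,2,3} ∨ a = {n-1,1,2} ∨
    a = {n-1,1,2,n} ∨ a = {n-1,1,n} ∨ a = {n-1,1,n,n-4} ∨ a = {n-1,n,n-4} ∨
    a = {n-1,n,n-4,n-2} ∨ a = Finset.Icc (n-4) n := by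
  simp [route]

theorem not_sub_of {a b : Finset ℕ} (x : ℕ) (hx : x ∈ b) (hx' : x ∉ a) : ¬ b ⊆ a :=
  fun h => hx' (h hx)

theorem ok_route {n : ℕ} (hn : 9 ≤ n) : Ok (route n) := by
  unfold route
  refine ⟨Or.inr ⟨3, ?_, ?_⟩, ?_, Or.inl ⟨n, ?_, ?_⟩, ?_, Or.inr ⟨2, ?_, ?_⟩, ?_,
    Or.inl ⟨n-4, ?_, ?_⟩, ?_, Or.inr ⟨1, ?_, ?_⟩, ?_, Or.inl ⟨n-2, ?_, ?_⟩, ?_,
    Or.inl ⟨n-3, ?_, ?_⟩, ?_, trivial⟩
  · simp only [Finset.mem_insert, Finset.mem_singleton]; omega
  · ext y; simp only [Finset.mem_insert, Finset.mem_singleton]; omega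
  · intro c hc
    simp only [List.mem_cons, List.not_mem_nil, or_false] at hc
    apply not_sub_of n
    · rcases hc with rfl | rfl | rfl | rfl | rfl | rfl <;> simp
    · simp only [Finset.mem_insert, Finset.mem_singleton]; omega
  · simp only [Finset.mem_insert, Finset.mem_singleton]; omega
  · ext y; simp only [Finset.mem_insert, Finset.mem_singleton]; omega
  · intro c hc
    simp only [List.mem_cons, List.not_mem_nil, or_false] at hc
    apply not_sub_of n
    · rcases hc with rfl | rfl | rfl | rfl | rfl <;> simp
    · simp only [Finset.mem_insert, Finset.mem_singleton]; omega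
  · simp only [Finset.mem_insert, Finset.mem_singleton]; omega
  · ext y; simp only [Finset.mem_insert, Finset.mem_singleton]; omega
  · intro c hc
    simp only [List.mem_cons, List.not_mem_nil, or_false] at hc
    apply not_sub_of (n-4)
    · rcases hc with rfl | rfl | rfl | rfl <;> simp
    · simp only [Finset.mem_insert, Finset.mem_singleton]; omega
  · simp only [Finset.mem_insert, Finset.mem_singleton]; omega
  · ext y; simp only [Finset.mem_insert, Finset.mem_singleton]; omega
  · intro c hc
    simp only [List.mem_cons, List.not_mem_nil, or_false] at hc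
    apply not_sub_of (n-4)
    · rcases hc with rfl | rfl | rfl <;> simp
    · simp only [Finset.mem_insert, Finset.mem_singleton]; omega
  · simp only [Finset.mem_insert, Finset.mem_singleton]; omega
  · ext y; simp only [Finset.mem_insert, Finset.mem_singleton]; omega
  · intro c hc
    simp only [List.mem_cons, List.not_mem_nil, or_false] at hc
    apply not_sub_of (n-2)
    · rcases hc with rfl | rfl
      · simp
      · rw [Finset.mem_Icc]; omega
    · simp only [Finset.mem_insert, Finset.mem_singleton]; omega
  · simp only [Finset.mem_insert, Finset.mem_singleton]; omega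
  · ext y; simp only [Finset.mem_insert, Finset.mem_singleton]; omega
  · intro c hc
    simp only [List.mem_cons, List.not_mem_nil, or_false] at hc
    apply not_sub_of (n-2)
    · subst hc; rw [Finset.mem_Icc]; omega
    · simp only [Finset.mem_insert, Finset.mem_singleton]; omega
  · simp only [Finset.mem_insert, Finset.mem_singleton]; omega
  · ext y; simp only [Finset.mem_insert, Finset.mem_singleton, Finset.mem_Icc]; omega
  · intro c hc
    simp at hc

theorem card_route {n : ℕ} (hn : 9 ≤ n) {a : Finset ℕ} (ha : a ∈ route n) :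
    a.card = 3 ∨ a.card = 4 ∨ a = Finset.Icc (n-4) n := by
  rw [mem_route] at ha
  rcases ha with rfl | rfl | rfl | rfl | rfl | rfl | rfl | rfl
  · right; left
    rw [Finset.card_insert_of_notMem, Finset.card_insert_of_notMem, Finset.card_insert_of_notMem,
      Finset.card_singleton] <;> (simp only [Finset.mem_insert, Finset.mem_singleton]; omega)
  · left
    rw [Finset.card_insert_of_notMem, Finset.card_insert_of_notMem,
      Finset.card_singleton] <;> (simp only [Finset.mem_insert, Finset.mem_singleton]; omega)
  · right; left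
    rw [Finset.card_insert_of_notMem, Finset.card_insert_of_notMem, Finset.card_insert_of_notMem,
      Finset.card_singleton] <;> (simp only [Finset.mem_insert, Finset.mem_singleton]; omega)
  · left
    rw [Finset.card_insert_of_notMem, Finset.card_insert_of_notMem,
      Finset.card_singleton] <;> (simp only [Finset.mem_insert, Finset.mem_singleton]; omega)
  · right; left
    rw [Finset.card_insert_of_notMem, Finset.card_insert_of_notMem, Finset.card_insert_of_notMem,
      Finset.card_singleton] <;> (simp only [Finset.mem_insert, Finset.mem_singleton]; omega)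
  · left
    rw [Finset.card_insert_of_notMem, Finset.card_insert_of_notMem,
      Finset.card_singleton] <;> (simp only [Finset.mem_insert, Finset.mem_singleton]; omega)
  · right; left
    rw [Finset.card_insert_of_notMem, Finset.card_insert_of_notMem, Finset.card_insert_of_notMem,
      Finset.card_singleton] <;> (simp only [Finset.mem_insert, Finset.mem_singleton]; omega)
  · right; right; rfl

theorem sub_route {n : ℕ} (hn : 9 ≤ n) {a : Finset ℕ} (ha : a ∈ route n) :
    a ⊆ Finset.Icc 1 n := by
  rw [mem_route] at ha
  intro y hy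
  rcases ha with rfl | rfl | rfl | rfl | rfl | rfl | rfl | rfl <;>
    simp only [Finset.mem_insert, Finset.mem_singleton, Finset.mem_Icc] at hy ⊢ <;> omega

theorem inv_route {n : ℕ} (hn : 9 ≤ n) {a : Finset ℕ} (ha : a ∈ route n) :
    ¬ a ⊆ Finset.Icc (n - 3) n := by
  rw [mem_route] at ha
  rcases ha with rfl | rfl | rfl | rfl | rfl | rfl | rfl | rfl
  · exact not_sub_of 1 (by simp) (by rw [Finset.mem_Icc]; omega)
  · exact not_sub_of 1 (by simp) (by rw [Finset.mem_Icc]; omega)
  · exact not_sub_of 1 (by simp) (by rw [Finset.mem_Icc]; omega)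
  · exact not_sub_of 1 (by simp) (by rw [Finset.mem_Icc]; omega)
  · exact not_sub_of 1 (by simp) (by rw [Finset.mem_Icc]; omega)
  · exact not_sub_of (n-4) (by simp) (by rw [Finset.mem_Icc]; omega)
  · exact not_sub_of (n-4) (by simp) (by rw [Finset.mem_Icc]; omega)
  · exact not_sub_of (n-4) (by rw [Finset.mem_Icc]; omega) (by rw [Finset.mem_Icc]; omega)

theorem pred_mem_route {n : ℕ} (hn : 9 ≤ n) {a : Finset ℕ} (ha : a ∈ route n) :
    n - 1 ∈ a := by
  rw [mem_route] at ha
  rcases ha with rfl | rfl | rfl | rfl | rfl | rfl | rfl | rfl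
  · simp
  · simp
  · simp
  · simp
  · simp
  · simp
  · simp
  · rw [Finset.mem_Icc]; omega

theorem head_route (n : ℕ) : (route n).head? = some (insert (n - 1) (Finset.Icc 1 (4 - 1))) := by
  simp only [route, List.head?_cons, Option.some.injEq]
  rfl

theorem last_route (n : ℕ) : (route n).getLast? = some (Finset.Icc (n - 4) n) := by
  simp [route]

theorem pi_head {n : ℕ} (hn : 9 ≤ n) {π : ℕ → List (Finset ℕ)}
    (h : PVf (n :: List.range' 1 (n - 1)) ((n - 1) :: (List.range' 1 (n - 2) ++ [n])) π)
    {k : ℕ} (hk : k + 1 ≤ n) : (π k).head? = some (insert n (Finset.Icc 1 k)) := by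
  rw [h.head k (by simp; omega)]
  congr 1
  rw [List.take_succ_cons, List.toFinset_cons, List.take_range'_of_length_ge (by omega)]
  congr 1
  ext y
  simp only [List.mem_toFinset, List.mem_range'_1, Finset.mem_Icc]
  omega

theorem pi_last {n : ℕ} (hn : 9 ≤ n) {π : ℕ → List (Finset ℕ)}
    (h : PVf (n :: List.range' 1 (n - 1)) ((n - 1) :: (List.range' 1 (n - 2) ++ [n])) π)
    {k : ℕ} (hk0 : 1 ≤ k) (hk : k + 1 ≤ n) :
    (π k).getLast? = some (insert (n - 1) (Finset.Icc 1 (k - 1))) := by
  rw [h.last k (by simp; omega)]
  congr 1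
  obtain ⟨j, rfl⟩ : ∃ j, k = j + 1 := ⟨k - 1, by omega⟩
  rw [List.take_succ_cons, List.toFinset_cons, List.take_append_of_le_length (by simp; omega),
    List.take_range'_of_length_ge (by omega)]
  congr 1
  ext y
  simp only [List.mem_toFinset, List.mem_range'_1, Finset.mem_Icc]
  omega

theorem pi_len {n : ℕ} (hn : 9 ≤ n) {π : ℕ → List (Finset ℕ)}
    (h : PVf (n :: List.range' 1 (n - 1)) ((n - 1) :: (List.range' 1 (n - 2) ++ [n])) π)
    (k : ℕ) : (π k).length = 2 * (n - 1).choose k := by
  rw [h.len]
  simp

theorem pi_sub {n : ℕ} (hn : 9 ≤ n) {π : ℕ → List (Finset ℕ)}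
    (h : PVf (n :: List.range' 1 (n - 1)) ((n - 1) :: (List.range' 1 (n - 2) ++ [n])) π)
    (k : ℕ) {a : Finset ℕ} (ha : a ∈ π k) : a ⊆ Finset.Icc 1 n := by
  intro y hy
  have := h.sub k a ha hy
  simp only [List.toFinset_cons, Finset.mem_insert, List.mem_toFinset, List.mem_range'_1] at this
  rw [Finset.mem_Icc]
  omega

/-- the lists of the next level -/
def nextc (n : ℕ) (π c : ℕ → List (Finset ℕ)) : ℕ → List (Finset ℕ)
  | 0 => []
  | k + 1 => if k = 3 then route (n + 1) else π k ++ (c k).map (insert (n + 1))

theorem nextc_four (n : ℕ) (π c : ℕ → List (Finset ℕ)) : nextc n π c 4 = route (n + 1) := by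
  simp [nextc]

theorem nextc_succ (n : ℕ) (π c : ℕ → List (Finset ℕ)) {k : ℕ} (hk : 4 ≤ k) :
    nextc n π c (k + 1) = π k ++ (c k).map (insert (n + 1)) := by
  simp only [nextc]
  rw [if_neg (by omega)]

theorem insert_Icc_top {n k : ℕ} (hk : k ≤ n) :
    insert (n + 1) (Finset.Icc (n - k) n) = Finset.Icc (n + 1 - (k + 1)) (n + 1) := by
  ext y
  simp only [Finset.mem_insert, Finset.mem_Icc]
  omega

/-- splitting the elements of the next level -/
theorem mem_nextc {n : ℕ} {π c : ℕ → List (Finset ℕ)} {k : ℕ} (hk : 4 ≤ k) {a : Finset ℕ}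
    (ha : a ∈ nextc n π c (k + 1)) : a ∈ π k ∨ ∃ b ∈ c k, a = insert (n + 1) b := by
  rw [nextc_succ n π c hk, List.mem_append, List.mem_map] at ha
  rcases ha with ha | ⟨b, hb, rfl⟩
  · exact Or.inl ha
  · exact Or.inr ⟨b, hb, rfl⟩

theorem c_step {n : ℕ} (hn : 9 ≤ n) {π : ℕ → List (Finset ℕ)}
    (h : PVf (n :: List.range' 1 (n - 1)) ((n - 1) :: (List.range' 1 (n - 2) ++ [n])) π)
    (hF : ∀ k, 4 ≤ k → k + 3 ≤ n → Finset.Icc (n - k + 1) n ∈ π (k - 1))
    {c : ℕ → List (Finset ℕ)} (hc : CF n c) (hc4 : ∀ b ∈ c 4, n - 1 ∈ b) :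
    CF (n + 1) (nextc n π c) := by
  have hpn : ∀ k, ∀ a ∈ π k, n + 1 ∉ a := fun k a ha hm => by
    have := Finset.mem_Icc.mp (pi_sub hn h k ha hm)
    omega
  have hcn : ∀ k, 4 ≤ k → k + 5 ≤ n → ∀ a ∈ c k, n + 1 ∉ a := fun k hk hk' a ha hm => by
    have := Finset.mem_Icc.mp (hc.sub k hk hk' a ha hm)
    omega
  constructor
  · -- len
    intro k hk hk'
    rcases Nat.lt_or_ge 4 k with h4 | h4
    · obtain ⟨j, rfl⟩ : ∃ j, k = j + 1 := ⟨k - 1, by omega⟩
      rw [nextc_succ n π c (by omega), List.length_append, List.length_map, pi_len hn h]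
      have h1 := hc.len j (by omega) (by omega)
      have h2 : (n + 1 - 1).choose (j + 1 - 1) = (n - 1).choose (j - 1) + (n - 1).choose j := by
        obtain ⟨m, rfl⟩ : ∃ m, n = m + 1 := ⟨n - 1, by omega⟩
        obtain ⟨i, rfl⟩ : ∃ i, j = i + 1 := ⟨j - 1, by omega⟩
        simp only [Nat.add_sub_cancel]
        rw [Nat.choose_succ_succ]
      have h3 : (n - 1).choose 3 ≤ (n + 1 - 1).choose 3 := Nat.choose_le_choose 3 (by omega)
      rw [h2]
      omega
    · obtain rfl : k = 4 := by omega
      show 2 * (n + 1 - 1).choose 3 ≤ _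
      omega
  · -- ok
    intro k hk hk'
    rcases Nat.lt_or_ge 4 k with h4 | h4
    · obtain ⟨j, rfl⟩ : ∃ j, k = j + 1 := ⟨k - 1, by omega⟩
      rw [nextc_succ n π c (by omega)]
      refine (h.ok j).append_strong ((hc.ok j (by omega) (by omega)).ins
        (hcn j (by omega) (by omega))) ?_ ?_
      · intro a ha b hb
        rw [pi_last hn h (by omega) (by omega)] at ha
        rw [List.head?_map, hc.head j (by omega) (by omega)] at hb
        simp only [Option.mem_def, Option.some.injEq, Option.map_some] at ha hb
        subst ha hb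
        refine Or.inl ⟨n + 1, ?_, rfl⟩
        simp only [Finset.mem_insert, Finset.mem_Icc]
        omega
      · intro a ha b hb hba
        rw [List.mem_map] at hb
        obtain ⟨d, hd, rfl⟩ := hb
        exact hpn _ a ha (hba (Finset.mem_insert_self _ _))
    · obtain rfl : k = 4 := by omega
      rw [nextc_four]
      exact ok_route (by omega)
  · -- card
    intro k hk hk' a ha
    rcases Nat.lt_or_ge 4 k with h4 | h4
    · obtain ⟨j, rfl⟩ : ∃ j, k = j + 1 := ⟨k - 1, by omega⟩
      rcases mem_nextc (by omega) ha with ha | ⟨b, hb, rfl⟩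
      · rcases h.card j a ha with h1 | h1 <;> omega
      · rw [Finset.card_insert_of_notMem (hcn j (by omega) (by omega) b hb)]
        rcases hc.card j (by omega) (by omega) b hb with h1 | h1 | h1
        · omega
        · omega
        · right; right
          rw [h1, insert_Icc_top (by omega)]
    · obtain rfl : k = 4 := by omega
      rw [nextc_four] at ha
      exact card_route (by omega) ha
  · -- sub
    intro k hk hk' a ha
    rcases Nat.lt_or_ge 4 k with h4 | h4
    · obtain ⟨j, rfl⟩ : ∃ j, k = j + 1 := ⟨k - 1, by omega⟩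
      have hI : Finset.Icc 1 n ⊆ Finset.Icc 1 (n + 1) := Finset.Icc_subset_Icc_right (by omega)
      rcases mem_nextc (by omega) ha with ha | ⟨b, hb, rfl⟩
      · exact (pi_sub hn h j ha).trans hI
      · exact Finset.insert_subset (by rw [Finset.mem_Icc]; omega)
          ((hc.sub j (by omega) (by omega) b hb).trans hI)
    · obtain rfl : k = 4 := by omega
      rw [nextc_four] at ha
      exact sub_route (by omega) ha
  · -- head
    intro k hk hk'
    rcases Nat.lt_or_ge 4 k with h4 | h4
    · obtain ⟨j, rfl⟩ : ∃ j, k = j + 1 := ⟨k - 1, by omega⟩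
      rw [nextc_succ n π c (by omega), List.head?_append, pi_head hn h (by omega)]
      rfl
    · obtain rfl : k = 4 := by omega
      rw [nextc_four]
      exact head_route (n + 1)
  · -- last
    intro k hk hk'
    rcases Nat.lt_or_ge 4 k with h4 | h4
    · obtain ⟨j, rfl⟩ : ∃ j, k = j + 1 := ⟨k - 1, by omega⟩
      rw [nextc_succ n π c (by omega), List.getLast?_append, List.getLast?_map,
        hc.last j (by omega) (by omega)]
      simp only [Option.map_some, Option.some_or, Option.some.injEq]
      exact insert_Icc_top (by omega)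
    · obtain rfl : k = 4 := by omega
      rw [nextc_four]
      exact last_route (n + 1)
  · -- cross
    intro k l hk hkl hl a ha b hb hba
    obtain ⟨j, rfl⟩ : ∃ j, l = j + 1 := ⟨l - 1, by omega⟩
    rcases Nat.lt_or_ge 4 k with h4 | h4
    · obtain ⟨i, rfl⟩ : ∃ i, k = i + 1 := ⟨k - 1, by omega⟩
      rcases mem_nextc (by omega) ha with ha | ⟨a', ha', rfl⟩
      · rcases mem_nextc (by omega) hb with hb | ⟨b', hb', rfl⟩
        · exact h.cross i j (by omega) a ha b hb hba
        · exact hpn _ a ha (hba (Finset.mem_insert_self _ _))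
      · rcases mem_nextc (by omega) hb with hb | ⟨b', hb', rfl⟩
        · have hba' : b ⊆ a' := by
            intro y hy
            rcases Finset.mem_insert.1 (hba hy) with rfl | h
            · exact absurd hy (hpn _ b hb)
            · exact h
          have h1 := Finset.card_le_card hba'
          have h2 := h.card _ b hb
          rcases hc.card i (by omega) (by omega) a' ha' with h3 | h3 | h3
          · omega
          · omega
          · have h5 := hF (i + 1) (by omega) (by omega)
            rw [Nat.add_sub_cancel, show n - (i + 1) + 1 = n - i by omega, ← h3] at h5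
            exact h.cross i j (by omega) a' h5 b hb hba'
        · exact hc.cross i j (by omega) (by omega) (by omega) a' ha' b' hb'
            (sub_of_ins_sub (hcn j (by omega) (by omega) b' hb') hba)
    · obtain rfl : k = 4 := by omega
      rw [nextc_four, mem_route] at ha
      simp only [Nat.add_sub_cancel, show n + 1 - 4 = n - 3 by omega,
        show n + 1 - 2 = n - 1 by omega] at ha
      rcases mem_nextc (by omega) hb with hb | ⟨b', hb', rfl⟩
      · -- b in pi j
        have hbn := hpn j b hb
        have hbc : 4 ≤ b.card := by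
          rcases h.card j b hb with h1 | h1 <;> omega
        -- `b ⊆ a \ {n+1}`
        have hbe : b ⊆ a.erase (n + 1) := fun y hy =>
          Finset.mem_erase.mpr ⟨fun e => hbn (e ▸ hy), hba hy⟩
        have hsmall : ∀ x y z : ℕ, b ⊆ {x, y, z} → False := fun x y z hs => by
          have h1 := Finset.card_le_card hs
          have h2 : ({x, y, z} : Finset ℕ).card ≤ 3 := Finset.card_le_three
          omega
        rcases ha with rfl | rfl | rfl | rfl | rfl | rfl | rfl | rfl
        · have h5 := List.mem_of_head? (pi_head hn h (show 3 + 1 ≤ n by omega))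
          exact h.cross 3 j (by omega) _ h5 b hb (hba.trans (by
            intro y; simp only [Finset.mem_insert, Finset.mem_singleton, Finset.mem_Icc]; omega))
        · exact hsmall _ _ _ hba
        · refine hsmall n 1 2 (hbe.trans ?_)
          intro y; simp only [Finset.mem_erase, Finset.mem_insert, Finset.mem_singleton]; omega
        · exact hsmall _ _ _ hba
        · refine hsmall n 1 (n-3) (hbe.trans ?_)
          intro y; simp only [Finset.mem_erase, Finset.mem_insert, Finset.mem_singleton]; omega
        · exact hsmall _ _ _ hba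
        · refine hsmall n (n-3) (n-1) (hbe.trans ?_)
          intro y; simp only [Finset.mem_erase, Finset.mem_insert, Finset.mem_singleton]; omega
        · have h5 := hF 4 le_rfl (by omega)
          refine h.cross 3 j (by omega) _ h5 b hb (hbe.trans ?_)
          intro y; simp only [Finset.mem_erase, Finset.mem_Icc]; omega
      · -- b = insert (n+1) b'
        have hn1 : n + 1 ∈ a := hba (Finset.mem_insert_self _ _)
        have hbn := hcn j (by omega) (by omega) b' hb'
        have hba' : b' ⊆ a.erase (n + 1) := fun y hy =>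
          Finset.mem_erase.mpr ⟨fun e => hbn (e ▸ hy), hba (Finset.mem_insert_of_mem hy)⟩
        have hinv := hc.inv j (by omega) (by omega) b' hb'
        have hcard : 3 ≤ b'.card ∧ (b'.card ≤ 3 → j = 4) := by
          rcases hc.card j (by omega) (by omega) b' hb' with h1 | h1 | h1
          · omega
          · omega
          · rw [h1, Nat.card_Icc]; omega
        have hsmall : ∀ x y z : ℕ, n - 1 ≠ x → n - 1 ≠ y → n - 1 ≠ z → b' ⊆ {x, y, z} → False := by
          intro x y z hx hy hz hs
          have h1 := Finset.card_le_card hs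
          have h2 : ({x, y, z} : Finset ℕ).card ≤ 3 := Finset.card_le_three
          have h3 : j = 4 := hcard.2 (by omega)
          subst h3
          have h4 := hs (hc4 b' hb')
          simp only [Finset.mem_insert, Finset.mem_singleton] at h4
          omega
        rcases ha with rfl | rfl | rfl | rfl | rfl | rfl | rfl | rfl
        · simp only [Finset.mem_insert, Finset.mem_singleton] at hn1; omega
        · simp only [Finset.mem_insert, Finset.mem_singleton] at hn1; omega
        · refine hsmall n 1 2 (by omega) (by omega) (by omega) (hba'.trans ?_)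
          intro y; simp only [Finset.mem_erase, Finset.mem_insert, Finset.mem_singleton]; omega
        · refine hsmall n 1 1 (by omega) (by omega) (by omega) (hba'.trans ?_)
          intro y; simp only [Finset.mem_erase, Finset.mem_insert, Finset.mem_singleton]; omega
        · refine hsmall n 1 (n-3) (by omega) (by omega) (by omega) (hba'.trans ?_)
          intro y; simp only [Finset.mem_erase, Finset.mem_insert, Finset.mem_singleton]; omega
        · refine hsmall n (n-3) (n-3) (by omega) (by omega) (by omega) (hba'.trans ?_)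
          intro y; simp only [Finset.mem_erase, Finset.mem_insert, Finset.mem_singleton]; omega
        · refine hinv (hba'.trans ?_)
          intro y
          simp only [Finset.mem_erase, Finset.mem_insert, Finset.mem_singleton, Finset.mem_Icc]
          omega
        · refine hinv (hba'.trans ?_)
          intro y; simp only [Finset.mem_erase, Finset.mem_Icc]; omega
  · -- inv
    intro k hk hk' b hb hs
    rcases Nat.lt_or_ge 4 k with h4 | h4
    · obtain ⟨j, rfl⟩ : ∃ j, k = j + 1 := ⟨k - 1, by omega⟩
      rcases mem_nextc (by omega) hb with hb | ⟨b', hb', rfl⟩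
      · have hbn := hpn j b hb
        have hbc : 4 ≤ b.card := by
          rcases h.card j b hb with h1 | h1 <;> omega
        have h1 : b ⊆ Finset.Icc (n - 2) n := by
          intro y hy
          have h2 := Finset.mem_Icc.mp (hs hy)
          have h3 : y ≠ n + 1 := fun e => hbn (e ▸ hy)
          rw [Finset.mem_Icc]; omega
        have h2 := Finset.card_le_card h1
        rw [Nat.card_Icc] at h2
        omega
      · have hbn := hcn j (by omega) (by omega) b' hb'
        refine hc.inv j (by omega) (by omega) b' hb' ?_
        intro y hy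
        have h2 := Finset.mem_Icc.mp (hs (Finset.mem_insert_of_mem hy))
        have h3 : y ≠ n + 1 := fun e => hbn (e ▸ hy)
        rw [Finset.mem_Icc]; omega
    · obtain rfl : k = 4 := by omega
      rw [nextc_four] at hb
      exact inv_route (by omega) hb hs

/-- TARGET -/
theorem c_chain (hPVC : ∀ n, 9 ≤ n → ∃ π : ℕ → List (Finset ℕ),
      PVf (n :: List.range' 1 (n - 1)) ((n - 1) :: (List.range' 1 (n - 2) ++ [n])) π ∧
      ∀ k, 4 ≤ k → k + 3 ≤ n → Finset.Icc (n - k + 1) n ∈ π (k - 1)) :
    ∀ n, 9 ≤ n → ∃ c : ℕ → List (Finset ℕ), CF n c := by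
  have key : ∀ n, 9 ≤ n → ∃ c : ℕ → List (Finset ℕ), CF n c ∧ ∀ b ∈ c 4, n - 1 ∈ b := by
    intro n hn
    induction n, hn using Nat.le_induction with
    | base =>
      refine ⟨fun _ => route 9, ?_, fun b hb => pred_mem_route le_rfl hb⟩
      have h4 : ∀ k, 4 ≤ k → k + 5 ≤ 9 → k = 4 := fun k h1 h2 => by omega
      constructor
      · intro k hk hk'
        obtain rfl := h4 k hk hk'
        show 2 * (9 - 1).choose 3 ≤ _
        omega
      · intro k hk hk'
        exact ok_route le_rfl
      · intro k hk hk' a ha
        obtain rfl := h4 k hk hk'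
        exact card_route le_rfl ha
      · intro k hk hk' a ha
        exact sub_route le_rfl ha
      · intro k hk hk'
        obtain rfl := h4 k hk hk'
        exact head_route 9
      · intro k hk hk'
        obtain rfl := h4 k hk hk'
        exact last_route 9
      · intro k l hk hkl hl
        omega
      · intro k hk hk' b hb
        exact inv_route le_rfl hb
    | succ n hn ih =>
      obtain ⟨c, hc, hc4⟩ := ih
      obtain ⟨π, hπ, hF⟩ := hPVC n hn
      refine ⟨nextc n π c, c_step hn hπ hF hc hc4, fun b hb => ?_⟩
      rw [nextc_four] at hb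
      exact pred_mem_route (by omega) hb
  intro n hn
  obtain ⟨c, hc, -⟩ := key n hn
  exact ⟨c, hc⟩

end Pool.Agent.Helper605.FT
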