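import Mathlib
import Pool.Agent.Helper605.FT.A
import Pool.Agent.Helper605.FT.AL

set_option autoImplicit false

namespace Pool.Agent.Helper605.FT

theorem Ok.tail {a : Finset ℕ} {L : List (Finset ℕ)} (h : Ok (a :: L)) : Ok L := by
  cases L with
  | nil => simp [Ok]
  | cons b L => exact h.2.2

theorem Ok.adj : ∀ {L : List (Finset ℕ)}, Ok L → ∀ i (h : i + 1 < L.length),
    Adj (L[i]'(by omega)) (L[i + 1]'h)
  | [], _, i, h => by simp at h
  | [a], _, i, h => by simp at h
  | a :: b :: L, hL, 0, h => hL.1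
  | a :: b :: L, hL, i + 1, h => by
    have := Ok.adj hL.2.2 i (by simp at h ⊢; omega)
    simpa using this

theorem Ok.nback : ∀ {L : List (Finset ℕ)}, Ok L → ∀ i j (_ : j + 1 < i) (h : i < L.length),
    ¬ (L[i]'h) ⊆ (L[j]'(by omega))
  | [], _, i, j, _, h => by simp at h
  | [a], _, i, j, hij, h => by simp at h; omega
  | a :: b :: L, hL, i, 0, hij, h => by
    obtain ⟨i, rfl⟩ : ∃ k, i = k + 2 := ⟨i - 2, by omega⟩
    simp only [List.getElem_cons_succ, List.getElem_cons_zero]
    exact hL.2.1 _ (List.getElem_mem _)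
  | a :: b :: L, hL, i, j + 1, hij, h => by
    obtain ⟨i, rfl⟩ : ∃ k, i = k + 1 := ⟨i - 1, by omega⟩
    have := Ok.nback hL.2.2 i j (by omega) (by simp at h ⊢; omega)
    simpa using this

/-- move a set of numbers to `Fin n` -/
def gF (n : ℕ) (a : Finset ℕ) : Finset (Fin n) := Finset.univ.filter (fun i => i.val + 1 ∈ a)

theorem mem_gF {n : ℕ} {a : Finset ℕ} {i : Fin n} : i ∈ gF n a ↔ i.val + 1 ∈ a := by
  simp [gF]

theorem gF_sub {n : ℕ} {a b : Finset ℕ} (ha : a ⊆ Finset.Icc 1 n) :
    gF n a ⊆ gF n b ↔ a ⊆ b := by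
  constructor
  · intro h x hx
    have h1 := Finset.mem_Icc.1 (ha hx)
    have h2 : (⟨x - 1, by omega⟩ : Fin n) ∈ gF n a := by
      rw [mem_gF]
      have : x - 1 + 1 = x := by omega
      simpa [this] using hx
    have h3 := h h2
    rw [mem_gF] at h3
    have : x - 1 + 1 = x := by omega
    simpa [this] using h3
  · intro h i hi
    rw [mem_gF] at hi ⊢
    exact h hi

theorem gF_inj {n : ℕ} {a b : Finset ℕ} (ha : a ⊆ Finset.Icc 1 n) (hb : b ⊆ Finset.Icc 1 n)
    (h : gF n a = gF n b) : a = b :=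
  Finset.Subset.antisymm ((gF_sub ha).1 h.subset) ((gF_sub hb).1 h.symm.subset)

theorem gF_insert {n : ℕ} {a : Finset ℕ} {x : ℕ} (hx1 : 1 ≤ x) (hxn : x ≤ n) :
    gF n (insert x a) = insert ⟨x - 1, by omega⟩ (gF n a) := by
  ext i
  rw [mem_gF, Finset.mem_insert, Finset.mem_insert, mem_gF]
  constructor
  · rintro (h | h)
    · left; ext; simp; omega
    · exact Or.inr h
  · rintro (h | h)
    · left; rw [h]; simp; omega
    · exact Or.inr h

theorem gF_adj {n : ℕ} {a b : Finset ℕ} (ha : a ⊆ Finset.Icc 1 n) (hb : b ⊆ Finset.Icc 1 n)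
    (h : Adj a b) : (gF n a ⊂ gF n b ∨ gF n b ⊂ gF n a) ∧
      (symmDiff (gF n a) (gF n b)).card = 1 := by
  have key : ∀ a b : Finset ℕ, b ⊆ Finset.Icc 1 n → (∃ x, x ∉ a ∧ b = insert x a) →
      gF n a ⊂ gF n b ∧ (symmDiff (gF n a) (gF n b)).card = 1 := by
    rintro a b hb ⟨x, hx, rfl⟩
    have hx2 := Finset.mem_Icc.1 (hb (Finset.mem_insert_self _ _))
    have hnm : (⟨x - 1, by omega⟩ : Fin n) ∉ gF n a := by
      rw [mem_gF]
      have : x - 1 + 1 = x := by omega
      simpa [this] using hx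
    rw [gF_insert hx2.1 hx2.2]
    refine ⟨Finset.ssubset_insert hnm, ?_⟩
    rw [symmDiff_def, Finset.sup_eq_union, Finset.sdiff_eq_empty_iff_subset.2
      (Finset.subset_insert _ _), Finset.empty_union, Finset.insert_sdiff_of_notMem _ hnm,
      Finset.sdiff_self]
    simp
  rcases h with h | h
  · exact ⟨Or.inl (key a b hb h).1, (key a b hb h).2⟩
  · refine ⟨Or.inr (key b a ha h).1, ?_⟩
    rw [symmDiff_comm]; exact (key b a ha h).2

theorem Alpha.suc : ∀ {L : List (Finset ℕ)}, Alpha L → ∀ i (h : i + 1 < L.length),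
    ¬ (L[i + 1]'h) ⊆ (L[i]'(by omega))
  | [], _, i, h => by simp at h
  | [a], _, i, h => by simp at h
  | a :: b :: L, hL, 0, h => hL.1
  | a :: b :: L, hL, i + 1, h => by
    have := Alpha.suc hL.2.2 i (by simp at h ⊢; omega)
    simpa using this

theorem Alpha.uni : ∀ {L : List (Finset ℕ)}, Alpha L → ∀ i k (_ : i + 1 < k) (h : k < L.length),
    ¬ (L[k]'h) ⊆ (L[i]'(by omega)) ∪ (L[i + 1]'(by omega))
  | [], _, i, k, _, h => by simp at h
  | [a], _, i, k, hik, h => by simp at h; omega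
  | a :: b :: L, hL, 0, k, hik, h => by
    obtain ⟨k, rfl⟩ : ∃ l, k = l + 2 := ⟨k - 2, by omega⟩
    simp only [List.getElem_cons_succ, List.getElem_cons_zero]
    exact hL.2.1 _ (List.getElem_mem _)
  | a :: b :: L, hL, i + 1, k, hik, h => by
    obtain ⟨k, rfl⟩ : ∃ l, k = l + 1 := ⟨k - 1, by omega⟩
    have := Alpha.uni hL.2.2 i k (by omega) (by simp at h ⊢; omega)
    simpa using this

theorem near_path (hpath : ∀ n, 14 ≤ n → ∃ L : List (Finset ℕ), Ok L ∧ L.head? = some ∅ ∧
      (∀ a ∈ L, a ⊆ Finset.Icc 1 (n + 1)) ∧ 2 ^ (n + 1) ≤ L.length + 40 * n ^ 8) :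
    ∀ n : ℕ, 1 ≤ n → ∃ (t : ℕ) (A : Fin t → Finset (Fin n)), Function.Injective A ∧
      (∀ i : Fin t, i.val = 0 → A i = ∅) ∧
      (∀ i j : Fin t, j.val = i.val + 1 →
        (A i ⊂ A j ∨ A j ⊂ A i) ∧ (symmDiff (A i) (A j)).card = 1) ∧
      (∀ i j : Fin t, A i ⊂ A j → j < i → i.val = j.val + 1) ∧
      2 ^ n ≤ t + 40 * n ^ 8 := by
  intro n hn
  by_cases h15 : n < 15
  · refine ⟨1, fun _ => ∅, fun i j _ => Subsingleton.elim _ _, fun _ _ => rfl, ?_, ?_, ?_⟩
    · intro i j h
      have := i.isLt; have := j.isLt; omega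
    · intro i j _ h
      exact absurd (Subsingleton.elim j i) (ne_of_lt h)
    · have h1 : 2 ^ n ≤ 2 ^ 14 := Nat.pow_le_pow_right (by norm_num) (by omega)
      rcases Nat.lt_or_ge n 3 with h3 | h3
      · interval_cases n <;> norm_num
      · have h2 : 3 ^ 8 ≤ n ^ 8 := Nat.pow_le_pow_left h3 8
        norm_num at h1 h2
        omega
  · obtain ⟨L, hok, hh, hsub, hlen⟩ := hpath (n - 1) (by omega)
    have hn1 : n - 1 + 1 = n := by omega
    rw [hn1] at hsub hlen
    have hnd := Ok.nodup L hok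
    have hsub' : ∀ i : Fin L.length, L.get i ⊆ Finset.Icc 1 n := fun i =>
      hsub _ (List.getElem_mem _)
    refine ⟨L.length, fun i => gF n (L.get i), ?_, ?_, ?_, ?_, ?_⟩
    · intro i j hij
      have := gF_inj (hsub' i) (hsub' j) hij
      exact (List.nodup_iff_injective_get.1 hnd) this
    · intro i hi
      have : L.get i = ∅ := by
        cases L with
        | nil => exact absurd i.isLt (by simp)
        | cons a L =>
          simp only [List.head?_cons, Option.some.injEq] at hh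
          have hi0 : i = ⟨0, by simp⟩ := Fin.ext hi
          subst hh
          rw [hi0]; rfl
      simp only [this]
      ext x; simp [mem_gF]
    · intro i j hij
      have h1 := hok.adj i.val (by rw [← hij]; exact j.isLt)
      have h2 : L.get j = L[i.val + 1]'(by rw [← hij]; exact j.isLt) := by
        simp [List.get_eq_getElem, hij]
      have h3 := gF_adj (hsub' i) (hsub' j) (by rw [h2]; exact h1)
      exact h3
    · intro i j hij hji
      by_contra hne
      have h1 := hok.nback i.val j.val (by have : j.val < i.val := hji; omega) i.isLt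
      exact h1 ((gF_sub (hsub' i)).1 hij.subset)
    · have : (n - 1) ^ 8 ≤ n ^ 8 := Nat.pow_le_pow_left (by omega) 8
      omega

theorem near_alpha (hpath : ∀ n, 14 ≤ n → ∃ L : List (Finset ℕ), Ok L ∧ L.head? = some ∅ ∧
      (∀ a ∈ L, a ⊆ Finset.Icc 1 (n + 1)) ∧ 2 ^ (n + 1) ≤ L.length + 40 * n ^ 8) :
    ∀ n : ℕ, 1 ≤ n → ∃ (s : ℕ) (B : Fin s → Finset (Fin n)), Function.Injective B ∧
      (∀ i : Fin s, i.val = 0 → B i = ∅) ∧
      (∀ i j : Fin s, j.val = i.val + 1 → ¬ B j ⊆ B i) ∧
      (∀ i j k : Fin s, j.val = i.val + 1 → j < k → ¬ B k ⊆ B i ∪ B j) ∧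
      2 ^ (n - 1) ≤ s + 20 * n ^ 8 := by
  intro n hn
  by_cases h15 : n < 15
  · refine ⟨1, fun _ => ∅, fun i j _ => Subsingleton.elim _ _, fun _ _ => rfl, ?_, ?_, ?_⟩
    · intro i j h
      have := i.isLt; have := j.isLt; omega
    · intro i j k h _
      have := i.isLt; have := j.isLt; omega
    · have h1 : 2 ^ (n - 1) ≤ 2 ^ 13 := Nat.pow_le_pow_right (by norm_num) (by omega)
      rcases Nat.lt_or_ge n 3 with h3 | h3
      · interval_cases n <;> norm_num
      · have h2 : 3 ^ 8 ≤ n ^ 8 := Nat.pow_le_pow_left h3 8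
        norm_num at h1 h2
        omega
  · obtain ⟨L, hok, hh, hsub, hlen⟩ := hpath (n - 1) (by omega)
    have hn1 : n - 1 + 1 = n := by omega
    rw [hn1] at hsub hlen
    obtain ⟨M, hM0, hML, hMnd, hMlen, hMa⟩ := alpha_of_ok L hok hh
    have hsub' : ∀ i : Fin M.length, M.get i ⊆ Finset.Icc 1 n := fun i =>
      hsub _ (hML _ (List.getElem_mem _))
    refine ⟨M.length, fun i => gF n (M.get i), ?_, ?_, ?_, ?_, ?_⟩
    · intro i j hij
      have := gF_inj (hsub' i) (hsub' j) hij
      exact (List.nodup_iff_injective_get.1 hMnd) this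
    · intro i hi
      have : M.get i = ∅ := by
        cases M with
        | nil => exact absurd i.isLt (by simp)
        | cons a M =>
          simp only [List.head?_cons, Option.some.injEq] at hM0
          have hi0 : i = ⟨0, by simp⟩ := Fin.ext hi
          subst hM0
          rw [hi0]; rfl
      simp only [this]
      ext x; simp [mem_gF]
    · intro i j hij h
      have h1 := hMa.suc i.val (by rw [← hij]; exact j.isLt)
      have h2 : M.get j = M[i.val + 1]'(by rw [← hij]; exact j.isLt) := by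
        simp [List.get_eq_getElem, hij]
      rw [← h2] at h1
      exact h1 ((gF_sub (hsub' j)).1 h)
    · intro i j k hij hjk h
      have hjk' : j.val < k.val := hjk
      have h1 := hMa.uni i.val k.val (by omega) k.isLt
      have h2 : M.get j = M[i.val + 1]'(by rw [← hij]; exact j.isLt) := by
        simp [List.get_eq_getElem, hij]
      rw [← h2] at h1
      apply h1
      have h3 : gF n (M.get k) ⊆ gF n (M.get i ∪ M.get j) := by
        refine h.trans ?_
        intro x hx
        rw [Finset.mem_union, mem_gF, mem_gF] at hx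
        rw [mem_gF, Finset.mem_union]
        exact hx
      exact (gF_sub (hsub' k)).1 h3
    · have h8 : (n - 1) ^ 8 ≤ n ^ 8 := Nat.pow_le_pow_left (by omega) 8
      have h2n : 2 ^ n = 2 * 2 ^ (n - 1) := by
        rw [← pow_succ']; congr 1; omega
      omega

end Pool.Agent.Helper605.FT
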