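import Mathlib
import Pool.Agent.Helper605.FT.A
import Pool.Agent.Helper605.FT.AL
import Pool.Agent.Helper605.FT.VC

set_option autoImplicit false

namespace Pool.Agent.Helper605.FT

theorem not_mem_tail_of_nodup {α : Type*} {L : List α} {a : α} (h : L.Nodup)
    (ha : L.head? = some a) : a ∉ L.tail := by
  cases L with
  | nil => simp at ha
  | cons b L =>
    simp only [List.head?_cons, Option.some.injEq] at ha
    subst ha
    simpa using (List.nodup_cons.1 h).1

theorem not_mem_dropLast_of_nodup {α : Type*} {L : List α} {a : α} (h : L.Nodup)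
    (ha : L.getLast? = some a) : a ∉ L.dropLast := by
  rw [List.getLast?_eq_some_iff] at ha
  obtain ⟨M, rfl⟩ := ha
  rw [List.dropLast_concat]
  rw [List.nodup_append] at h
  intro ha
  exact h.2.2 a ha a (by simp) rfl

/-- the start of the path -/
def St (n : ℕ) : List (Finset ℕ) :=
  ∅ :: (List.range 10).map (fun j => insert (n + 1) (Finset.Icc (n - j + 1) n))

/-- the path through phases `9, ..., m + 8` -/
def Lm (n : ℕ) (v c : ℕ → List (Finset ℕ)) : ℕ → List (Finset ℕ)
  | 0 => St n
  | m + 1 => (Lm n v c m ++ v (m + 9)) ++ (c (m + 9)).map (insert (n + 1))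

theorem card_Icc_top (n j : ℕ) (hj : j ≤ n) : (Finset.Icc (n - j + 1) n).card = j := by
  rw [Nat.card_Icc]; omega

theorem adj_ins {x : ℕ} {a : Finset ℕ} (h : x ∉ a) : Adj a (insert x a) := Or.inl ⟨x, h, rfl⟩
theorem adj_ins' {x : ℕ} {a : Finset ℕ} (h : x ∉ a) : Adj (insert x a) a := Or.inr ⟨x, h, rfl⟩

theorem sub_of_sub_ins {x : ℕ} {a b : Finset ℕ} (hb : x ∉ b) (h : b ⊆ insert x a) : b ⊆ a := by
  intro y hy
  rcases Finset.mem_insert.1 (h hy) with rfl | h'
  · exact absurd hy hb
  · exact h'

theorem St_ok (n : ℕ) (hn : 14 ≤ n) : Ok (St n) := by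
  have hadj : ∀ j, j < 9 → Adj (insert (n + 1) (Finset.Icc (n - j + 1) n))
      (insert (n + 1) (Finset.Icc (n - (j + 1) + 1) n)) := by
    intro j hj
    refine Or.inl ⟨n - j, ?_, ?_⟩
    · simp only [Finset.mem_insert, Finset.mem_Icc]; omega
    · ext y; simp only [Finset.mem_insert, Finset.mem_Icc]; omega
  have hns : ∀ i j, i < j → j < 10 → ¬ (insert (n + 1) (Finset.Icc (n - j + 1) n)) ⊆
      (insert (n + 1) (Finset.Icc (n - i + 1) n)) := by
    intro i j hij hj h
    have : n - j + 1 ∈ insert (n + 1) (Finset.Icc (n - i + 1) n) := h (by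
      simp only [Finset.mem_insert, Finset.mem_Icc]; omega)
    simp only [Finset.mem_insert, Finset.mem_Icc] at this
    omega
  have key : ∀ (m s : ℕ), s + m ≤ 10 → Ok ((List.range' s m).map
      (fun j => insert (n + 1) (Finset.Icc (n - j + 1) n))) := by
    intro m
    induction m with
    | zero => intro s _; simp [Ok]
    | succ m ih =>
      intro s hs
      cases m with
      | zero => simp [Ok]
      | succ m =>
        have := ih (s + 1) (by omega)
        rw [List.range'_succ, List.map_cons] at this ⊢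
        rw [List.range'_succ, List.map_cons]
        refine ⟨hadj s (by omega), ?_, this⟩
        intro c hc
        rw [List.mem_map] at hc
        obtain ⟨j, hj, rfl⟩ := hc
        rw [List.mem_range'] at hj
        obtain ⟨i, hi, rfl⟩ := hj
        exact hns _ _ (by omega) (by omega)
  unfold St
  have h10 := key 10 0 (by omega)
  rw [← List.range_eq_range'] at h10
  have : (List.range 10).map (fun j => insert (n + 1) (Finset.Icc (n - j + 1) n)) =
      (insert (n + 1) (Finset.Icc (n - 0 + 1) n)) :: (List.range' 1 9).map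
        (fun j => insert (n + 1) (Finset.Icc (n - j + 1) n)) := by
    rw [List.range_eq_range', List.range'_succ, List.map_cons]
  rw [this] at h10 ⊢
  refine ⟨?_, ?_, h10⟩
  · refine Or.inl ⟨n + 1, by simp, ?_⟩
    ext y; simp only [Finset.mem_insert, Finset.mem_Icc, Finset.notMem_empty, or_false]; omega
  · intro c hc h
    rw [List.mem_map] at hc
    obtain ⟨j, hj, rfl⟩ := hc
    have := h (Finset.mem_insert_self _ _)
    simp at this

structure LInv (n : ℕ) (v c : ℕ → List (Finset ℕ)) (m : ℕ) (L : List (Finset ℕ)) : Prop where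
  ok : Ok L
  head : L.head? = some ∅
  last : L.getLast? = some (insert (n + 1) (Finset.Icc (n - (m + 9) + 1) n))
  d1 : ∀ a ∈ L.dropLast, ∀ l, m + 9 ≤ l → l + 5 ≤ n → ∀ b ∈ v l, ¬ b ⊆ a
  d2 : ∀ a ∈ L, ∀ l, m + 9 ≤ l → l + 5 ≤ n → ∀ b ∈ c l, ¬ insert (n + 1) b ⊆ a
  sub : ∀ a ∈ L, a ⊆ Finset.Icc 1 (n + 1)

theorem St_inv (n : ℕ) (hn : 14 ≤ n) {v c : ℕ → List (Finset ℕ)} (hv : VF n v) (hc : CF n c) :
    LInv n v c 0 (St n) := by
  have hxv : ∀ k, 9 ≤ k → k + 2 ≤ n → ∀ a ∈ v k, n + 1 ∉ a := by
    intro k h1 h2 a ha h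
    have := hv.sub k h1 h2 a ha h
    simp at this
  have hxc : ∀ k, 4 ≤ k → k + 5 ≤ n → ∀ a ∈ c k, n + 1 ∉ a := by
    intro k h1 h2 a ha h
    have := hc.sub k h1 h2 a ha h
    simp at this
  constructor
  · exact St_ok n hn
  · rfl
  · unfold St
    rw [show (10 : ℕ) = 9 + 1 from rfl, List.range_succ, List.map_append, List.map_singleton,
      ← List.cons_append, List.getLast?_concat]
  · intro a ha l hl1 hl2 b hb hba
    have h1 : a ∈ ∅ :: (List.range 9).map
        (fun j => insert (n + 1) (Finset.Icc (n - j + 1) n)) := by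
      unfold St at ha
      rw [show (10 : ℕ) = 9 + 1 from rfl, List.range_succ, List.map_append, List.map_singleton,
        ← List.cons_append, List.dropLast_concat] at ha
      exact ha
    have hcb := hv.card l (by omega) (by omega) b hb
    rcases List.mem_cons.1 h1 with rfl | h1
    · have := Finset.card_le_card hba
      rw [Finset.card_empty] at this
      omega
    · rw [List.mem_map] at h1
      obtain ⟨j, hj, rfl⟩ := h1
      rw [List.mem_range] at hj
      have h2 := Finset.card_le_card (sub_of_sub_ins (hxv l (by omega) (by omega) b hb) hba)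
      rw [card_Icc_top n j (by omega)] at h2
      omega
  · intro a ha l hl1 hl2 b hb hba
    have hR : Finset.Icc (n - 8) n ∈ c 8 := List.mem_of_getLast? (hc.last 8 (by omega) (by omega))
    refine hc.cross 8 l (by omega) (by omega) hl2 _ hR b hb ?_
    have hxb := hxc l (by omega) hl2 b hb
    unfold St at ha
    rcases List.mem_cons.1 ha with rfl | h1
    · exact absurd (hba (Finset.mem_insert_self _ _)) (by simp)
    · rw [List.mem_map] at h1
      obtain ⟨j, hj, rfl⟩ := h1
      rw [List.mem_range] at hj
      intro y hy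
      have h3 := sub_of_ins_sub hxb hba hy
      simp only [Finset.mem_Icc] at h3 ⊢
      omega
  · intro a ha y hy
    unfold St at ha
    rcases List.mem_cons.1 ha with rfl | h1
    · simp at hy
    · rw [List.mem_map] at h1
      obtain ⟨j, hj, rfl⟩ := h1
      rw [List.mem_range] at hj
      simp only [Finset.mem_insert, Finset.mem_Icc] at hy ⊢
      omega

theorem L_step {n m : ℕ} {v c : ℕ → List (Finset ℕ)} (hv : VF n v) (hc : CF n c)
    (hm : m + 9 + 5 ≤ n) {L : List (Finset ℕ)} (h : LInv n v c m L) :
    LInv n v c (m + 1) ((L ++ v (m + 9)) ++ (c (m + 9)).map (insert (n + 1))) := by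
  have hxv : ∀ k, 9 ≤ k → k + 2 ≤ n → ∀ a ∈ v k, n + 1 ∉ a := by
    intro k h1 h2 a ha h
    have := hv.sub k h1 h2 a ha h
    simp at this
  have hxc : ∀ k, 4 ≤ k → k + 5 ≤ n → ∀ a ∈ c k, n + 1 ∉ a := by
    intro k h1 h2 a ha h
    have := hc.sub k h1 h2 a ha h
    simp at this
  have hvne : v (m + 9) ≠ [] := by
    intro h0
    have := hv.head (m + 9) (by omega) (by omega)
    rw [h0] at this; simp at this
  have hcne : (c (m + 9)).map (insert (n + 1)) ≠ [] := by
    intro h0
    have h1 := hc.head (m + 9) (by omega) (by omega)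
    rw [List.map_eq_nil_iff] at h0
    rw [h0] at h1; simp at h1
  have hLne : L ≠ [] := by
    intro h0
    have := h.head
    rw [h0] at this; simp at this
  -- the last element of L against v l
  have hlastv : ∀ l, m + 9 < l → l + 5 ≤ n → ∀ b ∈ v l,
      ¬ b ⊆ insert (n + 1) (Finset.Icc (n - (m + 9) + 1) n) := by
    intro l hl1 hl2 b hb hba
    have h2 := Finset.card_le_card (sub_of_sub_ins (hxv l (by omega) (by omega) b hb) hba)
    rw [card_Icc_top n _ (by omega)] at h2
    have := hv.card l (by omega) (by omega) b hb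
    omega
  have hLv : ∀ a ∈ L, ∀ l, m + 9 < l → l + 5 ≤ n → ∀ b ∈ v l, ¬ b ⊆ a := by
    intro a ha l hl1 hl2 b hb hba
    have h1 := h.last
    rw [List.getLast?_eq_some_iff] at h1
    obtain ⟨M, rfl⟩ := h1
    rcases List.mem_append.1 ha with ha | ha
    · exact h.d1 a (by rw [List.dropLast_concat]; exact ha) l (by omega) hl2 b hb hba
    · rw [List.mem_singleton] at ha
      subst ha
      exact hlastv l hl1 hl2 b hb hba
  have ok1 : Ok (L ++ v (m + 9)) := by
    refine h.ok.append (hv.ok _ (by omega) (by omega)) ?_ ?_ ?_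
    · intro a ha b hb
      rw [h.last] at ha
      rw [hv.head (m + 9) (by omega) (by omega)] at hb
      simp only [Option.mem_def, Option.some.injEq] at ha hb
      subst ha hb
      refine adj_ins' ?_
      simp
    · intro a ha b hb
      exact h.d1 a ha (m + 9) le_rfl hm b hb
    · intro a ha b hb hba
      rw [h.last] at ha
      simp only [Option.mem_def, Option.some.injEq] at ha
      subst ha
      have hbm := List.mem_of_mem_tail hb
      have h1 := sub_of_sub_ins (hxv (m + 9) (by omega) (by omega) b hbm) hba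
      have h2 := hv.card (m + 9) (by omega) (by omega) b hbm
      have h3 : b = Finset.Icc (n - (m + 9) + 1) n := by
        apply Finset.eq_of_subset_of_card_le h1
        rw [card_Icc_top n _ (by omega)]
        omega
      subst h3
      exact not_mem_tail_of_nodup (Ok.nodup _ (hv.ok (m + 9) (by omega) (by omega)))
        (hv.head (m + 9) (by omega) (by omega)) hb
  have ok2 : Ok ((L ++ v (m + 9)) ++ (c (m + 9)).map (insert (n + 1))) := by
    refine ok1.append_strong ((hc.ok _ (by omega) (by omega)).ins (hxc _ (by omega) (by omega)))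
      ?_ ?_
    · intro a ha b hb
      rw [List.getLast?_append, hv.last (m + 9) (by omega) (by omega)] at ha
      rw [List.head?_map, hc.head (m + 9) (by omega) (by omega)] at hb
      simp only [Option.some_or, Option.mem_def, Option.some.injEq, Option.map_some] at ha hb
      subst ha hb
      refine adj_ins ?_
      simp only [Finset.mem_insert, Finset.mem_Icc]
      omega
    · intro a ha b hb hba
      rw [List.mem_map] at hb
      obtain ⟨b', hb', rfl⟩ := hb
      rcases List.mem_append.1 ha with ha | ha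
      · exact h.d2 a ha (m + 9) le_rfl hm b' hb' hba
      · exact hxv _ (by omega) (by omega) a ha (hba (Finset.mem_insert_self _ _))
  refine ⟨ok2, ?_, ?_, ?_, ?_, ?_⟩
  · rw [List.append_assoc, List.head?_append, h.head]; rfl
  · rw [List.getLast?_append, List.getLast?_map, hc.last (m + 9) (by omega) (by omega)]
    simp only [Option.map_some, Option.some_or, Option.some.injEq]
    congr 2
    omega
  · intro a ha l hl1 hl2 b hb hba
    rw [List.dropLast_append_of_ne_nil hcne] at ha
    rcases List.mem_append.1 ha with ha | ha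
    · rcases List.mem_append.1 ha with ha | ha
      · exact hLv a ha l (by omega) hl2 b hb hba
      · exact hv.cross (m + 9) l (by omega) (by omega) (by omega) a ha b hb hba
    · rw [← List.map_dropLast, List.mem_map] at ha
      obtain ⟨a', ha', rfl⟩ := ha
      have h1 := sub_of_sub_ins (hxv l (by omega) (by omega) b hb) hba
      have h2 := Finset.card_le_card h1
      have h3 := hv.card l (by omega) (by omega) b hb
      rcases hc.card (m + 9) (by omega) (by omega) a' (List.dropLast_subset _ ha') with
        h4 | h4 | h4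
      · omega
      · omega
      · subst h4
        exact not_mem_dropLast_of_nodup (Ok.nodup _ (hc.ok (m + 9) (by omega) (by omega)))
          (hc.last (m + 9) (by omega) (by omega)) ha'
  · intro a ha l hl1 hl2 b hb hba
    rcases List.mem_append.1 ha with ha | ha
    · rcases List.mem_append.1 ha with ha | ha
      · exact h.d2 a ha l (by omega) hl2 b hb hba
      · exact hxv _ (by omega) (by omega) a ha (hba (Finset.mem_insert_self _ _))
    · rw [List.mem_map] at ha
      obtain ⟨a', ha', rfl⟩ := ha
      exact hc.cross (m + 9) l (by omega) (by omega) hl2 a' ha' b hb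
        (sub_of_ins_sub (hxc l (by omega) hl2 b hb) hba)
  · intro a ha
    have hsub : Finset.Icc 1 n ⊆ Finset.Icc 1 (n + 1) := Finset.Icc_subset_Icc_right (by omega)
    rcases List.mem_append.1 ha with ha | ha
    · rcases List.mem_append.1 ha with ha | ha
      · exact h.sub a ha
      · exact (hv.sub _ (by omega) (by omega) a ha).trans hsub
    · rw [List.mem_map] at ha
      obtain ⟨a', ha', rfl⟩ := ha
      refine Finset.insert_subset (by simp) ((hc.sub _ (by omega) (by omega) a' ha').trans hsub)

theorem L_all {n : ℕ} (hn : 14 ≤ n) {v c : ℕ → List (Finset ℕ)} (hv : VF n v) (hc : CF n c) :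
    ∀ m, m + 8 + 5 ≤ n → LInv n v c m (Lm n v c m) := by
  intro m
  induction m with
  | zero => intro _; exact St_inv n hn hv hc
  | succ m ih =>
    intro hm
    exact L_step hv hc (by omega) (ih (by omega))

theorem L_len (n : ℕ) (v c : ℕ → List (Finset ℕ)) (m : ℕ) :
    (Lm n v c m).length =
      11 + ∑ k ∈ Finset.Icc 9 (m + 8), ((v k).length + (c k).length) := by
  induction m with
  | zero => simp [Lm, St]
  | succ m ih =>
    rw [show m + 1 + 8 = (m + 8) + 1 by ring, Finset.sum_Icc_succ_top (by omega)]
    simp only [Lm, List.length_append, List.length_map, ih]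
    rw [show m + 8 + 1 = m + 9 by ring]
    ring

/-- the path: a near Hamiltonian order preserving path on the subsets of `1..n+1` -/
theorem path_exists
    (count_bound : ∀ (n : ℕ), 14 ≤ n → ∀ (v c : ℕ → ℕ),
      (∀ k, 9 ≤ k → k + 5 ≤ n → 2 * (n - 1).choose k ≤ v k + 1) →
      (∀ k, 9 ≤ k → k + 5 ≤ n → 2 * (n - 1).choose (k - 1) ≤ c k + 2 * (n - 1).choose 3) →
      2 ^ (n + 1) ≤ (∑ k ∈ Finset.Icc 9 (n - 5), (v k + c k)) + 40 * n ^ 8)
    (hV : ∀ n, 12 ≤ n → ∃ v : ℕ → List (Finset ℕ), VF n v)
    (hC : ∀ n, 9 ≤ n → ∃ c : ℕ → List (Finset ℕ), CF n c) (n : ℕ) (hn : 14 ≤ n) :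
    ∃ L : List (Finset ℕ), Ok L ∧ L.head? = some ∅ ∧ (∀ a ∈ L, a ⊆ Finset.Icc 1 (n + 1)) ∧
      2 ^ (n + 1) ≤ L.length + 40 * n ^ 8 := by
  obtain ⟨v, hv⟩ := hV n (by omega)
  obtain ⟨c, hc⟩ := hC n (by omega)
  have h := L_all hn hv hc (n - 13) (by omega)
  refine ⟨_, h.ok, h.head, h.sub, ?_⟩
  rw [L_len, show n - 13 + 8 = n - 5 by omega]
  have := count_bound n hn (fun k => (v k).length) (fun k => (c k).length)
    (fun k h1 h2 => hv.len k h1 (by omega)) (fun k h1 h2 => hc.len k (by omega) h2)
  omega

end Pool.Agent.Helper605.FT
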