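import Mathlib
import Pool.Agent.Helper605.FT.A

set_option autoImplicit false

namespace Pool.Agent.Helper605.FT


/-- TARGET -/
theorem pvc (flex : ∀ n, 8 ≤ n → ∀ (s' : List ℕ) (p x q : ℕ) (e' : List ℕ), (s' ++ [p, x]).length = n →
      (s' ++ [p, x]).Nodup → (x :: q :: e').Perm (s' ++ [p, x]) → q ≠ p →
      PV (s' ++ [p, x]) (x :: q :: e')) :
    ∀ n, 9 ≤ n → ∃ π : ℕ → List (Finset ℕ),
      PVf (n :: List.range' 1 (n - 1)) ((n - 1) :: (List.range' 1 (n - 2) ++ [n])) π ∧
      ∀ k, 4 ≤ k → k + 3 ≤ n → Finset.Icc (n - k + 1) n ∈ π (k - 1) := by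
  intro n hn
  obtain ⟨m, hm⟩ : ∃ m, m = (n - 2) :: n :: ((List.range' 4 (n - 6)).reverse ++ [2, 3, 1]) :=
    ⟨_, rfl⟩
  have hs' : n :: List.range' 1 (n - 2) = (n :: List.range' 1 (n - 4)) ++ [n - 3, n - 2] := by
    have e1 : n - 2 = (n - 4) + 2 := by omega
    rw [e1, ← List.range'_append_1]
    have e2 : 1 + (n - 4) = n - 3 := by omega
    have e3 : n - 4 + 2 = n - 3 + 1 := by omega
    rw [e2, e3]
    rfl
  have hs : n :: List.range' 1 (n - 1) = (n :: List.range' 1 (n - 2)) ++ [n - 1] := by
    have e1 : n - 1 = (n - 2) + 1 := by omega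
    rw [e1, ← List.range'_append_1]
    have e2 : 1 + (n - 2) = n - 2 + 1 := by omega
    rw [e2]
    rfl
  have hnd1 : (n :: List.range' 1 (n - 2)).Nodup := by
    rw [List.nodup_cons]
    refine ⟨?_, List.nodup_range'⟩
    rw [List.mem_range'_1]
    omega
  have hmnd : m.Nodup := by
    rw [hm]
    simp only [List.nodup_cons, List.nodup_append, List.nodup_reverse, List.mem_cons,
      List.mem_append, List.mem_reverse, List.mem_range'_1]
    refine ⟨?_, ?_, List.nodup_range', ?_, ?_⟩
    · simp; omega
    · simp; omega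
    · simp
    · intro a ha b hb
      simp at hb
      omega
  have hmperm : m.Perm (n :: List.range' 1 (n - 2)) := by
    rw [List.perm_ext_iff_of_nodup hmnd hnd1]
    intro a
    rw [hm]
    simp only [List.mem_cons, List.mem_append, List.mem_reverse, List.mem_range'_1]
    simp
    omega
  have hlens' : (n :: List.range' 1 (n - 2)).length = n - 1 := by
    simp; omega
  have hA : PV (n :: List.range' 1 (n - 2)) m := by
    have hm' := hmperm
    have hn' := hnd1
    have hl' := hlens'
    rw [hm]
    rw [hm] at hm'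
    rw [hs'] at hm' hn' hl' ⊢
    exact flex (n - 1) (by omega) _ _ _ _ _ hl' hn' hm' (by omega)
  have htgt : List.range' 1 (n - 2) ++ [n] = 1 :: 2 :: (List.range' 3 (n - 4) ++ [n]) := by
    have e1 : n - 2 = (n - 4) + 1 + 1 := by omega
    rw [e1, List.range'_succ, List.range'_succ]
    rfl
  have htperm : (List.range' 1 (n - 2) ++ [n]).Perm m :=
    (List.perm_append_comm (l₁ := List.range' 1 (n - 2)) (l₂ := [n])).trans hmperm.symm
  have hmsplit : m = ((n - 2) :: n :: ((List.range' 4 (n - 6)).reverse ++ [2])) ++ [3, 1] := by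
    rw [hm]; simp
  have hml : m.length = n - 1 := by rw [hmperm.length_eq, hlens']
  have hB : PV m (List.range' 1 (n - 2) ++ [n]) := by
    have hm' := htperm
    have hn' := hmnd
    have hl' := hml
    rw [htgt] at hm' ⊢
    rw [hmsplit] at hm' hn' hl' ⊢
    exact flex (n - 1) (by omega) _ _ _ _ _ hl' hn' hm' (by omega)
  obtain ⟨A, hA⟩ := hA
  obtain ⟨B, hB⟩ := hB
  have hx : n - 1 ∉ n :: List.range' 1 (n - 2) := by
    simp only [List.mem_cons, List.mem_range'_1]
    omega
  refine ⟨mg (n - 1) A B, ?_, ?_⟩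
  · have := hA.merge hB hx (by simp)
    rw [← hs] at this
    exact this
  · intro k hk4 hkn
    obtain ⟨j, rfl⟩ : ∃ j, k = j + 2 := ⟨k - 2, by omega⟩
    have e1 : j + 2 - 1 = j + 1 := by omega
    rw [e1]
    simp only [mg, List.mem_append, List.mem_map]
    right
    have hh := hB.head j (by omega)
    refine ⟨(m.take (j + 1)).toFinset, List.mem_of_head? hh, ?_⟩
    obtain ⟨i, rfl⟩ : ∃ i, j = i + 1 := ⟨j - 1, by omega⟩
    have htake : m.take (i + 1 + 1) = (n - 2) :: n :: (List.range' (n - (i + 3) + 1) i).reverse := by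
      rw [hm, List.take_succ_cons, List.take_succ_cons,
        List.take_append_of_le_length (by simp; omega), List.take_reverse, List.length_range',
        List.drop_range']
      congr 4
      · omega
      · omega
    rw [htake]
    ext a
    simp only [List.toFinset_cons, List.toFinset_reverse, Finset.mem_insert, List.mem_toFinset,
      List.mem_range'_1, Finset.mem_Icc]
    omega

end Pool.Agent.Helper605.FT
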