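import Mathlib
import Pool.Agent.Helper605.FT.A
import Pool.Agent.Helper605.FT.V1
import Pool.Agent.Helper605.FT.VC

set_option autoImplicit false

namespace Pool.Agent.Helper605.FT
theorem arr_aux (S : Finset ℕ) (l1 l2 : List ℕ) (h : (l1 ++ l2).Nodup)
    (hS : ∀ x ∈ l1 ++ l2, x ∈ S) :
    ∃ m : List ℕ, (l1 ++ (m ++ l2)).Nodup ∧ (l1 ++ (m ++ l2)).toFinset = S := by
  refine ⟨(S \ (l1 ++ l2).toFinset).toList, ?_, ?_⟩
  · have h1 : ((S \ (l1 ++ l2).toFinset).toList ++ (l1 ++ l2)).Nodup := by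
      rw [List.nodup_append]
      refine ⟨Finset.nodup_toList _, h, ?_⟩
      intro a ha b hb hab
      subst hab
      rw [Finset.mem_toList, Finset.mem_sdiff, List.mem_toFinset] at ha
      exact ha.2 hb
    refine (List.Perm.nodup_iff ?_).2 h1
    rw [← List.append_assoc, ← List.append_assoc]
    exact List.Perm.append_right _ List.perm_append_comm
  · ext x
    have := hS x
    simp only [List.mem_append] at this
    simp only [List.toFinset_append, Finset.mem_union, List.mem_toFinset, Finset.mem_toList,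
      Finset.mem_sdiff, not_or]
    tauto

theorem pick_aux (S : Finset ℕ) (l : List ℕ) (h : l.length < S.card) : ∃ x ∈ S, x ∉ l := by
  have h1 : l.toFinset.card < S.card := lt_of_le_of_lt (List.toFinset_card_le l) h
  obtain ⟨x, hx, hx'⟩ := Finset.exists_mem_notMem_of_card_lt_card h1
  exact ⟨x, hx, fun h => hx' (List.mem_toFinset.2 h)⟩

def UU (n N : ℕ) : Prop := ∀ d : ℕ, ∃ (s' : List ℕ) (p : ℕ) (G : List ℕ)
    (v : ℕ → List (Finset ℕ)), p ≠ d ∧
  (s' ++ [p, n + 1 - N]).Nodup ∧ (s' ++ [p, n + 1 - N]).toFinset = Finset.Icc (n + 1 - N) n ∧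
  G.toFinset = Finset.Icc (n + 1 - N) n ∧
  VVf 9 N (fun k => Finset.Icc (n - k + 1) n) G (s' ++ [p, n + 1 - N]) v

theorem UU_base (n : ℕ) (hn : 12 ≤ n) : UU n 9 := by
  intro d
  obtain ⟨p, hp, hpd⟩ := pick_aux (Finset.Icc (n + 1 - 9) n) [n + 1 - 9, d] (by simp; omega)
  simp only [List.mem_cons, List.not_mem_nil, or_false, not_or] at hpd
  obtain ⟨m, hm1, hm2⟩ := arr_aux (Finset.Icc (n + 1 - 9) n) [] [p, n + 1 - 9]
    (by simp; exact hpd.1) (by
      intro x hx
      simp only [List.nil_append, List.mem_cons, List.not_mem_nil, or_false] at hx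
      rcases hx with rfl | rfl
      · exact hp
      · simp only [Finset.mem_Icc]; omega)
  simp only [List.nil_append] at hm1 hm2
  have hlen : (m ++ [p, n + 1 - 9]).length = 9 := by
    rw [← List.toFinset_card_of_nodup hm1, hm2]; simp; omega
  have hcd : (Finset.Icc (n + 1 - 9) n).card = 9 := by simp; omega
  refine ⟨m, p, m ++ [p, n + 1 - 9], fun _ => [Finset.Icc (n + 1 - 9) n], hpd.2, hm1, hm2, hm2, ?_⟩
  constructor
  · exact hm1
  · exact List.Perm.refl _
  · intro k h1 h2
    rw [hlen, Nat.choose_eq_zero_of_lt (by omega)]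
    simp
  · intro k h1 h2; simp [Ok]
  · intro k h1 h2 a ha
    simp only [List.mem_singleton] at ha
    subst ha
    left; rw [hcd]; omega
  · intro k h1 h2 a ha
    simp only [List.mem_singleton] at ha
    subst ha
    rw [hm2]
  · intro k h1 h2
    have : k = 9 := by omega
    subst this
    simp only [List.head?_cons, Option.some.injEq]
    congr 1; omega
  · intro k h1 h2
    have : k = 9 := by omega
    subst this
    rw [List.take_of_length_le (by omega), hm2]
    simp
  · intro k l h1 h2 h3; omega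

theorem UU_step
    (flex : ∀ n, 8 ≤ n → ∀ (s' : List ℕ) (p x q : ℕ) (e' : List ℕ), (s' ++ [p, x]).length = n →
      (s' ++ [p, x]).Nodup → (x :: q :: e').Perm (s' ++ [p, x]) → q ≠ p →
      PV (s' ++ [p, x]) (x :: q :: e'))
    (step2 : ∀ (N : ℕ) (R : ℕ → Finset ℕ) (G z w w' : List ℕ) (v B1 B2 : ℕ → List (Finset ℕ))
      (y y2 : ℕ), VVf 9 N R G z v → G.length = N → 9 ≤ N → y ∉ G → y2 ∉ G → y ≠ y2 →
      PVf z w B1 → PVf (y :: w) (w' ++ [y]) B2 → R (N + 1) = insert y2 G.toFinset →
      R (N + 2) = insert y (insert y2 G.toFinset) →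
      VVf 9 (N + 2) R (G ++ [y, y2]) (y2 :: (w' ++ [y]))
        (fun k => if k ≤ N then
          v k ++ (B1 (k - 1)).map (insert y) ++ (B2 (k - 1)).map (insert y2) else [R k]))
    (n N : ℕ) (hN : 9 ≤ N) (hNn : N + 2 ≤ n) (hU : UU n N) : UU n (N + 2) := by
  intro d
  set S := Finset.Icc (n + 1 - N) n with hS
  have hSc : S.card = N := by rw [hS]; simp; omega
  have hb0 : n + 1 - N ∈ S := by rw [hS]; simp; omega
  -- choose w'
  obtain ⟨a, ha, ha'⟩ := pick_aux S [n + 1 - N] (by simp; omega)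
  simp only [List.mem_cons, List.not_mem_nil, or_false, not_or] at ha'
  obtain ⟨c, hc, hc'⟩ := pick_aux S [a] (by simp; omega)
  simp only [List.mem_cons, List.not_mem_nil, or_false, not_or] at hc'
  obtain ⟨p', hp', hp''⟩ := pick_aux S [a, c, d] (by simp; omega)
  simp only [List.mem_cons, List.not_mem_nil, or_false, not_or] at hp''
  obtain ⟨m', hm1', hm2'⟩ := arr_aux S [a, c] [p']
    (by simp; exact ⟨⟨fun h => hc' h.symm, fun h => hp''.1 h.symm⟩, fun h => hp''.2.1 h.symm⟩) (by
      intro x hx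
      simp only [List.cons_append, List.nil_append, List.mem_cons, List.not_mem_nil, or_false] at hx
      rcases hx with rfl | rfl | rfl
      · exact ha
      · exact hc
      · exact hp')
  -- choose w
  obtain ⟨p, hp, hpp⟩ := pick_aux S [a, n + 1 - N, c] (by simp; omega)
  simp only [List.mem_cons, List.not_mem_nil, or_false, not_or] at hpp
  obtain ⟨g, hg, hgg⟩ := pick_aux S [a, n + 1 - N, p] (by simp; omega)
  simp only [List.mem_cons, List.not_mem_nil, or_false, not_or] at hgg
  obtain ⟨m, hm1, hm2⟩ := arr_aux S [n + 1 - N, g] [p, a]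
    (by
      simp
      exact ⟨⟨fun h => hgg.2.1 h.symm, fun h => hpp.2.1 h.symm, fun h => ha' h.symm⟩,
        ⟨hgg.2.2, hgg.1⟩, hpp.1⟩) (by
      intro x hx
      simp only [List.cons_append, List.nil_append, List.mem_cons, List.not_mem_nil, or_false] at hx
      rcases hx with rfl | rfl | rfl | rfl
      · exact hb0
      · exact hg
      · exact hp
      · exact ha)
  obtain ⟨s', pz, G, v, hpz, hz1, hz2, hG, hV⟩ := hU g
  rw [← hS] at hz2 hG
  have hzl : (s' ++ [pz, n + 1 - N]).length = N := by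
    rw [← List.toFinset_card_of_nodup hz1, hz2, hSc]
  have hGl : G.length = N := by rw [← List.toFinset_card_of_nodup hV.nd, hG, hSc]
  have hwl : ([n + 1 - N, g] ++ (m ++ [p, a])).length = N := by
    rw [← List.toFinset_card_of_nodup hm1, hm2, hSc]
  have hyS : n - N - 1 ∉ S := by rw [hS]; simp; omega
  have hy2S : n - N ∉ S := by rw [hS]; simp; omega
  have hyw : n - N - 1 ∉ ([n + 1 - N, g] ++ (m ++ [p, a])) := by
    intro h; apply hyS; rw [← hm2]; exact List.mem_toFinset.2 h
  have hyw' : n - N - 1 ∉ ([a, c] ++ (m' ++ [p'])) := by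
    intro h; apply hyS; rw [← hm2']; exact List.mem_toFinset.2 h
  have hB1 : PV (s' ++ [pz, n + 1 - N]) ([n + 1 - N, g] ++ (m ++ [p, a])) := by
    refine flex N (by omega) s' pz (n + 1 - N) g (m ++ [p, a]) hzl hz1 ?_ (fun h => hpz h.symm)
    exact List.perm_of_nodup_nodup_toFinset_eq hm1 hz1 (by rw [hz2]; exact hm2)
  have hB2 : PV ((n - N - 1) :: ([n + 1 - N, g] ++ (m ++ [p, a])))
      (([a, c] ++ (m' ++ [p'])) ++ [n - N - 1]) := by
    have e1 : (n - N - 1) :: ([n + 1 - N, g] ++ (m ++ [p, a])) =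
        ((n - N - 1) :: ([n + 1 - N, g] ++ m)) ++ [p, a] := by simp
    have e2 : (([a, c] ++ (m' ++ [p'])) ++ [n - N - 1]) = a :: c :: (m' ++ [p'] ++ [n - N - 1]) := by
      simp
    have hnd1 : ((n - N - 1) :: ([n + 1 - N, g] ++ (m ++ [p, a]))).Nodup :=
      List.nodup_cons.2 ⟨hyw, hm1⟩
    have hnd2 : (([a, c] ++ (m' ++ [p'])) ++ [n - N - 1]).Nodup := by
      rw [List.nodup_append]
      refine ⟨hm1', by simp, ?_⟩
      intro x hx z hz hxz
      rw [List.mem_singleton] at hz
      subst hz; subst hxz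
      exact hyw' hx
    rw [e1, e2]
    refine flex (N + 1) (by omega) _ p a c _ ?_ ?_ ?_ (fun h => hpp.2.2 h.symm)
    · rw [← e1, List.length_cons, hwl]
    · rw [← e1]; exact hnd1
    · rw [← e1, ← e2]
      apply List.perm_of_nodup_nodup_toFinset_eq hnd2 hnd1
      rw [List.toFinset_append, hm2', List.toFinset_cons (l := [n + 1 - N, g] ++ (m ++ [p, a])), hm2]
      ext x; simp [or_comm]
  obtain ⟨B1, hB1⟩ := hB1
  obtain ⟨B2, hB2⟩ := hB2
  have hR1 : (fun k => Finset.Icc (n - k + 1) n) (N + 1) = insert (n - N) G.toFinset := by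
    rw [hG, hS]; ext x; simp; omega
  have hR2 : (fun k => Finset.Icc (n - k + 1) n) (N + 2) =
      insert (n - N - 1) (insert (n - N) G.toFinset) := by
    rw [hG, hS]; ext x; simp; omega
  have hyG : n - N - 1 ∉ G := by
    intro h; apply hyS; rw [← hG]; exact List.mem_toFinset.2 h
  have hy2G : n - N ∉ G := by
    intro h; apply hy2S; rw [← hG]; exact List.mem_toFinset.2 h
  have hfin := step2 N (fun k => Finset.Icc (n - k + 1) n) G _ _ _ v B1 B2 (n - N - 1) (n - N)
    hV hGl hN hyG hy2G (by omega) hB1 hB2 hR1 hR2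
  have e3 : (n - N) :: (([a, c] ++ (m' ++ [p'])) ++ [n - N - 1]) =
      ((n - N) :: a :: c :: m') ++ [p', n + 1 - (N + 2)] := by
    have : n + 1 - (N + 2) = n - N - 1 := by omega
    rw [this]; simp
  have hGf : (G ++ [n - N - 1, n - N]).toFinset = Finset.Icc (n + 1 - (N + 2)) n := by
    rw [List.toFinset_append, hG, hS]; ext x; simp; omega
  rw [e3] at hfin
  refine ⟨(n - N) :: a :: c :: m', p', G ++ [n - N - 1, n - N], _, hp''.2.2, ?_, ?_, hGf, hfin⟩
  · exact hfin.perm.nodup_iff.2 hfin.nd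
  · rw [← hGf]
    ext x
    simp only [List.mem_toFinset]
    exact hfin.perm.mem_iff

theorem UU_all
    (flex : ∀ n, 8 ≤ n → ∀ (s' : List ℕ) (p x q : ℕ) (e' : List ℕ), (s' ++ [p, x]).length = n →
      (s' ++ [p, x]).Nodup → (x :: q :: e').Perm (s' ++ [p, x]) → q ≠ p →
      PV (s' ++ [p, x]) (x :: q :: e'))
    (step2 : ∀ (N : ℕ) (R : ℕ → Finset ℕ) (G z w w' : List ℕ) (v B1 B2 : ℕ → List (Finset ℕ))
      (y y2 : ℕ), VVf 9 N R G z v → G.length = N → 9 ≤ N → y ∉ G → y2 ∉ G → y ≠ y2 →
      PVf z w B1 → PVf (y :: w) (w' ++ [y]) B2 → R (N + 1) = insert y2 G.toFinset →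
      R (N + 2) = insert y (insert y2 G.toFinset) →
      VVf 9 (N + 2) R (G ++ [y, y2]) (y2 :: (w' ++ [y]))
        (fun k => if k ≤ N then
          v k ++ (B1 (k - 1)).map (insert y) ++ (B2 (k - 1)).map (insert y2) else [R k]))
    (n : ℕ) (hn : 12 ≤ n) (j : ℕ) (hj : 9 + 2 * j ≤ n) : UU n (9 + 2 * j) := by
  induction j with
  | zero => exact UU_base n hn
  | succ j ih =>
    have := UU_step flex step2 n (9 + 2 * j) (by omega) (by omega) (ih (by omega))
    exact this

theorem take_aux (n k x1 x2 x3 : ℕ) (hk : 9 ≤ k) (hkn : k + 2 ≤ n)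
    (h : ({x1, x2, x3} : Finset ℕ) = {1, 2, n - 1}) :
    ((x1 :: x2 :: x3 :: (List.range' 3 (n - 4) ++ [n])).take k).toFinset =
      insert (n - 1) (Finset.Icc 1 (k - 1)) := by
  obtain ⟨k', rfl⟩ : ∃ k', k = k' + 3 := ⟨k - 3, by omega⟩
  have e1 : List.range' 3 (n - 4) = List.range' 3 k' ++ List.range' (3 + k') (n - 4 - k') := by
    rw [List.range'_append_1]; congr 1; omega
  rw [e1]
  have e2 : (x1 :: x2 :: x3 :: (List.range' 3 k' ++ List.range' (3 + k') (n - 4 - k') ++ [n])).take
      (k' + 3) = x1 :: x2 :: x3 :: List.range' 3 k' := by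
    simp only [List.take_succ_cons]
    rw [List.append_assoc, List.take_left' (by simp)]
  rw [e2]
  have e3 : (x1 :: x2 :: x3 :: List.range' 3 k').toFinset =
      ({x1, x2, x3} : Finset ℕ) ∪ (List.range' 3 k').toFinset := by
    ext x
    simp only [List.mem_toFinset, List.mem_cons, Finset.mem_union, Finset.mem_insert,
      Finset.mem_singleton]
    tauto
  rw [e3, h]
  ext x
  simp only [Finset.mem_union, Finset.mem_insert, Finset.mem_singleton, List.mem_toFinset,
    List.mem_range'_1, Finset.mem_Icc]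
  omega

theorem final_aux (n top : ℕ) (G : List ℕ) (x1 x2 x3 : ℕ) (v : ℕ → List (Finset ℕ)) (hn : 12 ≤ n)
    (htop : n ≤ top + 2) (hG : G.toFinset = Finset.Icc 1 n)
    (h : ({x1, x2, x3} : Finset ℕ) = {1, 2, n - 1})
    (hV : VVf 9 top (fun k => Finset.Icc (n - k + 1) n) G
      (x1 :: x2 :: x3 :: (List.range' 3 (n - 4) ++ [n])) v) : VF n v := by
  have hGl : G.length = n := by
    rw [← List.toFinset_card_of_nodup hV.nd, hG]; simp
  constructor
  · intro k h1 h2
    have := hV.len k h1 (by omega)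
    rwa [hGl] at this
  · intro k h1 h2; exact hV.ok k h1 (by omega)
  · intro k h1 h2; exact hV.card k h1 (by omega)
  · intro k h1 h2 a ha
    have := hV.sub k h1 (by omega) a ha
    rwa [hG] at this
  · intro k h1 h2; exact hV.head k h1 (by omega)
  · intro k h1 h2
    rw [hV.last k h1 (by omega), take_aux n k x1 x2 x3 h1 h2 h]
  · intro k l h1 h2 h3; exact hV.cross k l h1 h2 (by omega)

/-- TARGET -/
theorem vv_final (flex : ∀ n, 8 ≤ n → ∀ (s' : List ℕ) (p x q : ℕ) (e' : List ℕ), (s' ++ [p, x]).length = n →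
      (s' ++ [p, x]).Nodup → (x :: q :: e').Perm (s' ++ [p, x]) → q ≠ p →
      PV (s' ++ [p, x]) (x :: q :: e'))
    (merge : ∀ (c0 top : ℕ) (R : ℕ → Finset ℕ) (G z e : List ℕ) (v B : ℕ → List (Finset ℕ))
      (y : ℕ), VVf c0 top R G z v → PVf z e B → y ∉ G → 1 ≤ c0 → top ≤ G.length →
      VVf c0 top R (G ++ [y]) (y :: e) (fun k => v k ++ (B (k - 1)).map (insert y)))
    (step2 : ∀ (N : ℕ) (R : ℕ → Finset ℕ) (G z w w' : List ℕ) (v B1 B2 : ℕ → List (Finset ℕ))
      (y y2 : ℕ), VVf 9 N R G z v → G.length = N → 9 ≤ N → y ∉ G → y2 ∉ G → y ≠ y2 →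
      PVf z w B1 → PVf (y :: w) (w' ++ [y]) B2 → R (N + 1) = insert y2 G.toFinset →
      R (N + 2) = insert y (insert y2 G.toFinset) →
      VVf 9 (N + 2) R (G ++ [y, y2]) (y2 :: (w' ++ [y]))
        (fun k => if k ≤ N then
          v k ++ (B1 (k - 1)).map (insert y) ++ (B2 (k - 1)).map (insert y2) else [R k])) :
    ∀ n, 12 ≤ n → ∃ v : ℕ → List (Finset ℕ), VF n v := by
  intro n hn
  rcases Nat.even_or_odd n with hev | hodd
  · -- n even, N = n - 1
    obtain ⟨i, hi⟩ := hev
    have hU : UU n (n - 1) := by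
      have := UU_all flex step2 n hn (i - 5) (by omega)
      have e : 9 + 2 * (i - 5) = n - 1 := by omega
      rwa [e] at this
    obtain ⟨s', p, G, v, hp, hz1, hz2, hG, hV⟩ := hU (n - 1)
    have e0 : n + 1 - (n - 1) = 2 := by omega
    rw [e0] at hz1 hz2 hG hV
    have hzl : (s' ++ [p, 2]).length = n - 1 := by
      rw [← List.toFinset_card_of_nodup hz1, hz2]; simp
    have hnd : (2 :: (n - 1) :: (List.range' 3 (n - 4) ++ [n])).Nodup := by
      rw [List.nodup_cons, List.nodup_cons, List.nodup_append]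
      refine ⟨?_, ?_, List.nodup_range', by simp, ?_⟩
      · simp [List.mem_range'_1]; omega
      · simp [List.mem_range'_1]; omega
      · intro a ha b hb
        simp only [List.mem_range'_1, List.mem_singleton] at ha hb
        omega
    have hfs : (2 :: (n - 1) :: (List.range' 3 (n - 4) ++ [n])).toFinset = Finset.Icc 2 n := by
      ext x; simp [List.mem_range'_1]; omega
    have hB : PV (s' ++ [p, 2]) (2 :: (n - 1) :: (List.range' 3 (n - 4) ++ [n])) := by
      refine flex (n - 1) (by omega) s' p 2 (n - 1) _ hzl hz1 ?_ (fun h => hp h.symm)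
      exact List.perm_of_nodup_nodup_toFinset_eq hnd hz1 (by rw [hz2, hfs])
    obtain ⟨B, hB⟩ := hB
    have h1G : 1 ∉ G := by
      intro h
      have : (1:ℕ) ∈ G.toFinset := List.mem_toFinset.2 h
      rw [hG] at this; simp at this
    have hGl : G.length = n - 1 := by
      rw [← List.toFinset_card_of_nodup hV.nd, hG]; simp
    have hfin := merge 9 (n - 1) _ G _ _ v B 1 hV hB h1G (by norm_num) (by omega)
    refine ⟨_, final_aux n (n - 1) (G ++ [1]) 1 2 (n - 1) _ hn (by omega) ?_ rfl hfin⟩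
    rw [List.toFinset_append, hG]; ext x; simp; omega
  · -- n odd, N = n - 2
    obtain ⟨i, hi⟩ := hodd
    have hU : UU n (n - 2) := by
      have := UU_all flex step2 n hn (i - 5) (by omega)
      have e : 9 + 2 * (i - 5) = n - 2 := by omega
      rwa [e] at this
    have e0 : n + 1 - (n - 2) = 3 := by omega
    have hSc : (Finset.Icc 3 n).card = n - 2 := by simp
    obtain ⟨g, hg, hgg⟩ := pick_aux (Finset.Icc 3 n) [3, n - 1] (by simp; omega)
    simp only [List.mem_cons, List.not_mem_nil, or_false, not_or] at hgg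
    obtain ⟨q, hq, hqq⟩ := pick_aux (Finset.Icc 3 n) [3, g, n - 1] (by simp; omega)
    simp only [List.mem_cons, List.not_mem_nil, or_false, not_or] at hqq
    obtain ⟨m, hm1, hm2⟩ := arr_aux (Finset.Icc 3 n) [3, g] [q, n - 1]
      (by
        simp
        exact ⟨⟨fun h => hgg.1 h.symm, fun h => hqq.1 h.symm, by omega⟩,
          ⟨fun h => hqq.2.1 h.symm, hgg.2⟩, hqq.2.2⟩) (by
        intro x hx
        simp only [List.cons_append, List.nil_append, List.mem_cons, List.not_mem_nil, or_false] at hx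
        rcases hx with rfl | rfl | rfl | rfl
        · simp; omega
        · exact hg
        · exact hq
        · simp; omega)
    obtain ⟨s', p, G, v, hp, hz1, hz2, hG, hV⟩ := hU g
    rw [e0] at hz1 hz2 hG hV
    have hzl : (s' ++ [p, 3]).length = n - 2 := by
      rw [← List.toFinset_card_of_nodup hz1, hz2]; simp
    have hwl : ([3, g] ++ (m ++ [q, n - 1])).length = n - 2 := by
      rw [← List.toFinset_card_of_nodup hm1, hm2]; simp
    have h1w : 1 ∉ ([3, g] ++ (m ++ [q, n - 1])) := by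
      intro h
      have : (1:ℕ) ∈ ([3, g] ++ (m ++ [q, n - 1])).toFinset := List.mem_toFinset.2 h
      rw [hm2] at this; simp at this
    have hB1 : PV (s' ++ [p, 3]) ([3, g] ++ (m ++ [q, n - 1])) := by
      refine flex (n - 2) (by omega) s' p 3 g _ hzl hz1 ?_ (fun h => hp h.symm)
      exact List.perm_of_nodup_nodup_toFinset_eq hm1 hz1 (by rw [hz2]; exact hm2)
    have hnd : ((n - 1) :: 1 :: (List.range' 3 (n - 4) ++ [n])).Nodup := by
      rw [List.nodup_cons, List.nodup_cons, List.nodup_append]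
      refine ⟨?_, ?_, List.nodup_range', by simp, ?_⟩
      · simp [List.mem_range'_1]; omega
      · simp [List.mem_range'_1]; omega
      · intro a ha b hb
        simp only [List.mem_range'_1, List.mem_singleton] at ha hb
        omega
    have hB2 : PV (1 :: ([3, g] ++ (m ++ [q, n - 1])))
        ((n - 1) :: 1 :: (List.range' 3 (n - 4) ++ [n])) := by
      have e1 : 1 :: ([3, g] ++ (m ++ [q, n - 1])) = (1 :: ([3, g] ++ m)) ++ [q, n - 1] := by simp
      have hnd1 : (1 :: ([3, g] ++ (m ++ [q, n - 1]))).Nodup := List.nodup_cons.2 ⟨h1w, hm1⟩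
      rw [e1]
      have hq3 : 3 ≤ q := (Finset.mem_Icc.1 hq).1
      refine flex (n - 1) (by omega) _ q (n - 1) 1 _ ?_ ?_ ?_ (by omega)
      · rw [← e1, List.length_cons, hwl]; omega
      · rw [← e1]; exact hnd1
      · rw [← e1]
        apply List.perm_of_nodup_nodup_toFinset_eq hnd hnd1
        rw [List.toFinset_cons (a := 1) (l := [3, g] ++ (m ++ [q, n - 1])), hm2]
        ext x; simp [List.mem_range'_1]; omega
    obtain ⟨B1, hB1⟩ := hB1
    obtain ⟨B2, hB2⟩ := hB2
    have h1G : 1 ∉ G := by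
      intro h
      have : (1:ℕ) ∈ G.toFinset := List.mem_toFinset.2 h
      rw [hG] at this; simp at this
    have hGl : G.length = n - 2 := by
      rw [← List.toFinset_card_of_nodup hV.nd, hG]; simp
    have hf1 := merge 9 (n - 2) _ G _ _ v B1 1 hV hB1 h1G (by norm_num) (by omega)
    have h2G : 2 ∉ G ++ [1] := by
      intro h
      have : (2:ℕ) ∈ (G ++ [1]).toFinset := List.mem_toFinset.2 h
      rw [List.toFinset_append, hG] at this; simp at this
    have hf2 := merge 9 (n - 2) _ (G ++ [1]) _ _ _ B2 2 hf1 hB2 h2G (by norm_num)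
      (by rw [List.length_append, hGl, List.length_singleton]; omega)
    refine ⟨_, final_aux n (n - 2) (G ++ [1] ++ [2]) 2 (n - 1) 1 _ hn (by omega) ?_ ?_ hf2⟩
    · rw [List.toFinset_append, List.toFinset_append, hG]; ext x; simp; omega
    · ext x; simp; tauto

end Pool.Agent.Helper605.FT
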