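import Mathlib
import Pool.Agent.Helper605.FT.A
import Pool.Agent.Helper605.FT.B1
import Pool.Agent.Helper605.FT.B2
import Pool.Agent.Helper605.FT.B3
import Pool.Agent.Helper605.FT.PVC
import Pool.Agent.Helper605.FT.V2
import Pool.Agent.Helper605.FT.C
import Pool.Agent.Helper605.FT.Fin
import Pool.Agent.Helper605.FT.Conv

set_option autoImplicit false

namespace Pool.Agent.Helper605.FT

theorem perms_eq : perms = S1.sols.map Prod.fst := by decide +kernel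

theorem hok : ∀ p ∈ perms, PV (List.range 7) p := by
  intro p hp
  rw [perms_eq, List.mem_map] at hp
  obtain ⟨q, hq, rfl⟩ := hp
  exact ⟨_, S1.sols_ok q hq⟩

theorem flex : ∀ n, 8 ≤ n → ∀ (s' : List ℕ) (p x q : ℕ) (e' : List ℕ), (s' ++ [p, x]).length = n →
    (s' ++ [p, x]).Nodup → (x :: q :: e').Perm (s' ++ [p, x]) → q ≠ p →
    PV (s' ++ [p, x]) (x :: q :: e') :=
  PV_flex (base8 perms hok cover)

theorem all_path (n : ℕ) (hn : 14 ≤ n) :
    ∃ L : List (Finset ℕ), Ok L ∧ L.head? = some ∅ ∧ (∀ a ∈ L, a ⊆ Finset.Icc 1 (n + 1)) ∧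
      2 ^ (n + 1) ≤ L.length + 40 * n ^ 8 :=
  path_exists count_bound
    (vv_final flex (fun _ _ _ _ _ _ _ _ _ h1 h2 h3 h4 h5 => h1.merge h2 h3 h4 h5)
      (fun _ _ _ _ _ _ _ _ _ _ _ h1 h2 h3 h4 h5 h6 h7 h8 h9 h10 =>
        h1.step2 h2 h3 h4 h5 h6 h7 h8 h9 h10))
    (c_chain (pvc flex)) n hn

theorem path_final : ∀ n : ℕ, 1 ≤ n → ∃ (t : ℕ) (A : Fin t → Finset (Fin n)),
      Function.Injective A ∧
      (∀ i : Fin t, i.val = 0 → A i = ∅) ∧
      (∀ i j : Fin t, j.val = i.val + 1 →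
        (A i ⊂ A j ∨ A j ⊂ A i) ∧ (symmDiff (A i) (A j)).card = 1) ∧
      (∀ i j : Fin t, A i ⊂ A j → j < i → i.val = j.val + 1) ∧
      2 ^ n ≤ t + 40 * n ^ 8 :=
  near_path all_path

theorem alpha_final : ∀ n : ℕ, 1 ≤ n → ∃ (s : ℕ) (B : Fin s → Finset (Fin n)),
      Function.Injective B ∧
      (∀ i : Fin s, i.val = 0 → B i = ∅) ∧
      (∀ i j : Fin s, j.val = i.val + 1 → ¬ B j ⊆ B i) ∧
      (∀ i j k : Fin s, j.val = i.val + 1 → j < k → ¬ B k ⊆ B i ∪ B j) ∧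
      2 ^ (n - 1) ≤ s + 20 * n ^ 8 :=
  near_alpha all_path

end Pool.Agent.Helper605.FT
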